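import Pool.Agent.Lib_helper24.AS.Defs

/-!
# Block BAS: basic facts on the abstract arithmetic semigroup
-/

namespace Pool.Agent.AS

open Complex MeasureTheory Filter Topology

variable {P : Type}

theorem mul_app_pr [DecidableEq P] (f g : MvPowerSeries P ℝ) (n : P →₀ ℕ) :
    (f * g : MvPowerSeries P ℝ) n =
      ∑ p ∈ Finset.HasAntidiagonal.antidiagonal n, f p.1 * g p.2 := by
  exact MvPowerSeries.coeff_mul n f g

theorem nm_zero_pr (N : P → ℕ) : nm N 0 = 1 := by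
  simp [nm]

theorem nm_single_pr (N : P → ℕ) (p : P) (k : ℕ) : nm N (Finsupp.single p k) = N p ^ k := by
  unfold nm
  exact Finsupp.prod_single_index (pow_zero _)

theorem nm_add_pr (N : P → ℕ) (g h : P →₀ ℕ) : nm N (g + h) = nm N g * nm N h := by
  classical
  unfold nm
  exact Finsupp.prod_add_index' (fun p => pow_zero _) (fun p a b => pow_add _ _ _)

theorem nm_pos_pr {N : P → ℕ} (hN : ∀ p, 2 ≤ N p) (g : P →₀ ℕ) : 0 < nm N g := by
  unfold nm
  refine Finset.prod_pos fun p _ => ?_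
  have := hN p
  positivity

theorem nm_le_pr {N : P → ℕ} (hN : ∀ p, 2 ≤ N p) {g h : P →₀ ℕ} (hgh : g ≤ h) :
    nm N g ≤ nm N h := by
  obtain ⟨c, rfl⟩ : ∃ c, h = g + c := ⟨h - g, (add_tsub_cancel_of_le hgh).symm⟩
  rw [nm_add_pr]
  exact Nat.le_mul_of_pos_right _ (nm_pos_pr hN c)

theorem nm_eq_one_pr {N : P → ℕ} (hN : ∀ p, 2 ≤ N p) {g : P →₀ ℕ} : nm N g = 1 ↔ g = 0 := by
  constructor
  · intro h
    by_contra hg
    obtain ⟨p, hp⟩ : ∃ p, g p ≠ 0 := by
      by_contra hcon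
      push Not at hcon
      exact hg (Finsupp.ext hcon)
    have hle : Finsupp.single p 1 ≤ g := by
      classical
      intro q
      rcases eq_or_ne q p with rfl | hq
      · simp only [Finsupp.single_eq_same]
        omega
      · rw [Finsupp.single_eq_of_ne hq]
        exact Nat.zero_le _
    have := nm_le_pr hN hle
    rw [nm_single_pr, h, pow_one] at this
    have := hN p
    omega
  · rintro rfl
    exact nm_zero_pr N

theorem BAS_inf_add_sup (g h : P →₀ ℕ) : (g ⊓ h) + (g ⊔ h) = g + h := by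
  ext p
  simp only [Finsupp.add_apply, Finsupp.inf_apply, Finsupp.sup_apply]
  rcases le_total (g p) (h p) with h1 | h1
  · rw [inf_eq_left.2 h1, sup_eq_right.2 h1]
  · rw [inf_eq_right.2 h1, sup_eq_left.2 h1, add_comm]

theorem nm_inf_sup_pr (N : P → ℕ) (g h : P →₀ ℕ) :
    nm N (g ⊓ h) * nm N (g ⊔ h) = nm N g * nm N h := by
  rw [← nm_add_pr, ← nm_add_pr, BAS_inf_add_sup]

theorem cop_add_pr {Q : Finset P} {g h : P →₀ ℕ} : Cop Q (g + h) ↔ Cop Q g ∧ Cop Q h := by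
  unfold Cop
  constructor
  · intro H
    refine ⟨fun p hp => ?_, fun p hp => ?_⟩
    · have := H p hp
      rw [Finsupp.add_apply] at this
      omega
    · have := H p hp
      rw [Finsupp.add_apply] at this
      omega
  · rintro ⟨H1, H2⟩ p hp
    rw [Finsupp.add_apply, H1 p hp, H2 p hp]

theorem BAS_one_le {N : P → ℕ} (hN : ∀ p, 2 ≤ N p) (g : P →₀ ℕ) : (1 : ℝ) ≤ nm N g := by
  exact_mod_cast nm_pos_pr hN g

theorem BAS_low {N : P → ℕ} (hN : ∀ p, 2 ≤ N p) {x : ℝ} {g : P →₀ ℕ}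
    (hg : (nm N g : ℝ) ≤ x) : (x ^ 2)⁻¹ ≤ (nm N g : ℝ) ^ (-(1 + (1 : ℝ))) := by
  have h1 := BAS_one_le hN g
  have hx : (0 : ℝ) < x := by linarith
  rw [Real.rpow_neg (by linarith)]
  have e : (nm N g : ℝ) ^ ((1 : ℝ) + 1) = (nm N g : ℝ) ^ 2 := by
    rw [← Real.rpow_natCast]
    norm_num
  rw [e]
  apply inv_anti₀ (by positivity)
  exact pow_le_pow_left₀ (by linarith) hg 2

theorem BAS_finite {N : P → ℕ} (hN : Good N) (x : ℝ) :
    {g : P →₀ ℕ | (nm N g : ℝ) ≤ x}.Finite := by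
  rcases lt_or_ge x 1 with hx | hx
  · have : {g : P →₀ ℕ | (nm N g : ℝ) ≤ x} = ∅ := by
      ext g
      simp only [Set.mem_ofPred_eq, Set.mem_empty_iff_false, iff_false, not_le]
      exact lt_of_lt_of_le hx (BAS_one_le hN.two_le g)
    rw [this]
    exact Set.finite_empty
  · have hs := (hN.summable 1 one_pos).tendsto_cofinite_zero
    have hpos : (0 : ℝ) < (x ^ 2)⁻¹ := by positivity
    have hev := hs.eventually (gt_mem_nhds hpos)
    rw [Filter.eventually_cofinite] at hev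
    refine hev.subset fun g hg => ?_
    simp only [Set.mem_ofPred_eq] at hg ⊢
    exact not_lt.2 (BAS_low hN.two_le hg)

theorem mem_ball_pr {N : P → ℕ} (hN : Good N) {x : ℝ} {g : P →₀ ℕ} :
    g ∈ ball N x ↔ (nm N g : ℝ) ≤ x := by
  unfold ball
  rw [dif_pos (BAS_finite hN x)]
  simp

theorem ball_card_pr {N : P → ℕ} (hN : Good N) : ∃ C : ℝ, 0 ≤ C ∧ ∀ x : ℝ, 1 ≤ x →
    ((ball N x).card : ℝ) ≤ C * x ^ 2 := by
  have hnn : ∀ g : P →₀ ℕ, 0 ≤ (nm N g : ℝ) ^ (-(1 + (1 : ℝ))) := fun g => by positivity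
  refine ⟨∑' g : P →₀ ℕ, (nm N g : ℝ) ^ (-(1 + (1 : ℝ))), tsum_nonneg hnn, fun x hx => ?_⟩
  have h1 : ((ball N x).card : ℝ) * (x ^ 2)⁻¹ ≤
      ∑ g ∈ ball N x, (nm N g : ℝ) ^ (-(1 + (1 : ℝ))) := by
    rw [← nsmul_eq_mul]
    exact Finset.card_nsmul_le_sum _ _ _ fun g hg => BAS_low hN.two_le ((mem_ball_pr hN).1 hg)
  have h2 : ∑ g ∈ ball N x, (nm N g : ℝ) ^ (-(1 + (1 : ℝ))) ≤
      ∑' g : P →₀ ℕ, (nm N g : ℝ) ^ (-(1 + (1 : ℝ))) :=
    (hN.summable 1 one_pos).sum_le_tsum _ fun g _ => hnn g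
  have hx2 : (0 : ℝ) < x ^ 2 := by positivity
  have h3 := h1.trans h2
  rw [← div_eq_mul_inv, div_le_iff₀ hx2] at h3
  exact h3

theorem summable_mono_pr {N : P → ℕ} (hN : Good N) {σ : ℝ} (hσ : 1 < σ) (f : (P →₀ ℕ) → ℂ)
    (B : ℝ) (hf : ∀ g, ‖f g‖ ≤ B * (nm N g : ℝ) ^ (-σ)) : Summable f := by
  have h := (hN.summable (σ - 1) (by linarith)).mul_left B
  refine Summable.of_norm_bounded h fun g => ?_
  have e : -(1 + (σ - 1)) = -σ := by ring
  rw [e]
  exact hf g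

end Pool.Agent.AS

namespace Pool.Agent.AS

theorem mul_app : type_of% @mul_app_pr := @mul_app_pr

theorem nm_zero : type_of% @nm_zero_pr := @nm_zero_pr

theorem nm_single : type_of% @nm_single_pr := @nm_single_pr

theorem nm_add : type_of% @nm_add_pr := @nm_add_pr

theorem nm_pos : type_of% @nm_pos_pr := @nm_pos_pr

theorem nm_le : type_of% @nm_le_pr := @nm_le_pr

theorem nm_eq_one : type_of% @nm_eq_one_pr := @nm_eq_one_pr

theorem nm_inf_sup : type_of% @nm_inf_sup_pr := @nm_inf_sup_pr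

theorem cop_add : type_of% @cop_add_pr := @cop_add_pr

theorem mem_ball : type_of% @mem_ball_pr := @mem_ball_pr

theorem ball_card : type_of% @ball_card_pr := @ball_card_pr

theorem summable_mono : type_of% @summable_mono_pr := @summable_mono_pr

end Pool.Agent.AS
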