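import Pool.Agent.Lib_helper24.AS.Defs

/-!
# Block ALPHA: the Dirichlet square root of the Moebius function (abstract semigroup)
-/

namespace Pool.Agent.AS

open Finset

theorem alpha_hc_zero : hc 0 = 1 := rfl

theorem alpha_hc_succ (k : ℕ) : hc (k + 1) = hc k * ((k : ℝ) - 1 / 2) / (k + 1) := rfl

theorem alpha_hc_one : hc 1 = -(1/2) := by
  have := alpha_hc_succ 0
  rw [alpha_hc_zero] at this
  norm_num at this ⊢
  exact this

/-- `-1/2 ≤ hc (k+1) ≤ 0` and `-1/8 ≤ hc (k+2)`. -/
theorem alpha_hc_bd (k : ℕ) : -(1/8) ≤ hc (k + 2) ∧ hc (k + 2) ≤ 0 := by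
  induction k with
  | zero =>
    rw [show 0 + 2 = 1 + 1 from rfl, alpha_hc_succ, alpha_hc_one]; norm_num
  | succ k ih =>
    rw [show k + 1 + 2 = (k + 2) + 1 from rfl, alpha_hc_succ]
    obtain ⟨h1, h2⟩ := ih
    have hk : (0:ℝ) ≤ k := Nat.cast_nonneg k
    have hd : (0:ℝ) < ((k + 2 : ℕ) : ℝ) + 1 := by positivity
    push_cast
    have hc0 : (0:ℝ) ≤ ((k:ℝ) + 2 - 1/2) / ((k:ℝ) + 2 + 1) := by
      apply div_nonneg <;> linarith
    have hc1 : ((k:ℝ) + 2 - 1/2) / ((k:ℝ) + 2 + 1) ≤ 1 := by
      rw [div_le_one (by linarith)]; linarith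
    rw [mul_div_assoc]
    constructor <;> nlinarith

theorem alpha_hc_nonpos (k : ℕ) : hc (k + 1) ≤ 0 := by
  cases k with
  | zero => rw [show 0 + 1 = 1 from rfl, alpha_hc_one]; norm_num
  | succ k => exact (alpha_hc_bd k).2

theorem alpha_hc_abs (k : ℕ) : |hc k| ≤ 1 := by
  match k with
  | 0 => rw [alpha_hc_zero]; norm_num
  | 1 => rw [alpha_hc_one]; norm_num [abs_of_neg]
  | (k + 2) =>
    have := alpha_hc_bd k
    rw [abs_le]; constructor <;> linarith [this.1, this.2]

theorem alpha_conv_rec (k : ℕ) :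
    ((k:ℝ) + 1) * ∑ p ∈ antidiagonal (k + 1), hc p.1 * hc p.2 =
      ((k:ℝ) - 1) * ∑ p ∈ antidiagonal k, hc p.1 * hc p.2 := by
  -- power series proof
  set f : PowerSeries ℝ := PowerSeries.mk hc with hf
  have h1 : (1 - PowerSeries.X) * PowerSeries.derivative ℝ f = -(1/2 : ℝ) • f := by
    ext n
    rw [sub_mul, one_mul, map_sub, PowerSeries.coeff_derivative, PowerSeries.coeff_smul]
    cases n with
    | zero =>
      simp [hf, alpha_hc_zero, alpha_hc_one]
    | succ n =>
      rw [PowerSeries.coeff_succ_X_mul, PowerSeries.coeff_derivative]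
      simp only [hf, PowerSeries.coeff_mk]
      rw [alpha_hc_succ (n+1)]
      push_cast
      have : (n:ℝ) + 1 + 1 ≠ 0 := by positivity
      field_simp
      simp only [smul_eq_mul]
      ring
  have h2 : (1 - PowerSeries.X) * PowerSeries.derivative ℝ (f * f) = - (f * f) := by
    rw [Derivation.leibniz]
    simp only [smul_eq_mul]
    have : (1 - PowerSeries.X) * (f * PowerSeries.derivative ℝ f + f * PowerSeries.derivative ℝ f)
      = 2 * f * ((1 - PowerSeries.X) * PowerSeries.derivative ℝ f) := by ring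
    rw [this, h1]
    rw [show (2 : PowerSeries ℝ) = (2:ℝ) • (1 : PowerSeries ℝ) by
      rw [← Algebra.algebraMap_eq_smul_one]
      exact (map_ofNat (algebraMap ℝ (PowerSeries ℝ)) 2).symm]
    simp only [smul_mul_assoc, one_mul, mul_smul_comm, smul_smul]
    norm_num
  have h3 := congrArg (PowerSeries.coeff k) h2
  rw [sub_mul, one_mul, map_sub, PowerSeries.coeff_derivative, map_neg] at h3
  have hc' : ∀ n, PowerSeries.coeff n (f * f) = ∑ p ∈ antidiagonal n, hc p.1 * hc p.2 := by
    intro n
    rw [PowerSeries.coeff_mul]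
    simp [hf]
  rw [hc', hc'] at h3
  cases k with
  | zero =>
    simp at h3 ⊢
    linarith
  | succ k =>
    rw [PowerSeries.coeff_succ_X_mul, PowerSeries.coeff_derivative, hc'] at h3
    push_cast at h3 ⊢
    linarith

theorem alpha_conv (k : ℕ) : ∑ p ∈ antidiagonal k, hc p.1 * hc p.2 =
    if k = 0 then 1 else if k = 1 then -1 else 0 := by
  match k with
  | 0 => simp [alpha_hc_zero]
  | 1 =>
    have := alpha_conv_rec 0
    simp [alpha_hc_zero] at this ⊢
    linarith
  | (k + 2) =>
    induction k with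
    | zero =>
      have := alpha_conv_rec 1
      simp at this ⊢
      linarith
    | succ k ih =>
      have h := alpha_conv_rec (k + 2)
      rw [ih] at h
      simp at ih h ⊢
      rcases h with h | h
      · exfalso
        have : (0:ℝ) ≤ k := Nat.cast_nonneg k
        linarith
      · exact h

theorem alpha_conv_abs' (k : ℕ) : ∑ p ∈ antidiagonal k, |hc p.1| * |hc p.2| ≤ 1 := by
  match k with
  | 0 => simp [alpha_hc_zero]
  | (k + 1) =>
    -- the terms with both indices positive have nonnegative product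
    have h1 : ∑ p ∈ antidiagonal (k + 1), |hc p.1| * |hc p.2| =
        ∑ p ∈ antidiagonal (k + 1), hc p.1 * hc p.2 - 4 * hc (k + 1) := by
      have h2 : ∑ p ∈ antidiagonal (k + 1), (|hc p.1| * |hc p.2| - hc p.1 * hc p.2) =
          - 4 * hc (k + 1) := by
        rw [Finset.Nat.sum_antidiagonal_eq_sum_range_succ_mk]
        rw [Finset.sum_range_succ, Finset.sum_range_succ']
        have h3 : ∀ i ∈ range k, (|hc (i + 1)| * |hc (k + 1 - (i + 1))| -
            hc (i + 1) * hc (k + 1 - (i + 1))) = 0 := by
          intro i hi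
          rw [mem_range] at hi
          obtain ⟨m, hm⟩ : ∃ m, k + 1 - (i + 1) = m + 1 := ⟨k - i - 1, by omega⟩
          rw [hm, abs_of_nonpos (alpha_hc_nonpos i), abs_of_nonpos (alpha_hc_nonpos m)]
          ring
        rw [Finset.sum_eq_zero h3]
        simp only [Nat.sub_zero, Nat.sub_self, alpha_hc_zero]
        rw [abs_of_nonpos (alpha_hc_nonpos k)]
        norm_num
        ring
      rw [Finset.sum_sub_distrib] at h2
      linarith
    rw [h1, alpha_conv]
    match k with
    | 0 =>
      norm_num [alpha_hc_one]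
    | (k + 1) =>
      have := (alpha_hc_bd k).1
      simp
      linarith

variable {P : Type}

theorem alpha_prod_single (f : ℕ → ℝ) (hf : f 0 = 1) (a : P) (i : ℕ) :
    (Finsupp.single a i).prod (fun _ k => f k) = f i :=
  Finsupp.prod_single_index hf

theorem alpha_prod_add (f : ℕ → ℝ) (hf : f 0 = 1) (a : P) (i : ℕ) (x : P →₀ ℕ)
    (hx : x a = 0) : (Finsupp.single a i + x).prod (fun _ k => f k) =
      f i * x.prod (fun _ k => f k) := by
  classical
  rw [Finsupp.prod_add_index_of_disjoint, alpha_prod_single f hf]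
  rw [Finset.disjoint_left]
  intro p hp
  have : p = a := by
    by_contra hne
    exact (Finsupp.mem_support_iff.mp hp) (Finsupp.single_eq_of_ne hne)
  subst this
  rw [Finsupp.notMem_support_iff]
  exact hx

/-- convolution of multiplicative functions -/
theorem alpha_conv_prod [DecidableEq P] (f h : ℕ → ℝ) (hf : f 0 = 1) (hh : h 0 = 1)
    (g : P →₀ ℕ) :
    ∑ p ∈ antidiagonal g, (p.1.prod fun _ k => f k) * (p.2.prod fun _ k => h k) =
      g.prod fun _ k => ∑ i ∈ antidiagonal k, f i.1 * h i.2 := by
  induction g using Finsupp.induction with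
  | zero => simp
  | single_add a b g' ha hb ih =>
    have ha0 : g' a = 0 := Finsupp.notMem_support_iff.mp ha
    have hsp : ((fun k => ∑ i ∈ antidiagonal k, f i.1 * h i.2) : ℕ → ℝ) 0 = 1 := by
      simp [hf, hh]
    rw [alpha_prod_add _ hsp a b g' ha0, ← ih, Finset.sum_mul_sum, ← Finset.sum_product']
    refine Finset.sum_nbij' (fun p => ((p.1 a, p.2 a), (p.1.erase a, p.2.erase a)))
      (fun q => (Finsupp.single a q.1.1 + q.2.1, Finsupp.single a q.1.2 + q.2.2)) ?_ ?_ ?_ ?_ ?_
    · intro p hp
      rw [HasAntidiagonal.mem_antidiagonal] at hp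
      rw [mem_product, HasAntidiagonal.mem_antidiagonal, HasAntidiagonal.mem_antidiagonal]
      constructor
      · have := DFunLike.congr_fun hp a
        simpa [ha0] using this
      · ext c
        have := DFunLike.congr_fun hp c
        by_cases hc : c = a
        · subst hc
          simp [ha0]
        · simp only [Finsupp.add_apply, Finsupp.erase_ne hc] at this ⊢
          rw [this, Finsupp.single_eq_of_ne hc, zero_add]
    · intro q hq
      rw [mem_product, HasAntidiagonal.mem_antidiagonal, HasAntidiagonal.mem_antidiagonal] at hq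
      rw [HasAntidiagonal.mem_antidiagonal]
      simp only
      rw [← hq.1, ← hq.2, Finsupp.single_add]
      abel
    · intro p _
      simp only
      refine Prod.ext ?_ ?_
      · exact Finsupp.single_add_erase a p.1
      · exact Finsupp.single_add_erase a p.2
    · intro q hq
      rw [mem_product, HasAntidiagonal.mem_antidiagonal, HasAntidiagonal.mem_antidiagonal] at hq
      have h0 : q.2.1 a + q.2.2 a = 0 := by
        have := DFunLike.congr_fun hq.2 a
        rwa [Finsupp.add_apply, ha0] at this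
      have h1 : q.2.1 a = 0 := by omega
      have h2 : q.2.2 a = 0 := by omega
      have e1 : ∀ (i : ℕ) (x : P →₀ ℕ), x a = 0 → (Finsupp.single a i + x).erase a = x := by
        intro i x hx
        ext c
        by_cases hc : c = a
        · subst hc; simp [hx]
        · rw [Finsupp.erase_ne hc, Finsupp.add_apply, Finsupp.single_eq_of_ne hc, zero_add]
      refine Prod.ext (Prod.ext ?_ ?_) (Prod.ext ?_ ?_)
      · simp [h1]
      · simp [h2]
      · exact e1 _ _ h1
      · exact e1 _ _ h2
    · intro p hp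
      rw [HasAntidiagonal.mem_antidiagonal] at hp
      have e1 : p.1.prod (fun _ k => f k) = f (p.1 a) * (p.1.erase a).prod (fun _ k => f k) := by
        conv_lhs => rw [← Finsupp.single_add_erase a p.1]
        exact alpha_prod_add f hf a _ _ (Finsupp.erase_same)
      have e2 : p.2.prod (fun _ k => h k) = h (p.2 a) * (p.2.erase a).prod (fun _ k => h k) := by
        conv_lhs => rw [← Finsupp.single_add_erase a p.2]
        exact alpha_prod_add h hh a _ _ (Finsupp.erase_same)
      rw [e1, e2]
      ring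

theorem al_zero_pr : (al : MvPowerSeries P ℝ) 0 = 1 := by
  change ((0 : P →₀ ℕ).prod fun _ k => hc k) = 1
  simp

theorem al_add_pr {g h : P →₀ ℕ} (hd : Disjoint g.support h.support) :
    al (g + h) = al g * al h := by
  classical
  exact Finsupp.prod_add_index_of_disjoint hd _

theorem alpha_mul_app [DecidableEq P] (f g : MvPowerSeries P ℝ) (n : P →₀ ℕ) :
    (f * g : MvPowerSeries P ℝ) n =
      ∑ p ∈ Finset.HasAntidiagonal.antidiagonal n, f p.1 * g p.2 := by
  have h := MvPowerSeries.coeff_mul n f g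
  exact h

theorem al_mul_al_pr : (al : MvPowerSeries P ℝ) * al = mu := by
  classical
  funext g
  rw [alpha_mul_app]
  have h := alpha_conv_prod hc hc alpha_hc_zero alpha_hc_zero g
  refine h.trans ?_
  change (g.prod fun _ k => _) = g.prod fun _ k => _
  refine Finset.prod_congr rfl fun p hp => ?_
  have h0 : g p ≠ 0 := Finsupp.mem_support_iff.mp hp
  simp only
  rw [alpha_conv, if_neg h0]

theorem one_mul_mu_pr : (one : MvPowerSeries P ℝ) * mu = 1 := by
  classical
  funext g
  rw [alpha_mul_app]
  have h := alpha_conv_prod (P := P) (fun _ => 1)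
    (fun k => if k = 0 then 1 else if k = 1 then -1 else 0) rfl rfl g
  have e1 : ∀ x : P →₀ ℕ, (one : MvPowerSeries P ℝ) x = x.prod fun _ _ => (1 : ℝ) := by
    intro x
    simp [one, Finsupp.prod]
  have e2 : ∀ x : P →₀ ℕ, (mu : MvPowerSeries P ℝ) x =
      x.prod fun _ k => if k = 0 then (1 : ℝ) else if k = 1 then -1 else 0 := by
    intro x
    refine Finset.prod_congr rfl fun p hp => ?_
    simp only
    rw [if_neg (Finsupp.mem_support_iff.mp hp)]
  simp only [e1, e2]
  refine h.trans ?_
  have hk : ∀ k : ℕ, k ≠ 0 → ∑ i ∈ antidiagonal k,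
      (1 : ℝ) * (if i.2 = 0 then 1 else if i.2 = 1 then -1 else 0) = 0 := by
    intro k hk
    obtain ⟨m, rfl⟩ := Nat.exists_eq_succ_of_ne_zero hk
    rw [Finset.Nat.sum_antidiagonal_eq_sum_range_succ_mk]
    simp only [one_mul]
    rw [← Finset.sum_range_reflect]
    rw [Finset.sum_range_succ', Finset.sum_range_succ']
    rw [Finset.sum_eq_zero]
    · simp
    · intro i hi
      rw [mem_range] at hi
      rw [if_neg, if_neg] <;> simp <;> omega
  by_cases hg : g = 0
  · subst hg
    simp only [Finsupp.prod_zero_index]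
    have := MvPowerSeries.coeff_one (R := ℝ) (σ := P) (n := 0)
    rw [if_pos rfl] at this
    exact this.symm
  · obtain ⟨p, hp⟩ := Finsupp.support_nonempty_iff.mpr hg
    have h1 : (1 : MvPowerSeries P ℝ) g = 0 := by
      have := MvPowerSeries.coeff_one (R := ℝ) (σ := P) (n := g)
      rw [if_neg hg] at this
      exact this
    rw [h1]
    exact Finset.prod_eq_zero hp (hk _ (Finsupp.mem_support_iff.mp hp))

theorem mu_abs_pr (g : P →₀ ℕ) : |(mu : MvPowerSeries P ℝ) g| ≤ 1 := by
  change |∏ p ∈ g.support, _| ≤ 1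
  rw [Finset.abs_prod]
  refine Finset.prod_le_one (fun _ _ => abs_nonneg _) fun p _ => ?_
  simp only
  split_ifs <;> norm_num

theorem alpha_abs_prod (x : P →₀ ℕ) : |(al : MvPowerSeries P ℝ) x| =
    x.prod fun _ k => |hc k| := Finset.abs_prod _ _

theorem al_conv_abs_pr [DecidableEq P] (g : P →₀ ℕ) :
    ∑ p ∈ Finset.HasAntidiagonal.antidiagonal g,
      |(al : MvPowerSeries P ℝ) p.1| * |(al : MvPowerSeries P ℝ) p.2| ≤ 1 := by
  simp only [alpha_abs_prod]
  rw [alpha_conv_prod (fun k => |hc k|) (fun k => |hc k|) (by simp [alpha_hc_zero])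
    (by simp [alpha_hc_zero]) g]
  refine Finset.prod_le_one (fun p _ => ?_) fun p _ => alpha_conv_abs' _
  exact Finset.sum_nonneg fun _ _ => mul_nonneg (abs_nonneg _) (abs_nonneg _)

theorem al_abs_pr (g : P →₀ ℕ) : |(al : MvPowerSeries P ℝ) g| ≤ 1 := by
  rw [alpha_abs_prod]
  exact Finset.prod_le_one (fun _ _ => abs_nonneg _) fun p _ => alpha_hc_abs _

end Pool.Agent.AS

namespace Pool.Agent.AS

theorem al_zero : type_of% @al_zero_pr := @al_zero_pr

theorem al_add : type_of% @al_add_pr := @al_add_pr

theorem al_mul_al : type_of% @al_mul_al_pr := @al_mul_al_pr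

theorem one_mul_mu : type_of% @one_mul_mu_pr := @one_mul_mu_pr

theorem mu_abs : type_of% @mu_abs_pr := @mu_abs_pr

theorem al_conv_abs : type_of% @al_conv_abs_pr := @al_conv_abs_pr

theorem al_abs : type_of% @al_abs_pr := @al_abs_pr

end Pool.Agent.AS
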