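import Pool.Agent.Lib_helper24.AS.Defs
import Pool.Agent.Lib_helper92.ASA.ALPHA
import Pool.Agent.Lib_helper92.ASA.BAS

/-! Block ZETA (K-Selberg, MP_77948b_nt): Dirichlet series over an arithmetic semigroup. -/

namespace Pool.Agent.AS

open Complex MeasureTheory Filter Topology

variable {P : Type}

/-- `(nm g)^{-w}`. -/
noncomputable def zeta_tm (N : P → ℕ) (w : ℂ) (g : P →₀ ℕ) : ℂ := (nm N g : ℂ) ^ (-w)

theorem zeta_tm_add (N : P → ℕ) (w : ℂ) (g h : P →₀ ℕ) :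
    zeta_tm N w (g + h) = zeta_tm N w g * zeta_tm N w h := by
  unfold zeta_tm
  rw [nm_add, Nat.cast_mul, Complex.natCast_mul_natCast_cpow]

theorem zeta_tm_zero (N : P → ℕ) (w : ℂ) : zeta_tm N w 0 = 1 := by
  unfold zeta_tm
  rw [nm_zero]
  simp

theorem zeta_tm_norm {N : P → ℕ} (hN : ∀ p, 2 ≤ N p) (w : ℂ) (g : P →₀ ℕ) :
    ‖zeta_tm N w g‖ = (nm N g : ℝ) ^ (-w.re) := by
  unfold zeta_tm
  rw [Complex.norm_natCast_cpow_of_pos (nm_pos hN g), Complex.neg_re]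

/-- the Dirichlet series of `f` -/
noncomputable def zeta_ser (N : P → ℕ) (f : MvPowerSeries P ℝ) (w : ℂ) : ℂ :=
  ∑' g : P →₀ ℕ, ((f g : ℝ) : ℂ) * zeta_tm N w g

theorem zeta_summable {N : P → ℕ} (hN : Good N) {w : ℂ} (hw : 1 < w.re)
    (f : MvPowerSeries P ℝ) (hf : ∀ g, |f g| ≤ 1) :
    Summable fun g : P →₀ ℕ => ‖((f g : ℝ) : ℂ) * zeta_tm N w g‖ := by
  have h1 := hN.summable (w.re - 1) (by linarith)
  rw [show -(1 + (w.re - 1)) = -w.re by ring] at h1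
  refine Summable.of_nonneg_of_le (fun g => norm_nonneg _) (fun g => ?_) h1
  rw [norm_mul, zeta_tm_norm hN.two_le, Complex.norm_real, Real.norm_eq_abs]
  exact mul_le_of_le_one_left (Real.rpow_nonneg (Nat.cast_nonneg _) _) (hf g)

theorem zeta_norm_le {N : P → ℕ} (hN : Good N) {w : ℂ} (hw : 1 < w.re)
    (f : MvPowerSeries P ℝ) (hf : ∀ g, |f g| ≤ 1) :
    ‖zeta_ser N f w‖ ≤ ∑' g : P →₀ ℕ, (nm N g : ℝ) ^ (-w.re) := by
  have h1 := hN.summable (w.re - 1) (by linarith)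
  rw [show -(1 + (w.re - 1)) = -w.re by ring] at h1
  refine (norm_tsum_le_tsum_norm (zeta_summable hN hw f hf)).trans ?_
  refine Summable.tsum_le_tsum (fun g => ?_) (zeta_summable hN hw f hf) h1
  rw [norm_mul, zeta_tm_norm hN.two_le, Complex.norm_real, Real.norm_eq_abs]
  exact mul_le_of_le_one_left (Real.rpow_nonneg (Nat.cast_nonneg _) _) (hf g)

/-- the Dirichlet series of a product -/
theorem zeta_mul {N : P → ℕ} (hN : Good N) {w : ℂ} (hw : 1 < w.re)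
    (f h : MvPowerSeries P ℝ) (hf : ∀ g, |f g| ≤ 1) (hh : ∀ g, |h g| ≤ 1) :
    zeta_ser N f w * zeta_ser N h w = zeta_ser N (f * h) w := by
  classical
  have sf := zeta_summable hN hw f hf
  have sh := zeta_summable hN hw h hh
  have hprod := summable_mul_of_summable_norm sf sh
  unfold zeta_ser
  rw [Summable.tsum_mul_tsum_eq_tsum_sum_antidiagonal sf.of_norm sh.of_norm hprod]
  refine tsum_congr fun g => ?_
  rw [mul_app]
  push_cast
  rw [Finset.sum_mul]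
  refine Finset.sum_congr rfl fun p hp => ?_
  have hg : p.1 + p.2 = g := Finset.HasAntidiagonal.mem_antidiagonal.mp hp
  rw [← hg, zeta_tm_add]
  ring

open scoped Classical in
theorem zeta_one_app (g : P →₀ ℕ) :
    (1 : MvPowerSeries P ℝ) g = if g = 0 then 1 else 0 := by
  have h := MvPowerSeries.coeff_one (R := ℝ) (n := g)
  exact h

theorem zeta_ser_one (N : P → ℕ) (w : ℂ) : zeta_ser N 1 w = 1 := by
  unfold zeta_ser
  rw [tsum_eq_single 0]
  · rw [zeta_one_app, if_pos rfl, zeta_tm_zero]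
    simp
  · intro g hg
    rw [zeta_one_app, if_neg hg]
    simp

theorem zeta_ser_zeta (N : P → ℕ) (w : ℂ) :
    zeta_ser N one w = ∑' g : P →₀ ℕ, (nm N g : ℂ) ^ (-w) := by
  unfold zeta_ser
  refine tsum_congr fun g => ?_
  simp [one, zeta_tm]

theorem zeta_mul_mu {N : P → ℕ} (hN : Good N) {w : ℂ} (hw : 1 < w.re) :
    zeta_ser N one w * zeta_ser N mu w = 1 := by
  rw [zeta_mul hN hw one mu (fun g => by simp [one]) mu_abs, one_mul_mu, zeta_ser_one]

theorem zeta_low_pr {N : P → ℕ} (hN : Good N) : ∃ C : ℝ, 0 < C ∧ ∀ η t : ℝ, 0 < η → η ≤ 3 →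
    1 ≤ C / η * ‖∑' g : P →₀ ℕ, (nm N g : ℂ) ^ (-(1 + η + t * I) : ℂ)‖ := by
  obtain ⟨C, hC⟩ := hN.upper
  refine ⟨max C 1, by positivity, fun η t hη hη3 => ?_⟩
  set w : ℂ := 1 + η + t * I with hw
  have hre : w.re = 1 + η := by simp [hw]
  have hw1 : 1 < w.re := by rw [hre]; linarith
  have h1 := zeta_mul_mu hN hw1
  have h2 := zeta_norm_le hN hw1 mu mu_abs
  rw [hre] at h2
  have h3 := hC η hη hη3
  have h4 : ‖zeta_ser N mu w‖ ≤ max C 1 / η :=
    (h2.trans h3).trans (div_le_div_of_nonneg_right (le_max_left _ _) hη.le)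
  have h5 := congrArg norm h1
  rw [norm_mul, norm_one, zeta_ser_zeta] at h5
  calc (1 : ℝ) = ‖∑' g : P →₀ ℕ, (nm N g : ℂ) ^ (-w)‖ * ‖zeta_ser N mu w‖ := h5.symm
    _ ≤ ‖∑' g : P →₀ ℕ, (nm N g : ℂ) ^ (-w)‖ * (max C 1 / η) :=
        mul_le_mul_of_nonneg_left h4 (norm_nonneg _)
    _ = _ := mul_comm _ _

end Pool.Agent.AS

namespace Pool.Agent.AS

theorem zeta_low : type_of% @zeta_low_pr := @zeta_low_pr

end Pool.Agent.AS
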