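import Pool.Agent.Lib_helper24.AS.Defs
import Pool.Agent.Lib_helper92.ASA.ALPHA
import Pool.Agent.Lib_helper92.ASA.BAS
import Pool.Agent.Lib_helper92.ASA.ZETA

/-! Block ASQ (K-Selberg, MP_77948b_nt). -/

namespace Pool.Agent.AS

open Complex MeasureTheory Filter Topology

variable {P : Type}

open scoped Classical in
/-- restriction to the elements coprime to `R` -/
noncomputable def asq_r (R : Finset P) (f : MvPowerSeries P ℝ) : MvPowerSeries P ℝ :=
  fun g => if Cop R g then f g else 0

theorem asq_r_abs (R : Finset P) (f : MvPowerSeries P ℝ) (hf : ∀ g, |f g| ≤ 1) (g : P →₀ ℕ) :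
    |asq_r R f g| ≤ 1 := by
  unfold asq_r
  split_ifs
  · exact hf g
  · simp

theorem asq_conv (R : Finset P) :
    asq_r R (al : MvPowerSeries P ℝ) * asq_r R al = asq_r R mu := by
  classical
  funext g
  have h1 := congrFun (al_mul_al (P := P)) g
  rw [mul_app] at h1 ⊢
  unfold asq_r
  by_cases hg : Cop R g
  · rw [if_pos hg, ← h1]
    refine Finset.sum_congr rfl fun p hp => ?_
    have hp' : p.1 + p.2 = g := Finset.HasAntidiagonal.mem_antidiagonal.mp hp
    rw [← hp', cop_add] at hg
    rw [if_pos hg.1, if_pos hg.2]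
  · rw [if_neg hg]
    refine Finset.sum_eq_zero fun p hp => ?_
    have hp' : p.1 + p.2 = g := Finset.HasAntidiagonal.mem_antidiagonal.mp hp
    rw [← hp', cop_add, not_and_or] at hg
    rcases hg with h | h
    · rw [if_neg h, zero_mul]
    · rw [if_neg h, mul_zero]

/-- the power series `1 - X_p` -/
noncomputable def asq_e (p : P) : MvPowerSeries P ℝ :=
  1 - MvPowerSeries.monomial (Finsupp.single p 1) (1 : ℝ)

open scoped Classical in
theorem asq_e_app (p : P) (g : P →₀ ℕ) :
    asq_e p g = (if g = 0 then 1 else 0) - (if g = Finsupp.single p 1 then 1 else 0) := by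
  have h1 := zeta_one_app (P := P) g
  have h2 := MvPowerSeries.coeff_monomial (R := ℝ) g (Finsupp.single p 1) (1 : ℝ)
  have h3 : asq_e p g = (1 : MvPowerSeries P ℝ) g -
    (MvPowerSeries.monomial (Finsupp.single p 1) (1 : ℝ)) g := rfl
  rw [h3, h1]
  congr 1

theorem asq_e_abs (p : P) (g : P →₀ ℕ) : |asq_e p g| ≤ 1 := by
  classical
  rw [asq_e_app]
  by_cases h : g = 0
  · have h2 : g ≠ Finsupp.single p 1 := by
      rw [h]
      intro h3
      have := congrArg (fun f : P →₀ ℕ => f p) h3
      simp at this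
    rw [if_pos h, if_neg h2]
    simp
  · rw [if_neg h]
    split_ifs
    · simp
    · simp

theorem asq_e_ser (N : P → ℕ) (p : P) (w : ℂ) :
    zeta_ser N (asq_e p) w = 1 - (N p : ℂ) ^ (-w) := by
  classical
  have h1 : HasSum (fun g : P →₀ ℕ => if g = 0 then (1 : ℂ) else 0) 1 := hasSum_ite_eq 0 1
  have h2 : HasSum (fun g : P →₀ ℕ => if g = Finsupp.single p 1 then ((N p : ℂ) ^ (-w)) else 0)
      ((N p : ℂ) ^ (-w)) := hasSum_ite_eq _ _
  have h3 := (h1.sub h2).tsum_eq
  rw [← h3]
  unfold zeta_ser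
  refine tsum_congr fun g => ?_
  rw [asq_e_app]
  have h4 : g = 0 → zeta_tm N w g = 1 := fun h => by rw [h, zeta_tm_zero]
  have h5 : g = Finsupp.single p 1 → zeta_tm N w g = (N p : ℂ) ^ (-w) := fun h => by
    rw [h]
    unfold zeta_tm
    rw [nm_single, pow_one]
  push_cast
  rw [sub_mul]
  congr 1
  · by_cases h : g = 0
    · rw [if_pos h, if_pos h, h4 h]; simp
    · rw [if_neg h, if_neg h]; simp
  · by_cases h : g = Finsupp.single p 1
    · rw [if_pos h, if_pos h, h5 h]; simp
    · rw [if_neg h, if_neg h]; simp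

theorem asq_mu_two {p : P} {g : P →₀ ℕ} (h : 2 ≤ g p) : (mu : MvPowerSeries P ℝ) g = 0 := by
  unfold mu Finsupp.prod
  apply Finset.prod_eq_zero (i := p)
  · rw [Finsupp.mem_support_iff]; omega
  · show (if g p = 1 then (-1 : ℝ) else 0) = 0
    rw [if_neg (by omega)]

theorem asq_mu_add {p : P} {h : P →₀ ℕ} (hp : h p = 0) :
    (mu : MvPowerSeries P ℝ) (h + Finsupp.single p 1) = -(mu : MvPowerSeries P ℝ) h := by
  classical
  have hsup : (Finsupp.single p 1 : P →₀ ℕ).support = {p} :=
    Finsupp.support_single p one_ne_zero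
  unfold mu
  rw [Finsupp.prod_add_index_of_disjoint]
  · have h1 : ((Finsupp.single p 1 : P →₀ ℕ).prod fun _ k => if k = 1 then (-1 : ℝ) else 0) = -1 := by
      unfold Finsupp.prod
      rw [hsup, Finset.prod_singleton, Finsupp.single_eq_same]
      simp
    rw [h1, mul_neg, mul_one]
  · rw [hsup, Finset.disjoint_singleton_right, Finsupp.notMem_support_iff]
    exact hp

theorem asq_step (R : Finset P) [DecidableEq P] (p : P) (hp : p ∉ R) :
    asq_r (insert p R) mu * asq_e p = asq_r R mu := by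
  classical
  funext g
  have h1 : (asq_r (insert p R) mu * asq_e p) g = asq_r (insert p R) mu g -
      (if Finsupp.single p 1 ≤ g then asq_r (insert p R) mu (g - Finsupp.single p 1) else 0) := by
    have h2 : asq_r (insert p R) mu * asq_e p = asq_r (insert p R) mu -
      asq_r (insert p R) mu * MvPowerSeries.monomial (Finsupp.single p 1) (1 : ℝ) := by
      unfold asq_e
      rw [mul_sub, mul_one]
    have h3 := MvPowerSeries.coeff_mul_monomial (R := ℝ) g (Finsupp.single p 1)
      (asq_r (insert p R) mu) (1 : ℝ)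
    rw [mul_one] at h3
    rw [h2]
    have h4 : (asq_r (insert p R) mu -
      asq_r (insert p R) mu * MvPowerSeries.monomial (Finsupp.single p 1) (1 : ℝ)) g =
      asq_r (insert p R) mu g -
      (asq_r (insert p R) mu * MvPowerSeries.monomial (Finsupp.single p 1) (1 : ℝ)) g := rfl
    rw [h4]
    congr 1
  rw [h1]
  have hcop : ∀ g : P →₀ ℕ, Cop (insert p R) g ↔ g p = 0 ∧ Cop R g := by
    intro g
    unfold Cop
    simp
  have hle : Finsupp.single p 1 ≤ g ↔ 1 ≤ g p := by
    rw [Finsupp.single_le_iff]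
  rcases Nat.lt_or_ge (g p) 1 with h0 | h0
  · -- g p = 0
    have h0' : g p = 0 := by omega
    rw [if_neg (by rw [hle]; omega), sub_zero]
    unfold asq_r
    by_cases hc : Cop R g
    · rw [if_pos hc, if_pos ((hcop g).mpr ⟨h0', hc⟩)]
    · rw [if_neg hc, if_neg (fun h => hc ((hcop g).mp h).2)]
  · rw [if_pos (hle.mpr h0)]
    have h5 : ¬ Cop (insert p R) g := fun h => by
      have := ((hcop g).mp h).1
      omega
    have h6 : asq_r (insert p R) mu g = 0 := by
      unfold asq_r
      rw [if_neg h5]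
    rw [h6, zero_sub]
    set h : P →₀ ℕ := g - Finsupp.single p 1 with hh
    have hg : g = h + Finsupp.single p 1 := (tsub_add_cancel_of_le (hle.mpr h0)).symm
    have hhp : h p = g p - 1 := by
      rw [hh, Finsupp.tsub_apply, Finsupp.single_eq_same]
    have hcopR : Cop R g ↔ Cop R h := by
      rw [hg, cop_add]
      constructor
      · exact fun h => h.1
      · intro h'
        refine ⟨h', fun r hr => ?_⟩
        rw [Finsupp.single_apply, if_neg]
        rintro rfl
        exact hp hr
    rcases Nat.lt_or_ge (g p) 2 with h2 | h2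
    · have hhp0 : h p = 0 := by omega
      unfold asq_r
      by_cases hc : Cop R h
      · rw [if_pos ((hcop h).mpr ⟨hhp0, hc⟩), if_pos (hcopR.mpr hc), hg, asq_mu_add hhp0]
      · rw [if_neg (fun h' => hc ((hcop h).mp h').2), if_neg (fun h' => hc (hcopR.mp h'))]
        simp
    · have h7 : ¬ Cop (insert p R) h := fun h' => by
        have := ((hcop h).mp h').1
        omega
      unfold asq_r
      rw [if_neg h7, asq_mu_two h2]
      simp

theorem asq_prod {N : P → ℕ} (hN : Good N) {w : ℂ} (hw : 1 < w.re) (R : Finset P) :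
    zeta_ser N (asq_r R mu) w * ∏ p ∈ R, (1 - (N p : ℂ) ^ (-w)) = zeta_ser N mu w := by
  classical
  induction R using Finset.induction_on with
  | empty =>
    rw [Finset.prod_empty, mul_one]
    congr 1
    funext g
    unfold asq_r
    rw [if_pos]
    intro p hp
    simp at hp
  | insert p R hp ih =>
    rw [Finset.prod_insert hp, ← mul_assoc, ← asq_e_ser,
      zeta_mul hN hw _ _ (asq_r_abs _ _ mu_abs) (asq_e_abs p), asq_step R p hp, ih]

open scoped Classical in
theorem asq_pr {N : P → ℕ} (hN : Good N) (R : Finset P) {η : ℝ} (hη : 0 < η) (t : ℝ) :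
    Summable (fun g : P →₀ ℕ => if Cop R g then
      ((al g : ℝ) : ℂ) * (nm N g : ℂ) ^ (-(1 + η + t * I) : ℂ) else 0) ∧
    ‖∑' g : P →₀ ℕ, (if Cop R g then
      ((al g : ℝ) : ℂ) * (nm N g : ℂ) ^ (-(1 + η + t * I) : ℂ) else 0)‖ ^ 2 *
      ‖∑' g : P →₀ ℕ, (nm N g : ℂ) ^ (-(1 + η + t * I) : ℂ)‖ ≤ (ph N R)⁻¹ := by
  set w : ℂ := 1 + η + t * I with hw
  have hre : w.re = 1 + η := by simp [hw]
  have hw1 : 1 < w.re := by rw [hre]; linarith
  have hfun : (fun g : P →₀ ℕ => if Cop R g then
      ((al g : ℝ) : ℂ) * (nm N g : ℂ) ^ (-w) else 0) =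
      fun g : P →₀ ℕ => ((asq_r R al g : ℝ) : ℂ) * zeta_tm N w g := by
    funext g
    unfold asq_r zeta_tm
    split_ifs
    · rfl
    · simp
  have habs := asq_r_abs R al al_abs
  refine ⟨?_, ?_⟩
  · rw [hfun]
    exact (zeta_summable hN hw1 _ habs).of_norm
  · rw [hfun]
    change ‖zeta_ser N (asq_r R al) w‖ ^ 2 * _ ≤ _
    rw [← zeta_ser_zeta]
    have h1 : zeta_ser N (asq_r R al) w * zeta_ser N (asq_r R al) w = zeta_ser N (asq_r R mu) w := by
      rw [zeta_mul hN hw1 _ _ habs habs, asq_conv]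
    have h2 := asq_prod hN hw1 R
    have h3 := zeta_mul_mu hN hw1
    rw [← h2, ← h1] at h3
    set A := zeta_ser N (asq_r R al) w with hA
    set D := ∏ p ∈ R, (1 - (N p : ℂ) ^ (-w)) with hD
    have h4 : ‖A‖ ^ 2 * ‖zeta_ser N one w‖ * ‖D‖ = 1 := by
      have := congrArg norm h3
      rw [norm_mul, norm_mul, norm_mul, norm_one] at this
      rw [← this]
      ring
    have h5 : ph N R ≤ ‖D‖ := by
      unfold ph
      rw [hD, norm_prod]
      refine Finset.prod_le_prod (fun p hp => ?_) (fun p hp => ?_)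
      · have hp1 : (1 : ℝ) ≤ N p := by exact_mod_cast (le_trans (by norm_num) (hN.two_le p))
        rw [sub_nonneg]
        exact inv_le_one_of_one_le₀ hp1
      · have hp1 : (1 : ℝ) ≤ N p := by exact_mod_cast (le_trans (by norm_num) (hN.two_le p))
        have hp0 : 0 < N p := lt_of_lt_of_le (by norm_num) (hN.two_le p)
        have h6 : ‖(N p : ℂ) ^ (-w)‖ ≤ (N p : ℝ)⁻¹ := by
          rw [Complex.norm_natCast_cpow_of_pos hp0, Complex.neg_re, ← Real.rpow_neg_one]
          exact Real.rpow_le_rpow_of_exponent_le hp1 (by linarith)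
        have h7 : 1 - ‖(N p : ℂ) ^ (-w)‖ ≤ ‖1 - (N p : ℂ) ^ (-w)‖ := by
          have := norm_sub_norm_le (1 : ℂ) ((N p : ℂ) ^ (-w))
          rwa [norm_one] at this
        linarith
    have hph : 0 < ph N R := by
      unfold ph
      refine Finset.prod_pos fun p _ => ?_
      have hp1 : (1 : ℝ) < N p := by exact_mod_cast (lt_of_lt_of_le (by norm_num) (hN.two_le p))
      rw [sub_pos]
      exact inv_lt_one_of_one_lt₀ hp1
    rw [← one_div, le_div_iff₀ hph, ← h4]
    exact mul_le_mul_of_nonneg_left h5 (by positivity)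

end Pool.Agent.AS

namespace Pool.Agent.AS

theorem asq : type_of% @asq_pr := @asq_pr

end Pool.Agent.AS
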