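import Pool.Agent.Lib_helper24.AS.Defs
import Pool.Agent.Lib_helper92.ASA.ALPHA
import Pool.Agent.Lib_helper92.ASA.ASQ
import Pool.Agent.Lib_helper92.ASA.BAS
import Pool.Agent.Lib_helper92.ASA.PERRON
import Pool.Agent.Lib_helper92.ASA.ZETA

/-! Block ABOUND (K-Selberg, MP_77948b_nt). -/

namespace Pool.Agent.AS

open Complex MeasureTheory Filter Topology

variable {P : Type}

lemma abound_normsq (σ t : ℝ) : ‖(σ : ℂ) + t * I‖ ^ 2 = σ ^ 2 + t ^ 2 := by
  rw [← Complex.normSq_eq_norm_sq, Complex.normSq_add_mul_I]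

lemma abound_base {σ : ℝ} (hσ : 0 < σ) : Integrable (fun t : ℝ => (σ ^ 2 + t ^ 2)⁻¹) := by
  have h1 := (integrable_inv_one_add_sq).comp_div hσ.ne'
  have h2 := h1.const_mul ((σ ^ 2)⁻¹)
  refine h2.congr (Eventually.of_forall fun t => ?_)
  simp only
  rw [← mul_inv]
  congr 1
  field_simp

lemma abound_ne {σ : ℝ} (hσ : 0 < σ) (t : ℝ) : ((σ : ℂ) + t * I) ≠ 0 := by
  intro h
  have := congrArg Complex.re h
  simp at this
  exact hσ.ne' this

/-- the constant `∫ (1+t²)^{-3/4}` -/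
noncomputable def aboundK : ℝ := ∫ t : ℝ, (1 + t ^ 2) ^ (-(3 / 4) : ℝ)

lemma abound_K_int : Integrable (fun t : ℝ => (1 + t ^ 2) ^ (-(3 / 4) : ℝ)) := by
  have h := integrable_rpow_neg_one_add_norm_sq (E := ℝ) (μ := volume) (r := 3 / 2)
    (by simp; norm_num)
  refine h.congr (Eventually.of_forall fun t => ?_)
  simp only [Real.norm_eq_abs, sq_abs]
  norm_num

lemma abound_K_nonneg : 0 ≤ aboundK := integral_nonneg fun t => by positivity

lemma abound_scale {σ : ℝ} (hσ : 0 < σ) :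
    Integrable (fun t : ℝ => (σ ^ 2 + t ^ 2) ^ (-(3 / 4) : ℝ)) ∧
      ∫ t : ℝ, (σ ^ 2 + t ^ 2) ^ (-(3 / 4) : ℝ) = (√σ)⁻¹ * aboundK := by
  have e : ∀ t : ℝ, (σ ^ 2 + t ^ 2) ^ (-(3 / 4) : ℝ) =
      (σ ^ 2) ^ (-(3 / 4) : ℝ) * (1 + (t / σ) ^ 2) ^ (-(3 / 4) : ℝ) := by
    intro t
    rw [← Real.mul_rpow (by positivity) (by positivity)]
    congr 1
    field_simp
  constructor
  · simp_rw [e]
    exact ((abound_K_int).comp_div hσ.ne').const_mul _
  · simp_rw [e]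
    rw [integral_const_mul]
    have h := MeasureTheory.Measure.integral_comp_div
      (fun t : ℝ => (1 + t ^ 2) ^ (-(3 / 4) : ℝ)) σ
    rw [h, abs_of_pos hσ, smul_eq_mul, ← mul_assoc]
    congr 1
    rw [← Real.rpow_natCast σ 2, ← Real.rpow_mul hσ.le]
    nth_rewrite 2 [← Real.rpow_one σ]
    rw [← Real.rpow_add hσ, Real.sqrt_eq_rpow, ← Real.rpow_neg hσ.le]
    norm_num

open scoped Classical in
/-- the coefficients -/
noncomputable def aba (R : Finset P) : (P →₀ ℕ) → ℂ :=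
  fun g => if Cop R g then ((al g : ℝ) : ℂ) else 0

lemma abound_abs (R : Finset P) (g : P →₀ ℕ) : ‖aba R g‖ ≤ 1 := by
  unfold aba
  split_ifs with h
  · rw [Complex.norm_real]
    exact al_abs g
  · simp

/-- the Dirichlet series -/
noncomputable def abS (N : P → ℕ) (R : Finset P) (w : ℂ) : ℂ :=
  ∑' g : P →₀ ℕ, aba R g * (nm N g : ℂ) ^ (-w)

/-- the integrand of the `g`-th term -/
noncomputable def abF (N : P → ℕ) (R : Finset P) (s x σ : ℝ) (g : P →₀ ℕ) (t : ℝ) : ℂ :=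
  aba R g * (nm N g : ℂ) ^ (-1 - s : ℂ) *
    (((x / nm N g : ℝ) : ℂ) ^ ((σ : ℂ) + t * I) / ((σ : ℂ) + t * I) ^ 2)

lemma abound_F_int {N : P → ℕ} (hN : ∀ p, 2 ≤ N p) {R : Finset P} {s x σ : ℝ} (hx : 0 < x)
    (hσ : 0 < σ) (g : P →₀ ℕ) :
    Integrable (abF N R s x σ g) ∧ ∫ t : ℝ, abF N R s x σ g t =
      aba R g * (nm N g : ℂ) ^ (-1 - s : ℂ) *
        (2 * Real.pi * (max 0 (Real.log (x / nm N g)) : ℝ)) := by
  have hn' : (0 : ℝ) < nm N g := by exact_mod_cast nm_pos hN g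
  have h := perron (σ := σ) (y := x / nm N g) hσ (div_pos hx hn')
  unfold abF
  refine ⟨h.1.const_mul _, ?_⟩
  rw [integral_const_mul, h.2]

lemma abound_F_norm {N : P → ℕ} (hN : ∀ p, 2 ≤ N p) {R : Finset P} {s x σ : ℝ} (hx : 0 < x)
    (hσ : 0 < σ) (g : P →₀ ℕ) (t : ℝ) :
    ‖abF N R s x σ g t‖ ≤
      (x ^ σ * (nm N g : ℝ) ^ (-(1 + (s + σ)))) * (σ ^ 2 + t ^ 2)⁻¹ := by
  have hn := nm_pos hN g
  have hn' : (0 : ℝ) < nm N g := by exact_mod_cast hn
  unfold abF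
  rw [norm_mul, norm_mul, norm_div, norm_pow, abound_normsq,
    Complex.norm_cpow_eq_rpow_re_of_pos (div_pos hx hn')]
  have e1 : ‖(nm N g : ℂ) ^ (-1 - s : ℂ)‖ = (nm N g : ℝ) ^ (-1 - s) := by
    rw [Complex.norm_natCast_cpow_of_pos hn]
    simp
  have e2 : ((σ : ℂ) + t * I).re = σ := by simp
  rw [e1, e2, Real.div_rpow hx.le hn'.le]
  have e3 : (nm N g : ℝ) ^ (-(1 + (s + σ))) = (nm N g : ℝ) ^ (-1 - s) / (nm N g : ℝ) ^ σ := by
    rw [← Real.rpow_sub hn']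
    congr 1
    ring
  rw [e3]
  calc _ ≤ 1 * (nm N g : ℝ) ^ (-1 - s) * (x ^ σ / (nm N g : ℝ) ^ σ / (σ ^ 2 + t ^ 2)) := by
        gcongr
        exact abound_abs R g
    _ = _ := by
        field_simp

lemma abound_rep {N : P → ℕ} (hN : Good N) {R : Finset P} {s x σ : ℝ} (hx : 1 ≤ x) (hs : 0 ≤ s)
    (hσ : 0 < σ) :
    (2 * Real.pi * (AA N R s x : ℂ) : ℂ) = ∫ t : ℝ, (x : ℂ) ^ ((σ : ℂ) + t * I) *
      abS N R (1 + (s + σ : ℝ) + t * I) / ((σ : ℂ) + t * I) ^ 2 := by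
  classical
  have hx0 : 0 < x := by linarith
  have hsum : Summable (fun g : P →₀ ℕ => (nm N g : ℝ) ^ (-(1 + (s + σ)))) :=
    hN.summable (s + σ) (by linarith)
  have hint := fun g => (abound_F_int hN.two_le (R := R) (s := s) (x := x) (σ := σ) hx0 hσ g).1
  have hH : HasSum (fun g => ∫ t, abF N R s x σ g t) (∫ t, ∑' g, abF N R s x σ g t) := by
    have hcount : Countable (P →₀ ℕ) := by
      have h1 := hsum.countable_support
      have h2 : (Function.support fun g : P →₀ ℕ => (nm N g : ℝ) ^ (-(1 + (s + σ)))) = Set.univ := by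
        ext g
        simp only [Function.mem_support, Set.mem_univ, iff_true]
        have hn' : (0 : ℝ) < nm N g := by exact_mod_cast nm_pos hN.two_le g
        exact (Real.rpow_pos_of_pos hn' _).ne'
      rw [h2] at h1
      exact Set.countable_univ_iff.mp h1
    refine hasSum_integral_of_summable_integral_norm hint ?_
    refine Summable.of_nonneg_of_le (fun g => integral_nonneg fun t => norm_nonneg _)
      (fun g => ?_) ((hsum.mul_left (x ^ σ)).mul_right (∫ t : ℝ, (σ ^ 2 + t ^ 2)⁻¹))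
    rw [← integral_const_mul]
    exact integral_mono (hint g).norm ((abound_base hσ).const_mul _)
      (fun t => abound_F_norm hN.two_le hx0 hσ g t)
  have e1 : ∀ t : ℝ, ∑' g, abF N R s x σ g t = (x : ℂ) ^ ((σ : ℂ) + t * I) *
      abS N R (1 + (s + σ : ℝ) + t * I) / ((σ : ℂ) + t * I) ^ 2 := by
    intro t
    rw [mul_div_right_comm, abS, ← tsum_mul_left]
    refine tsum_congr fun g => ?_
    have hn := nm_pos hN.two_le g
    have hn' : (0 : ℝ) < nm N g := by exact_mod_cast hn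
    have hnc : (nm N g : ℂ) ≠ 0 := by exact_mod_cast hn.ne'
    rw [abF]
    have e2 : (((x / nm N g : ℝ) : ℂ)) ^ ((σ : ℂ) + t * I) =
        (x : ℂ) ^ ((σ : ℂ) + t * I) / (nm N g : ℂ) ^ ((σ : ℂ) + t * I) := by
      have hxn : (0 : ℝ) < x / nm N g := div_pos hx0 hn'
      rw [Complex.cpow_def_of_ne_zero (by exact_mod_cast hxn.ne'),
        Complex.cpow_def_of_ne_zero (by exact_mod_cast hx0.ne'),
        Complex.cpow_def_of_ne_zero hnc, ← Complex.exp_sub, ← Complex.ofReal_log hxn.le,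
        ← Complex.ofReal_log hx0.le, ← Complex.natCast_log,
        Real.log_div hx0.ne' hn'.ne']
      congr 1
      push_cast
      ring
    have e3 : (nm N g : ℂ) ^ (-(1 + ((s + σ : ℝ) : ℂ) + t * I)) =
        (nm N g : ℂ) ^ (-1 - s : ℂ) / (nm N g : ℂ) ^ ((σ : ℂ) + t * I) := by
      rw [← Complex.cpow_sub _ _ hnc]
      congr 1
      push_cast
      ring
    rw [e2, e3]
    ring
  simp_rw [e1] at hH
  rw [← hH.tsum_eq]
  have e4 : ∀ g : P →₀ ℕ, g ∉ ball N x → ∫ t : ℝ, abF N R s x σ g t = 0 := by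
    intro g hg
    rw [(abound_F_int hN.two_le hx0 hσ g).2]
    rw [mem_ball hN, not_le] at hg
    have hn3 : (0 : ℝ) < nm N g := hx0.trans hg
    have : Real.log (x / nm N g) ≤ 0 :=
      Real.log_nonpos (by positivity) ((div_le_one hn3).2 hg.le)
    rw [max_eq_left this]
    simp
  rw [tsum_eq_sum e4]
  unfold AA
  push_cast
  rw [Finset.mul_sum, Finset.sum_filter]
  refine Finset.sum_congr rfl fun g hg => ?_
  rw [(abound_F_int hN.two_le hx0 hσ g).2]
  unfold aba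
  split_ifs with hc
  · have hn' : (0 : ℝ) < nm N g := by exact_mod_cast nm_pos hN.two_le g
    have hnx : (nm N g : ℝ) ≤ x := (mem_ball hN).mp hg
    have hlog : 0 ≤ Real.log (x / nm N g) := Real.log_nonneg ((one_le_div hn').2 hnx)
    rw [max_eq_right hlog]
    have e5 : (((nm N g : ℝ) ^ (-1 - s) : ℝ) : ℂ) = (nm N g : ℂ) ^ (-1 - s : ℂ) := by
      rw [Complex.ofReal_cpow hn'.le]
      push_cast
      rfl
    rw [← e5]
    ring
  · simp

lemma abound_ph {N : P → ℕ} (hN : ∀ p, 2 ≤ N p) (R : Finset P) : 0 < ph N R := by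
  unfold ph
  refine Finset.prod_pos fun p _ => ?_
  have hp1 : (1 : ℝ) < N p := by exact_mod_cast (lt_of_lt_of_le (by norm_num) (hN p))
  rw [sub_pos]
  exact inv_lt_one_of_one_lt₀ hp1

theorem AA_le_pr {N : P → ℕ} (hN : Good N) : ∃ C : ℝ, 0 ≤ C ∧ ∀ R : Finset P, ∀ s x : ℝ, 1 ≤ x →
    0 ≤ s → s ≤ 2 / (1 + Real.log x) →
      |AA N R s x| ≤ C * √(1 + Real.log x) * √((ph N R)⁻¹) := by
  classical
  obtain ⟨C, t₁, hC, ht₁, hz⟩ := hN.lower
  obtain ⟨C', hC', hz'⟩ := zeta_low hN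
  set D : ℝ := 1 + 1 / t₁ ^ 2 with hD
  have hD0 : 0 < D := by positivity
  refine ⟨Real.exp 1 * (√(3 * C) * aboundK + √C' * (D * Real.pi)) / (2 * Real.pi), ?_, ?_⟩
  · have := abound_K_nonneg
    positivity
  intro R s x hx hs hsx
  have hlog : 0 ≤ Real.log x := Real.log_nonneg hx
  have hx0 : 0 < x := by linarith
  set σ : ℝ := 1 / (1 + Real.log x) with hσdef
  have hσ : 0 < σ := by positivity
  have hσ1 : σ ≤ 1 := by
    rw [hσdef, div_le_one (by positivity)]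
    linarith
  have hs2 : s ≤ 2 * σ := by
    rw [hσdef]
    convert hsx using 1
    ring
  set M : ℝ := √((ph N R)⁻¹) with hM
  have hM0 : 0 ≤ M := Real.sqrt_nonneg _
  have hφ : 0 < ph N R := abound_ph hN.two_le R
  have hM2 : M ^ 2 = (ph N R)⁻¹ := Real.sq_sqrt (by positivity)
  set η : ℝ := s + σ with hη
  have hη0 : 0 < η := by positivity
  have hη3 : η ≤ 3 * σ := by linarith
  set Z : ℝ → ℝ := fun t => ‖∑' g : P →₀ ℕ, (nm N g : ℂ) ^ (-(1 + η + t * I) : ℂ)‖ with hZ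
  -- bound for the series
  have hA : ∀ t : ℝ, ‖abS N R (1 + (η : ℝ) + t * I)‖ ^ 2 * Z t ≤ M ^ 2 := by
    intro t
    rw [hM2]
    have h1 := (asq hN R hη0 t).2
    refine le_trans (le_of_eq ?_) h1
    congr 3
    unfold abS aba
    refine tsum_congr fun g => ?_
    split_ifs
    · rfl
    · simp
  have hAlow : ∀ t : ℝ, |t| ≤ t₁ → ‖abS N R (1 + (η : ℝ) + t * I)‖ ≤
      √(3 * C) * √‖(σ : ℂ) + t * I‖ * M := by
    intro t ht
    have h1 : 1 ≤ C * ‖(η : ℂ) + t * I‖ * Z t := hz η t hη0 (by linarith) ht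
    have h2 := hA t
    have h3 : ‖(η : ℂ) + t * I‖ ≤ 3 * ‖(σ : ℂ) + t * I‖ := by
      refine abs_le_of_sq_le_sq' ?_ (by positivity) |>.2
      rw [mul_pow, abound_normsq, abound_normsq]
      nlinarith [sq_nonneg t, sq_nonneg σ, sq_nonneg η]
    set a := ‖abS N R (1 + (η : ℝ) + t * I)‖ with ha
    set z := Z t with hzz
    have ha0 : 0 ≤ a := norm_nonneg _
    have hz0 : 0 ≤ z := norm_nonneg _
    have h4 : a ^ 2 ≤ (√(3 * C) * √‖(σ : ℂ) + t * I‖ * M) ^ 2 := by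
      rw [mul_pow, mul_pow, Real.sq_sqrt (by positivity), Real.sq_sqrt (norm_nonneg _)]
      calc a ^ 2 = a ^ 2 * 1 := by ring
        _ ≤ a ^ 2 * (C * ‖(η : ℂ) + t * I‖ * z) := by gcongr
        _ = (C * ‖(η : ℂ) + t * I‖) * (a ^ 2 * z) := by ring
        _ ≤ (C * (3 * ‖(σ : ℂ) + t * I‖)) * M ^ 2 := by gcongr
        _ = _ := by ring
    exact abs_le_of_sq_le_sq' h4 (by positivity) |>.2
  have hAhigh : ∀ t : ℝ, ‖abS N R (1 + (η : ℝ) + t * I)‖ ≤ √C' * (√σ)⁻¹ * M := by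
    intro t
    have h1 : 1 ≤ C' / η * Z t := hz' η t hη0 (by linarith)
    have h2 := hA t
    set a := ‖abS N R (1 + (η : ℝ) + t * I)‖ with ha
    set z := Z t with hzz
    have ha0 : 0 ≤ a := norm_nonneg _
    have hz0 : 0 ≤ z := norm_nonneg _
    have h3 : C' / η ≤ C' / σ := div_le_div_of_nonneg_left hC'.le hσ (by linarith)
    have h4 : a ^ 2 ≤ (√C' * (√σ)⁻¹ * M) ^ 2 := by
      rw [mul_pow, mul_pow, Real.sq_sqrt hC'.le, inv_pow, Real.sq_sqrt hσ.le]
      calc a ^ 2 = a ^ 2 * 1 := by ring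
        _ ≤ a ^ 2 * (C' / η * z) := by gcongr
        _ = (C' / η) * (a ^ 2 * z) := by ring
        _ ≤ (C' / σ) * M ^ 2 := by gcongr
        _ = _ := by rw [div_eq_mul_inv]
    exact abs_le_of_sq_le_sq' h4 (by positivity) |>.2
  have hxσ : x ^ σ ≤ Real.exp 1 := by
    rw [Real.rpow_def_of_pos hx0]
    apply Real.exp_le_exp.2
    rw [hσdef, mul_one_div, div_le_one (by positivity)]
    linarith
  obtain ⟨hI1, hI2⟩ := abound_scale hσ
  set g : ℝ → ℝ := fun t => (Real.exp 1 * √(3 * C) * M) * (σ ^ 2 + t ^ 2) ^ (-(3 / 4) : ℝ) +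
    (Real.exp 1 * (√C' * (√σ)⁻¹ * M) * D) * (1 + t ^ 2)⁻¹ with hg
  have hgint : Integrable g := (hI1.const_mul _).add (integrable_inv_one_add_sq.const_mul _)
  have hgval : ∫ t, g t = Real.exp 1 * (√(3 * C) * aboundK + √C' * (D * Real.pi)) *
      ((√σ)⁻¹ * M) := by
    rw [hg, integral_add (hI1.const_mul _) (integrable_inv_one_add_sq.const_mul _),
      integral_const_mul, integral_const_mul, hI2, integral_univ_inv_one_add_sq]
    ring
  have hbound : ∀ t : ℝ, ‖(x : ℂ) ^ ((σ : ℂ) + t * I) *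
      abS N R (1 + (s + σ : ℝ) + t * I) / ((σ : ℂ) + t * I) ^ 2‖ ≤ g t := by
    intro t
    have hw := abound_ne hσ t
    have hw' : 0 < ‖(σ : ℂ) + t * I‖ := norm_pos_iff.2 hw
    rw [norm_div, norm_mul, norm_pow, Complex.norm_cpow_eq_rpow_re_of_pos hx0]
    have e2 : ((σ : ℂ) + t * I).re = σ := by simp
    rw [e2, ← hη]
    have hg1 : 0 ≤ (Real.exp 1 * √(3 * C) * M) * (σ ^ 2 + t ^ 2) ^ (-(3 / 4) : ℝ) := by positivity
    have hg2 : 0 ≤ (Real.exp 1 * (√C' * (√σ)⁻¹ * M) * D) * (1 + t ^ 2)⁻¹ := by positivity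
    rcases le_or_gt |t| t₁ with ht | ht
    · have h1 := hAlow t ht
      have h2 : √‖(σ : ℂ) + t * I‖ / ‖(σ : ℂ) + t * I‖ ^ 2 = (σ ^ 2 + t ^ 2) ^ (-(3 / 4) : ℝ) := by
        rw [← abound_normsq, Real.sqrt_eq_rpow, ← Real.rpow_natCast ‖(σ : ℂ) + t * I‖ 2,
          ← Real.rpow_sub hw', ← Real.rpow_mul hw'.le]
        norm_num
      calc _ ≤ Real.exp 1 * (√(3 * C) * √‖(σ : ℂ) + t * I‖ * M) / ‖(σ : ℂ) + t * I‖ ^ 2 := by
            gcongr
        _ = (Real.exp 1 * √(3 * C) * M) * (√‖(σ : ℂ) + t * I‖ / ‖(σ : ℂ) + t * I‖ ^ 2) := by ring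
        _ = (Real.exp 1 * √(3 * C) * M) * (σ ^ 2 + t ^ 2) ^ (-(3 / 4) : ℝ) := by rw [h2]
        _ ≤ g t := by
            simp only [hg]
            linarith
    · have h1 := hAhigh t
      have ht2 : t₁ ^ 2 < t ^ 2 := by
        rw [← sq_abs t]
        exact pow_lt_pow_left₀ ht ht₁.le two_ne_zero
      have ht2' : 0 < t₁ ^ 2 := by positivity
      have hkey : (1 + t ^ 2) / D ≤ ‖(σ : ℂ) + t * I‖ ^ 2 := by
        rw [abound_normsq, div_le_iff₀ hD0, hD]
        have h5 : 1 ≤ t ^ 2 * (1 / t₁ ^ 2) := by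
          rw [mul_one_div, one_le_div ht2']
          exact ht2.le
        have h6 : 0 ≤ σ ^ 2 * (1 + 1 / t₁ ^ 2) := by positivity
        nlinarith
      calc _ ≤ Real.exp 1 * (√C' * (√σ)⁻¹ * M) / ‖(σ : ℂ) + t * I‖ ^ 2 := by gcongr
        _ ≤ Real.exp 1 * (√C' * (√σ)⁻¹ * M) / ((1 + t ^ 2) / D) := by
            apply div_le_div_of_nonneg_left (by positivity) (by positivity) hkey
        _ = (Real.exp 1 * (√C' * (√σ)⁻¹ * M) * D) * (1 + t ^ 2)⁻¹ := by
            field_simp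
        _ ≤ g t := by
            simp only [hg]
            linarith
  have hfin := norm_integral_le_of_norm_le hgint (Eventually.of_forall hbound)
  rw [← abound_rep hN hx hs hσ, hgval] at hfin
  have hl : ‖(2 * Real.pi * (AA N R s x : ℂ) : ℂ)‖ = 2 * Real.pi * |AA N R s x| := by
    rw [norm_mul, Complex.norm_real, Real.norm_eq_abs, norm_mul, Complex.norm_real,
      Real.norm_eq_abs, abs_of_pos Real.pi_pos]
    simp
  rw [hl] at hfin
  have hsq : (√σ)⁻¹ = √(1 + Real.log x) := by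
    rw [← Real.sqrt_inv, hσdef, one_div, inv_inv]
  rw [hsq] at hfin
  rw [div_mul_eq_mul_div, div_mul_eq_mul_div, le_div_iff₀ (by positivity)]
  linarith

end Pool.Agent.AS

namespace Pool.Agent.AS

theorem AA_le : type_of% @AA_le_pr := @AA_le_pr

end Pool.Agent.AS
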