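import Pool.Agent.Lib_helper24.AS.Defs
import Pool.Agent.Lib_helper92.ASA.ALPHA
import Pool.Agent.Lib_helper92.ASA.BAS

/-! Block BBD (helper55). -/

namespace Pool.Agent.AS

open Complex MeasureTheory Filter Topology

variable {P : Type}

theorem bbd_cut {N : P → ℕ} {L : ℝ} (hL : 0 < L) (g : P →₀ ℕ) :
    0 ≤ max 0 (1 - Real.log (nm N g) / L) ∧ max 0 (1 - Real.log (nm N g) / L) ≤ 1 := by
  refine ⟨le_max_left _ _, max_le zero_le_one ?_⟩
  have : 0 ≤ Real.log (nm N g) / L := div_nonneg (Real.log_natCast_nonneg _) hL.le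
  linarith

theorem bbd_abs_le {N : P → ℕ} {L : ℝ} (hL : 0 < L) (g : P →₀ ℕ) :
    |be N L g| ≤ |(al : MvPowerSeries P ℝ) g| := by
  unfold be
  rw [abs_mul, abs_of_nonneg (bbd_cut hL g).1]
  exact mul_le_of_le_one_right (abs_nonneg _) (bbd_cut hL g).2

theorem be_abs_pr {N : P → ℕ} (hN : ∀ p, 2 ≤ N p) {L : ℝ} (hL : 0 < L) (g : P →₀ ℕ) :
    |be N L g| ≤ 1 :=
  (bbd_abs_le hL g).trans (al_abs g)

theorem be_zero_pr {N : P → ℕ} {L : ℝ} (hL : 0 < L) {g : P →₀ ℕ}
    (hg : L ≤ Real.log (nm N g)) : be N L g = 0 := by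
  unfold be
  rw [max_eq_left, mul_zero]
  have : 1 ≤ Real.log (nm N g) / L := by rwa [le_div_iff₀ hL, one_mul]
  linarith

theorem bb_zero_pr {N : P → ℕ} {L : ℝ} (hL : 0 < L) : bb N L 0 = 1 := by
  classical
  have h : be N L 0 = 1 := by
    unfold be
    rw [al_zero, nm_zero]; simp
  unfold bb
  rw [mul_app, Finset.HasAntidiagonal.antidiagonal_zero, Finset.sum_singleton, mul_app,
    Finset.HasAntidiagonal.antidiagonal_zero, Finset.sum_singleton]
  rw [h]; simp [one]

theorem bbd_lam_abs {N : P → ℕ} {L : ℝ} (hL : 0 < L) (g : P →₀ ℕ) :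
    |(be N L * be N L : MvPowerSeries P ℝ) g| ≤ 1 := by
  classical
  rw [mul_app]
  refine (Finset.abs_sum_le_sum_abs _ _).trans ?_
  refine le_trans (Finset.sum_le_sum fun p _ => ?_) (al_conv_abs g)
  rw [abs_mul]
  exact mul_le_mul (bbd_abs_le hL _) (bbd_abs_le hL _) (abs_nonneg _) (abs_nonneg _)

theorem bbd_lam_zero {N : P → ℕ} (hN : ∀ p, 2 ≤ N p) {L : ℝ} (hL : 0 < L) {g : P →₀ ℕ}
    (hg : 2 * L ≤ Real.log (nm N g)) : (be N L * be N L : MvPowerSeries P ℝ) g = 0 := by
  classical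
  rw [mul_app]
  refine Finset.sum_eq_zero fun p hp => ?_
  rw [Finset.HasAntidiagonal.mem_antidiagonal] at hp
  have h3 : Real.log (nm N g) = Real.log (nm N p.1) + Real.log (nm N p.2) := by
    rw [← hp, nm_add]; push_cast
    exact Real.log_mul (by exact_mod_cast (nm_pos hN _).ne') (by exact_mod_cast (nm_pos hN _).ne')
  rcases le_or_gt L (Real.log (nm N p.1)) with h | h
  · rw [be_zero_pr hL h, zero_mul]
  · rw [be_zero_pr hL (g := p.2) (by linarith), mul_zero]

theorem bb_abs_pr {N : P → ℕ} (hN : Good N) : ∃ C : ℝ, 0 ≤ C ∧ ∀ L : ℝ, 0 < L → ∀ g : P →₀ ℕ,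
    |bb N L g| ≤ C * Real.exp (4 * L) := by
  classical
  obtain ⟨C, hC0, hC⟩ := ball_card hN
  refine ⟨C, hC0, fun L hL g => ?_⟩
  unfold bb
  rw [mul_app]
  refine (Finset.abs_sum_le_sum_abs _ _).trans ?_
  have h1 : ∑ i ∈ Finset.HasAntidiagonal.antidiagonal g,
      |(one : MvPowerSeries P ℝ) i.1 * (be N L * be N L : MvPowerSeries P ℝ) i.2| ≤
      ∑ i ∈ (Finset.HasAntidiagonal.antidiagonal g).filter
        (fun d => Real.log (nm N d.2) < 2 * L), (1 : ℝ) := by
    rw [Finset.sum_filter]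
    refine Finset.sum_le_sum fun i _ => ?_
    rw [show (one : MvPowerSeries P ℝ) i.1 = 1 from rfl, one_mul]
    split_ifs with h
    · exact bbd_lam_abs hL _
    · rw [bbd_lam_zero hN.two_le hL (not_lt.mp h), abs_zero]
  refine h1.trans ?_
  rw [Finset.sum_const, nsmul_eq_mul, mul_one]
  have h2 : ((Finset.HasAntidiagonal.antidiagonal g).filter
      (fun d => Real.log (nm N d.2) < 2 * L)).card ≤ (ball N (Real.exp (2 * L))).card := by
    refine Finset.card_le_card_of_injOn (fun d => d.2) ?_ ?_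
    · intro d hd
      rw [Finset.mem_coe, Finset.mem_filter] at hd
      rw [Finset.mem_coe, mem_ball hN]
      have hpos : (0 : ℝ) < nm N d.2 := by exact_mod_cast nm_pos hN.two_le d.2
      rw [← Real.log_le_iff_le_exp hpos]
      exact hd.2.le
    · intro d hd e he hde
      rw [Finset.mem_coe, Finset.mem_filter, Finset.HasAntidiagonal.mem_antidiagonal] at hd he
      have h2 : d.2 = e.2 := hde
      have h3 : d.1 = e.1 := by
        have := hd.1.trans he.1.symm
        rw [h2] at this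
        exact add_right_cancel this
      exact Prod.ext h3 h2
  calc ((((Finset.HasAntidiagonal.antidiagonal g).filter
      (fun d => Real.log (nm N d.2) < 2 * L)).card : ℕ) : ℝ)
      ≤ ((ball N (Real.exp (2 * L))).card : ℝ) := by exact_mod_cast h2
    _ ≤ C * (Real.exp (2 * L)) ^ 2 := hC _ (Real.one_le_exp (by linarith))
    _ = C * Real.exp (4 * L) := by
      rw [← Real.exp_nat_mul]; congr 2; push_cast; ring

end Pool.Agent.AS

namespace Pool.Agent.AS

theorem be_abs : type_of% @be_abs_pr := @be_abs_pr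

theorem be_zero : type_of% @be_zero_pr := @be_zero_pr

theorem bb_zero : type_of% @bb_zero_pr := @bb_zero_pr

theorem bb_abs : type_of% @bb_abs_pr := @bb_abs_pr

end Pool.Agent.AS
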