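import Pool.Agent.Lib_helper24.AS.Defs
import Pool.Agent.Lib_helper92.ASA.ALPHA
import Pool.Agent.Lib_helper92.ASA.BAS

/-! Block LOGA of K-SELBERG (helper93). -/

namespace Pool.Agent.AS

open Complex MeasureTheory Filter Topology

variable {P : Type}

theorem loga_log_nm {N : P → ℕ} (hN : ∀ p, 2 ≤ N p) (g : P →₀ ℕ) :
    Real.log (nm N g) = ∑ p ∈ g.support, (g p : ℝ) * Real.log (N p) := by
  unfold nm Finsupp.prod
  push_cast
  rw [Real.log_prod]
  · exact Finset.sum_congr rfl fun p _ => by rw [Real.log_pow]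
  · intro p _
    have h := hN p
    have : (N p : ℝ) ≠ 0 := by
      have : N p ≠ 0 := by omega
      exact_mod_cast this
    exact pow_ne_zero _ this

theorem one_mul_vM_pr {N : P → ℕ} (hN : ∀ p, 2 ≤ N p) (g : P →₀ ℕ) :
    (one * vM N : MvPowerSeries P ℝ) g = Real.log (nm N g) := by
  classical
  rw [mul_app, loga_log_nm hN]
  have h1 : ∀ x : (P →₀ ℕ) × (P →₀ ℕ), (one : MvPowerSeries P ℝ) x.1 * vM N x.2 =
      if x.2.support.card = 1 then ∑ p ∈ x.2.support, Real.log (N p) else 0 := by
    intro x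
    show (1 : ℝ) * vM N x.2 = _
    rw [one_mul]
    rfl
  simp only [h1]
  rw [← Finset.sum_filter]
  have h2 : ∀ p ∈ g.support, (g p : ℝ) * Real.log (N p) =
      ∑ k ∈ Finset.Icc 1 (g p), Real.log (N p) := by
    intro p _
    rw [Finset.sum_const, Nat.card_Icc, nsmul_eq_mul]
    simp
  rw [Finset.sum_congr rfl h2]
  have h3 : ∑ p ∈ g.support, ∑ _k ∈ Finset.Icc 1 (g p), Real.log (N p) =
      ∑ x ∈ g.support.sigma (fun p => Finset.Icc 1 (g p)), Real.log (N x.1) :=
    Finset.sum_sigma' _ _ _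
  rw [h3]
  symm
  refine Finset.sum_bij (fun (x : Σ _ : P, ℕ) _ =>
    (g - Finsupp.single x.1 x.2, Finsupp.single x.1 x.2)) ?_ ?_ ?_ ?_
  · rintro ⟨p, k⟩ hx
    simp only [Finset.mem_sigma, Finset.mem_Icc, Finsupp.mem_support_iff] at hx
    simp only [Finset.mem_filter, Finset.HasAntidiagonal.mem_antidiagonal]
    refine ⟨?_, ?_⟩
    · refine tsub_add_cancel_of_le ?_
      intro q
      by_cases hq : p = q
      · subst hq
        simpa using hx.2.2
      · rw [Finsupp.single_eq_of_ne' hq]
        exact Nat.zero_le _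
    · rw [Finsupp.support_single_ne_zero _ (by omega)]
      exact Finset.card_singleton _
  · rintro ⟨p, k⟩ hx ⟨p', k'⟩ hx' h
    simp only [Finset.mem_sigma, Finset.mem_Icc, Finsupp.mem_support_iff] at hx hx'
    simp only [Prod.mk.injEq] at h
    have h3 := (Finsupp.single_eq_single_iff _ _ _ _).1 h.2
    rcases h3 with ⟨rfl, rfl⟩ | ⟨h4, _⟩
    · rfl
    · omega
  · rintro ⟨a, b⟩ hx
    simp only [Finset.mem_filter, Finset.HasAntidiagonal.mem_antidiagonal] at hx
    obtain ⟨hab, hc⟩ := hx
    obtain ⟨p, hp⟩ := Finset.card_eq_one.1 hc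
    have hbp : b p ≠ 0 := by
      have : p ∈ b.support := by rw [hp]; exact Finset.mem_singleton_self _
      exact Finsupp.mem_support_iff.1 this
    have hb : b = Finsupp.single p (b p) := by
      ext q
      by_cases hq : p = q
      · subst hq; simp
      · rw [Finsupp.single_eq_of_ne' hq]
        by_contra h
        have : q ∈ b.support := Finsupp.mem_support_iff.2 h
        rw [hp, Finset.mem_singleton] at this
        exact hq this.symm
    have hle : b p ≤ g p := by
      rw [← hab]
      simp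
    refine ⟨⟨p, b p⟩, ?_, ?_⟩
    · simp only [Finset.mem_sigma, Finset.mem_Icc, Finsupp.mem_support_iff]
      omega
    · simp only [Prod.mk.injEq]
      rw [← hb]
      refine ⟨?_, rfl⟩
      rw [← hab]
      exact add_tsub_cancel_right _ _
  · rintro ⟨p, k⟩ hx
    simp only [Finset.mem_sigma, Finset.mem_Icc, Finsupp.mem_support_iff] at hx
    simp only
    rw [Finsupp.support_single_ne_zero _ (by omega), Finset.sum_singleton]

/-- Multiplication by the logarithm of the norm. -/
noncomputable def loga_D (N : P → ℕ) (f : MvPowerSeries P ℝ) : MvPowerSeries P ℝ :=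
  fun g => f g * Real.log (nm N g)

theorem loga_deriv {N : P → ℕ} (hN : ∀ p, 2 ≤ N p) (f g : MvPowerSeries P ℝ) :
    loga_D N (f * g) = loga_D N f * g + f * loga_D N g := by
  classical
  funext n
  show (f * g : MvPowerSeries P ℝ) n * Real.log (nm N n) =
    (loga_D N f * g : MvPowerSeries P ℝ) n + (f * loga_D N g : MvPowerSeries P ℝ) n
  rw [mul_app, mul_app, mul_app, Finset.sum_mul, ← Finset.sum_add_distrib]
  refine Finset.sum_congr rfl fun x hx => ?_
  rw [Finset.HasAntidiagonal.mem_antidiagonal] at hx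
  have h1 : (nm N x.1 : ℝ) ≠ 0 := by
    have := nm_pos hN x.1
    exact_mod_cast this.ne'
  have h2 : (nm N x.2 : ℝ) ≠ 0 := by
    have := nm_pos hN x.2
    exact_mod_cast this.ne'
  rw [← hx, nm_add]
  push_cast
  rw [Real.log_mul h1 h2]
  simp only [loga_D]
  ring

theorem loga_one (N : P → ℕ) : loga_D N (1 : MvPowerSeries P ℝ) = 0 := by
  classical
  funext n
  show (1 : MvPowerSeries P ℝ) n * Real.log (nm N n) = 0
  by_cases h : n = 0
  · subst h
    rw [nm_zero]; simp
  · have : (1 : MvPowerSeries P ℝ) n = 0 := by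
      have := MvPowerSeries.coeff_one (σ := P) (R := ℝ) (n := n)
      rw [if_neg h] at this
      exact this
    rw [this, zero_mul]

theorem loga_zeta {N : P → ℕ} (hN : ∀ p, 2 ≤ N p) :
    loga_D N (one : MvPowerSeries P ℝ) = one * vM N := by
  funext n
  rw [one_mul_vM_pr hN]
  show (1 : ℝ) * Real.log (nm N n) = _
  rw [one_mul]

theorem loga_moebius {N : P → ℕ} (hN : ∀ p, 2 ≤ N p) :
    loga_D N (mu : MvPowerSeries P ℝ) = - (mu * vM N) := by
  have h1 := loga_deriv hN (one : MvPowerSeries P ℝ) mu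
  rw [one_mul_mu, loga_one, loga_zeta hN] at h1
  have h2 : (one : MvPowerSeries P ℝ) * loga_D N mu = -(one * vM N * mu) :=
    (neg_eq_of_add_eq_zero_right h1.symm).symm
  have h3 : (mu : MvPowerSeries P ℝ) * (one * loga_D N mu) = mu * -(one * vM N * mu) := by rw [h2]
  have h4 : (mu : MvPowerSeries P ℝ) * one = 1 := by rw [mul_comm, one_mul_mu]
  rw [← mul_assoc, h4, one_mul] at h3
  rw [h3]
  have h5 : (mu : MvPowerSeries P ℝ) * -(one * vM N * mu) = -((mu * one) * (vM N * mu)) := by ring
  rw [h5, h4, one_mul, mul_comm]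

theorem loga_main {N : P → ℕ} (hN : ∀ p, 2 ≤ N p) :
    loga_D N (al : MvPowerSeries P ℝ) + loga_D N al = - (al * vM N) := by
  have h1 := loga_deriv hN (al : MvPowerSeries P ℝ) al
  rw [al_mul_al, loga_moebius hN, ← al_mul_al] at h1
  have h2 : (al : MvPowerSeries P ℝ) * (loga_D N al + loga_D N al) = al * (-(al * vM N)) := by
    have h5 : (al : MvPowerSeries P ℝ) * (-(al * vM N)) = -(al * al * vM N) := by ring
    rw [h5, h1]
    ring
  have h3 : (one : MvPowerSeries P ℝ) * al * (al * (loga_D N al + loga_D N al)) =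
      one * al * (al * (-(al * vM N))) := by rw [h2]
  have h4 : (one : MvPowerSeries P ℝ) * al * al = 1 := by rw [mul_assoc, al_mul_al, one_mul_mu]
  rw [← mul_assoc, ← mul_assoc, h4, one_mul, one_mul] at h3
  exact h3

theorem al_log_pr {N : P → ℕ} (hN : ∀ p, 2 ≤ N p) (g : P →₀ ℕ) : al g * Real.log (nm N g) =
    -(1 / 2) * (al * vM N : MvPowerSeries P ℝ) g := by
  have h := congrFun (loga_main hN) g
  have h' : al g * Real.log (nm N g) + al g * Real.log (nm N g) =
      -((al * vM N : MvPowerSeries P ℝ) g) := h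
  linarith

end Pool.Agent.AS

namespace Pool.Agent.AS

theorem one_mul_vM : type_of% @one_mul_vM_pr := @one_mul_vM_pr

theorem al_log : type_of% @al_log_pr := @al_log_pr

end Pool.Agent.AS
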