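import Pool.Agent.Lib_helper24.AS.Defs
import Pool.Agent.Lib_helper92.ASA.ALPHA
import Pool.Agent.Lib_helper92.ASA.BAS
import Pool.Agent.Lib_helper92.ASA.LOGA

/-!
# Block BFORM: the coefficients `b = 1 * β * β` below the length of the mollifier
-/

namespace Pool.Agent.AS

open Complex MeasureTheory Filter Topology

variable {P : Type}

theorem bform_mul_congr [DecidableEq P] {f f' h h' : MvPowerSeries P ℝ} {g : P →₀ ℕ}
    (hf : ∀ a, a ≤ g → f a = f' a) (hh : ∀ a, a ≤ g → h a = h' a) :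
    (f * h : MvPowerSeries P ℝ) g = (f' * h' : MvPowerSeries P ℝ) g := by
  rw [mul_app, mul_app]
  refine Finset.sum_congr rfl fun p hp => ?_
  have hp' : p.1 + p.2 = g := Finset.HasAntidiagonal.mem_antidiagonal.mp hp
  rw [hf p.1 (hp' ▸ le_self_add), hh p.2 (hp' ▸ le_add_self)]

theorem bform_one_app [DecidableEq P] {g : P →₀ ℕ} (hg : g ≠ 0) :
    (1 : MvPowerSeries P ℝ) g = 0 := by
  have h := MvPowerSeries.coeff_one (R := ℝ) (σ := P) (n := g)
  rw [if_neg hg] at h
  exact h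

theorem bform_be {N : P → ℕ} (hN : ∀ p, 2 ≤ N p) {L : ℝ} (hL : 0 < L) {g : P →₀ ℕ}
    (hgL : Real.log (nm N g) ≤ L) :
    be N L g = (al * (1 + (1 / (2 * L)) • vM N) : MvPowerSeries P ℝ) g := by
  have h1 : (al * (1 + (1 / (2 * L)) • vM N) : MvPowerSeries P ℝ) =
      al + (1 / (2 * L)) • (al * vM N) := by
    rw [mul_add, mul_one, mul_smul_comm]
  rw [h1]
  change be N L g = al g + (1 / (2 * L)) * (al * vM N : MvPowerSeries P ℝ) g
  have h2 := al_log hN g
  have h3 : (0 : ℝ) ≤ 1 - Real.log (nm N g) / L := by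
    rw [sub_nonneg, div_le_one hL]; exact hgL
  unfold be
  rw [max_eq_right h3]
  have h4 : al g * (1 - Real.log (nm N g) / L) = al g - (al g * Real.log (nm N g)) / L := by ring
  rw [h4, h2]
  field_simp
  ring

theorem bb_eq_pr {N : P → ℕ} (hN : ∀ p, 2 ≤ N p) {L : ℝ} (hL : 0 < L) {g : P →₀ ℕ} (hg : g ≠ 0)
    (hgL : Real.log (nm N g) ≤ L) :
    bb N L g = vM N g / L + (vM N * vM N : MvPowerSeries P ℝ) g / (4 * L ^ 2) := by
  classical
  have hlog : ∀ a, a ≤ g → Real.log (nm N a) ≤ L := fun a ha => by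
    refine le_trans (Real.log_le_log ?_ ?_) hgL
    · exact_mod_cast nm_pos hN a
    · exact_mod_cast nm_le hN ha
  have hbe : ∀ a, a ≤ g → be N L a = (al * (1 + (1 / (2 * L)) • vM N) : MvPowerSeries P ℝ) a :=
    fun a ha => bform_be hN hL (hlog a ha)
  have h1 : bb N L g = (one * ((al * (1 + (1 / (2 * L)) • vM N)) *
      (al * (1 + (1 / (2 * L)) • vM N))) : MvPowerSeries P ℝ) g := by
    unfold bb
    refine bform_mul_congr (fun a _ => rfl) fun a ha => ?_
    exact bform_mul_congr (fun b hb => hbe b (hb.trans ha)) fun b hb => hbe b (hb.trans ha)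
  have h2 : (one * ((al * (1 + (1 / (2 * L)) • vM N)) *
      (al * (1 + (1 / (2 * L)) • vM N))) : MvPowerSeries P ℝ) =
      1 + (1 / L) • vM N + (1 / (4 * L ^ 2)) • (vM N * vM N) := by
    have h3 : (one * ((al * (1 + (1 / (2 * L)) • vM N)) *
      (al * (1 + (1 / (2 * L)) • vM N))) : MvPowerSeries P ℝ) =
      (one * (al * al)) * ((1 + (1 / (2 * L)) • vM N) * (1 + (1 / (2 * L)) • vM N)) := by ring
    rw [h3, al_mul_al, one_mul_mu, one_mul]
    rw [add_mul, mul_add, mul_add, one_mul, mul_one, one_mul, smul_mul_smul_comm]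
    have h4 : (1 / L) • vM N = (1 / (2 * L)) • vM N + (1 / (2 * L)) • vM N := by
      rw [← add_smul]
      congr 1
      field_simp
      norm_num
    have h5 : (1 / (4 * L ^ 2)) = (1 / (2 * L)) * (1 / (2 * L)) := by
      field_simp
      norm_num
    rw [h4, h5]
    abel
  rw [h1, h2]
  change (1 : MvPowerSeries P ℝ) g + (1 / L) * vM N g + (1 / (4 * L ^ 2)) *
    (vM N * vM N : MvPowerSeries P ℝ) g = _
  rw [bform_one_app hg]
  ring

end Pool.Agent.AS

namespace Pool.Agent.AS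

theorem bb_eq : type_of% @bb_eq_pr := @bb_eq_pr

end Pool.Agent.AS
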