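import Pool.Agent.Lib_helper24.AS.Defs
import Pool.Agent.Lib_helper92.ASA.BAS

/-! Block CHEB (K-Selberg, MP_77948b_nt): Chebyshev and Mertens bounds. -/

namespace Pool.Agent.AS

open Complex MeasureTheory Filter Topology

variable {P : Type}

theorem cheb_vM_nonneg {N : P → ℕ} (hN : ∀ p, 2 ≤ N p) (g : P →₀ ℕ) : 0 ≤ vM N g := by
  unfold vM
  split_ifs
  · refine Finset.sum_nonneg fun p _ => Real.log_nonneg ?_
    exact_mod_cast le_trans (by norm_num) (hN p)
  · exact le_rfl

theorem cheb_vM_single (N : P → ℕ) (p : P) {k : ℕ} (hk : k ≠ 0) :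
    vM N (Finsupp.single p k) = Real.log (N p) := by
  classical
  unfold vM
  rw [Finsupp.support_single p hk, if_pos (Finset.card_singleton p), Finset.sum_singleton]

open scoped Classical in
/-- the primes of norm at most `x` -/
noncomputable def cheb_PB (N : P → ℕ) (x : ℝ) : Finset P := (ball N x).biUnion Finsupp.support

theorem cheb_mem_PB {N : P → ℕ} (hN : Good N) {x : ℝ} {p : P} :
    p ∈ cheb_PB N x ↔ (N p : ℝ) ≤ x := by
  classical
  unfold cheb_PB
  rw [Finset.mem_biUnion]
  constructor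
  · rintro ⟨g, hg, hp⟩
    rw [mem_ball hN] at hg
    rw [Finsupp.mem_support_iff] at hp
    have h1 : Finsupp.single p 1 ≤ g := by
      rw [Finsupp.single_le_iff]; omega
    have h2 := nm_le hN.two_le h1
    rw [nm_single, pow_one] at h2
    have h3 : (N p : ℝ) ≤ nm N g := by exact_mod_cast h2
    linarith
  · intro h
    refine ⟨Finsupp.single p 1, ?_, ?_⟩
    · rw [mem_ball hN, nm_single, pow_one]
      exact h
    · rw [Finsupp.mem_support_iff]; simp

theorem cheb_sum_le {N : P → ℕ} (hN : Good N) {x : ℝ} (hx : 1 ≤ x) :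
    ∑ g ∈ ball N x, vM N g ≤
      ∑ p ∈ cheb_PB N x, (⌊Real.log x / Real.log (N p)⌋₊ : ℝ) * Real.log (N p) := by
  classical
  set T : Finset ((_ : P) × ℕ) := (cheb_PB N x).sigma
    (fun p => Finset.Icc 1 ⌊Real.log x / Real.log (N p)⌋₊) with hT
  set i : ((_ : P) × ℕ) → (P →₀ ℕ) := fun j => Finsupp.single j.1 j.2 with hi
  have hinj : Set.InjOn i (T : Set ((_ : P) × ℕ)) := by
    intro a ha b hb hab
    have ha' : 1 ≤ a.2 := (Finset.mem_Icc.mp (Finset.mem_sigma.mp (Finset.mem_coe.mp ha)).2).1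
    have hb' : 1 ≤ b.2 := (Finset.mem_Icc.mp (Finset.mem_sigma.mp (Finset.mem_coe.mp hb)).2).1
    rcases Finsupp.single_eq_single_iff a.1 b.1 a.2 b.2 |>.mp hab with h | h
    · obtain ⟨a1, a2⟩ := a
      obtain ⟨b1, b2⟩ := b
      obtain ⟨h1, h2⟩ := h
      simp only at h1 h2
      subst h1 h2
      rfl
    · omega
  have hsub : (ball N x).filter (fun g => vM N g ≠ 0) ⊆ T.image i := by
    intro g hg
    rw [Finset.mem_filter] at hg
    obtain ⟨hgb, hgv⟩ := hg
    have hcard : g.support.card = 1 := by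
      by_contra h
      apply hgv
      unfold vM
      rw [if_neg h]
    obtain ⟨p, hp⟩ := Finset.card_eq_one.mp hcard
    have hgs : g = Finsupp.single p (g p) := by
      ext q
      by_cases hq : q = p
      · subst hq; simp
      · rw [Finsupp.single_apply, if_neg (Ne.symm hq)]
        have : q ∉ g.support := by rw [hp]; simpa using hq
        exact Finsupp.notMem_support_iff.mp this
    have hgp : g p ≠ 0 := by
      have : p ∈ g.support := by rw [hp]; simp
      exact Finsupp.mem_support_iff.mp this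
    rw [mem_ball hN] at hgb
    have hnm : nm N g = N p ^ (g p) := by
      conv_lhs => rw [hgs]
      rw [nm_single]
    have hNp1 : (1 : ℝ) < N p := by
      exact_mod_cast lt_of_lt_of_le (by norm_num) (hN.two_le p)
    have hlogp : 0 < Real.log (N p) := Real.log_pos hNp1
    have hpow : (N p : ℝ) ^ (g p) ≤ x := by
      rw [hnm] at hgb
      exact_mod_cast hgb
    rw [Finset.mem_image]
    refine ⟨⟨p, g p⟩, ?_, hgs.symm⟩
    rw [hT, Finset.mem_sigma]
    constructor
    · rw [cheb_mem_PB hN]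
      exact (le_self_pow₀ hNp1.le hgp).trans hpow
    · rw [Finset.mem_Icc]
      refine ⟨Nat.one_le_iff_ne_zero.mpr hgp, ?_⟩
      apply Nat.le_floor
      rw [le_div_iff₀ hlogp, ← Real.log_pow]
      exact Real.log_le_log (by positivity) hpow
  calc ∑ g ∈ ball N x, vM N g = ∑ g ∈ (ball N x).filter (fun g => vM N g ≠ 0), vM N g :=
        (Finset.sum_filter_ne_zero _).symm
    _ ≤ ∑ g ∈ T.image i, vM N g :=
        Finset.sum_le_sum_of_subset_of_nonneg hsub fun g _ _ => cheb_vM_nonneg hN.two_le g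
    _ = ∑ j ∈ T, vM N (i j) := Finset.sum_image hinj
    _ = ∑ j ∈ T, Real.log (N j.1) := by
        refine Finset.sum_congr rfl fun j hj => ?_
        have hj' : 1 ≤ j.2 := (Finset.mem_Icc.mp (Finset.mem_sigma.mp hj).2).1
        exact cheb_vM_single N j.1 (by omega)
    _ = _ := by
        rw [hT, Finset.sum_sigma]
        refine Finset.sum_congr rfl fun p _ => ?_
        simp

theorem psi_le_pr {N : P → ℕ} (hN : Good N) : ∃ C : ℝ, 0 ≤ C ∧ ∀ x : ℝ, 1 ≤ x →
    ∑ g ∈ ball N x, vM N g ≤ C * x := by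
  classical
  obtain ⟨C₀, hC₀⟩ := hN.cheb
  set C : ℝ := max C₀ 0 with hC
  have hC0 : 0 ≤ C := le_max_right _ _
  have hcheb : ∀ (x : ℝ) (F : Finset P), 1 ≤ x → (∀ p ∈ F, (N p : ℝ) ≤ x) →
      ∑ p ∈ F, Real.log (N p) ≤ C * x := fun x F hx hF =>
    (hC₀ x F hx hF).trans (mul_le_mul_of_nonneg_right (le_max_left _ _) (by linarith))
  have hlog2 : 0 < Real.log 2 := Real.log_pos (by norm_num)
  refine ⟨C * (1 + 2 / Real.log 2), by positivity, fun x hx => ?_⟩
  have hx0 : 0 < x := by linarith
  have hlogx : 0 ≤ Real.log x := Real.log_nonneg hx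
  have hsq1 : 1 ≤ √x := Real.one_le_sqrt.mpr hx
  have hlogsq : Real.log x ≤ 2 * √x := by
    have h1 : Real.log x = 2 * Real.log (√x) := by
      rw [Real.log_sqrt hx0.le]; ring
    have h2 := Real.log_le_sub_one_of_pos (x := √x) (by positivity)
    linarith
  have hterm : ∀ p ∈ cheb_PB N x, (⌊Real.log x / Real.log (N p)⌋₊ : ℝ) * Real.log (N p) ≤
      Real.log (N p) + (if (N p : ℝ) ≤ √x then Real.log x else 0) := by
    intro p _
    have hNp1 : (1 : ℝ) < N p := by
      exact_mod_cast lt_of_lt_of_le (by norm_num) (hN.two_le p)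
    have hlogp : 0 < Real.log (N p) := Real.log_pos hNp1
    have hfl : (⌊Real.log x / Real.log (N p)⌋₊ : ℝ) ≤ Real.log x / Real.log (N p) :=
      Nat.floor_le (by positivity)
    split_ifs with h
    · have h1 : (⌊Real.log x / Real.log (N p)⌋₊ : ℝ) * Real.log (N p) ≤ Real.log x := by
        have := mul_le_mul_of_nonneg_right hfl hlogp.le
        rwa [div_mul_cancel₀ _ hlogp.ne'] at this
      linarith
    · rw [not_le] at h
      have h1 : Real.log x / Real.log (N p) < 2 := by
        rw [div_lt_iff₀ hlogp]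
        have h2 : Real.log (√x) < Real.log (N p) := Real.log_lt_log (by positivity) h
        rw [Real.log_sqrt hx0.le] at h2
        linarith
      have h2 : ⌊Real.log x / Real.log (N p)⌋₊ ≤ 1 := by
        have : ⌊Real.log x / Real.log (N p)⌋₊ < 2 := by
          rw [Nat.floor_lt (by positivity)]
          exact_mod_cast h1
        omega
      have h3 : (⌊Real.log x / Real.log (N p)⌋₊ : ℝ) ≤ 1 := by exact_mod_cast h2
      rw [add_zero]
      exact mul_le_of_le_one_left hlogp.le h3
  have hA : ∑ p ∈ cheb_PB N x, Real.log (N p) ≤ C * x :=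
    hcheb x _ hx fun p hp => (cheb_mem_PB hN).mp hp
  have hB : ∑ p ∈ cheb_PB N x, (if (N p : ℝ) ≤ √x then Real.log x else 0) ≤
      C * (2 / Real.log 2) * x := by
    rw [← Finset.sum_filter, Finset.sum_const, nsmul_eq_mul]
    set F := (cheb_PB N x).filter (fun p => (N p : ℝ) ≤ √x) with hF
    have h1 : (F.card : ℝ) * Real.log 2 ≤ C * √x := by
      have h2 := hcheb (√x) F hsq1 (fun p hp => (Finset.mem_filter.mp hp).2)
      refine le_trans ?_ h2
      rw [← nsmul_eq_mul, ← Finset.sum_const]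
      refine Finset.sum_le_sum fun p _ => Real.log_le_log (by norm_num) ?_
      exact_mod_cast hN.two_le p
    have h3 : (F.card : ℝ) ≤ C * √x / Real.log 2 := by rwa [le_div_iff₀ hlog2]
    calc (F.card : ℝ) * Real.log x ≤ (C * √x / Real.log 2) * (2 * √x) :=
          mul_le_mul h3 hlogsq hlogx (by positivity)
      _ = C * (2 / Real.log 2) * (√x * √x) := by ring
      _ = _ := by rw [Real.mul_self_sqrt hx0.le]
  have hS := Finset.sum_le_sum hterm
  rw [Finset.sum_add_distrib] at hS
  have := cheb_sum_le hN hx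
  calc ∑ g ∈ ball N x, vM N g ≤ _ := this
    _ ≤ _ := hS
    _ ≤ C * x + C * (2 / Real.log 2) * x := add_le_add hA hB
    _ = _ := by ring

theorem mert_le_pr {N : P → ℕ} (hN : Good N) : ∃ C : ℝ, 0 ≤ C ∧ ∀ x : ℝ, 1 ≤ x →
    ∑ g ∈ ball N x, vM N g / nm N g ≤ C * (1 + Real.log x) := by
  classical
  obtain ⟨C, hC0, hC⟩ := psi_le_pr hN
  have hlog2 : 0 < Real.log 2 := Real.log_pos (by norm_num)
  have hlog21 : Real.log 2 ≤ 1 := by
    have := Real.log_le_sub_one_of_pos (x := 2) (by norm_num)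
    linarith
  refine ⟨2 * C / Real.log 2, by positivity, fun x hx => ?_⟩
  have hx0 : 0 < x := by linarith
  have hlogx : 0 ≤ Real.log x := Real.log_nonneg hx
  set J : ℕ := Nat.log 2 ⌊x⌋₊ with hJ
  have hfl1 : ⌊x⌋₊ ≠ 0 := by
    have : 1 ≤ ⌊x⌋₊ := Nat.le_floor (by simpa using hx)
    omega
  have hmaps : ∀ g ∈ ball N x, Nat.log 2 (nm N g) ∈ Finset.range (J + 1) := by
    intro g hg
    rw [mem_ball hN] at hg
    rw [Finset.mem_range, Nat.lt_succ_iff]
    exact Nat.log_mono_right (Nat.le_floor hg)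
  rw [← Finset.sum_fiberwise_of_maps_to hmaps]
  have hblock : ∀ j ∈ Finset.range (J + 1),
      ∑ g ∈ (ball N x).filter (fun g => Nat.log 2 (nm N g) = j), vM N g / nm N g ≤ 2 * C := by
    intro j _
    have h2j : (0 : ℝ) < 2 ^ j := by positivity
    have h2j1 : (1 : ℝ) ≤ 2 ^ (j + 1) := one_le_pow₀ (by norm_num)
    calc ∑ g ∈ (ball N x).filter (fun g => Nat.log 2 (nm N g) = j), vM N g / nm N g
        ≤ ∑ g ∈ (ball N x).filter (fun g => Nat.log 2 (nm N g) = j), vM N g / 2 ^ j := by
          refine Finset.sum_le_sum fun g hg => ?_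
          have hg2 := (Finset.mem_filter.mp hg).2
          have hpos := nm_pos hN.two_le g
          have h1 : 2 ^ j ≤ nm N g := by
            rw [← hg2]
            exact Nat.pow_log_le_self 2 hpos.ne'
          have h2 : (2 : ℝ) ^ j ≤ nm N g := by exact_mod_cast h1
          exact div_le_div_of_nonneg_left (cheb_vM_nonneg hN.two_le g) h2j h2
      _ ≤ ∑ g ∈ ball N ((2 : ℝ) ^ (j + 1)), vM N g / 2 ^ j := by
          apply Finset.sum_le_sum_of_subset_of_nonneg
          · intro g hg
            have hg2 := (Finset.mem_filter.mp hg).2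
            rw [mem_ball hN]
            have h1 : nm N g < 2 ^ (Nat.log 2 (nm N g) + 1) :=
              Nat.lt_pow_succ_log_self (by norm_num) _
            rw [hg2] at h1
            exact_mod_cast h1.le
          · intro g _ _
            exact div_nonneg (cheb_vM_nonneg hN.two_le g) h2j.le
      _ = (∑ g ∈ ball N ((2 : ℝ) ^ (j + 1)), vM N g) / 2 ^ j := (Finset.sum_div _ _ _).symm
      _ ≤ (C * 2 ^ (j + 1)) / 2 ^ j := div_le_div_of_nonneg_right (hC _ h2j1) h2j.le
      _ = 2 * C := by
          rw [pow_succ]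
          field_simp
  have hJlog : (J : ℝ) * Real.log 2 ≤ Real.log x := by
    rw [← Real.log_pow]
    apply Real.log_le_log (by positivity)
    have h1 : 2 ^ J ≤ ⌊x⌋₊ := Nat.pow_log_le_self 2 hfl1
    have h2 : ((2 ^ J : ℕ) : ℝ) ≤ ⌊x⌋₊ := by exact_mod_cast h1
    push_cast at h2
    exact h2.trans (Nat.floor_le hx0.le)
  calc _ ≤ ∑ j ∈ Finset.range (J + 1), 2 * C := Finset.sum_le_sum hblock
    _ = (J + 1) * (2 * C) := by
        rw [Finset.sum_const, Finset.card_range, nsmul_eq_mul]
        push_cast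
        ring
    _ ≤ (Real.log x / Real.log 2 + 1 / Real.log 2) * (2 * C) := by
        apply mul_le_mul_of_nonneg_right _ (by positivity)
        have h1 : (J : ℝ) ≤ Real.log x / Real.log 2 := by rwa [le_div_iff₀ hlog2]
        have h2 : 1 ≤ 1 / Real.log 2 := by rw [le_div_iff₀ hlog2]; linarith
        linarith
    _ = _ := by ring

end Pool.Agent.AS

namespace Pool.Agent.AS

theorem psi_le : type_of% @psi_le_pr := @psi_le_pr

theorem mert_le : type_of% @mert_le_pr := @mert_le_pr

end Pool.Agent.AS
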