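import Pool.Agent.Lib_helper24.AS.Defs
import Pool.Agent.Lib_helper92.ASA.BAS
import Pool.Agent.Lib_helper92.ASA.BFORM
import Pool.Agent.Lib_helper92.ASA.CHEB
import Pool.Agent.Lib_helper92.ASA.LOGA

/-!
# Block BSUM of MP_77948b_nt: mean square of the coefficients of `1 * β * β` on an abstract
arithmetic semigroup.
-/

namespace Pool.Agent.AS

open Complex MeasureTheory Filter Topology

variable {P : Type}

theorem bsum_nonneg {N : P → ℕ} (hN : ∀ p, 2 ≤ N p) (g : P →₀ ℕ) : 0 ≤ vM N g := by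
  unfold vM
  split_ifs
  · refine Finset.sum_nonneg fun p _ => Real.log_nonneg ?_
    exact_mod_cast (by have := hN p; omega : 1 ≤ N p)
  · exact le_rfl

theorem bsum_conv_nonneg {N : P → ℕ} (hN : ∀ p, 2 ≤ N p) (g : P →₀ ℕ) :
    0 ≤ (vM N * vM N : MvPowerSeries P ℝ) g := by
  classical
  rw [mul_app]
  exact Finset.sum_nonneg fun x _ => mul_nonneg (bsum_nonneg hN _) (bsum_nonneg hN _)

theorem bsum_le_log {N : P → ℕ} (hN : ∀ p, 2 ≤ N p) (g : P →₀ ℕ) :
    vM N g ≤ Real.log (nm N g) := by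
  classical
  rw [← one_mul_vM hN, mul_app]
  have h := Finset.single_le_sum (f := fun p : (P →₀ ℕ) × (P →₀ ℕ) =>
    (one : MvPowerSeries P ℝ) p.1 * vM N p.2)
    (s := Finset.HasAntidiagonal.antidiagonal g)
    (fun x _ => mul_nonneg (by simp [one]) (bsum_nonneg hN _))
    (Finset.HasAntidiagonal.mem_antidiagonal.2 (zero_add g) : ((0 : P →₀ ℕ), g) ∈ _)
  simpa [one] using h

theorem bsum_conv_le {N : P → ℕ} (hN : ∀ p, 2 ≤ N p) (g : P →₀ ℕ) :
    (vM N * vM N : MvPowerSeries P ℝ) g ≤ Real.log (nm N g) ^ 2 := by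
  classical
  rw [mul_app]
  have h1 : ∀ x ∈ Finset.HasAntidiagonal.antidiagonal g, vM N x.1 * vM N x.2 ≤
      (vM N x.1 * (one : MvPowerSeries P ℝ) x.2) * Real.log (nm N g) := by
    intro x hx
    have hx' := Finset.HasAntidiagonal.mem_antidiagonal.1 hx
    simp only [one, mul_one]
    apply mul_le_mul_of_nonneg_left _ (bsum_nonneg hN _)
    refine (bsum_le_log hN _).trans (Real.log_le_log ?_ ?_)
    · exact_mod_cast nm_pos hN _
    · exact_mod_cast nm_le hN (by rw [← hx']; exact le_add_of_nonneg_left zero_le)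
  refine le_trans (Finset.sum_le_sum h1) ?_
  rw [← Finset.sum_mul, ← mul_app, mul_comm (vM N) one, one_mul_vM hN, sq]

theorem bsum_conv {N : P → ℕ} (hN : Good N) : ∃ C : ℝ, 0 ≤ C ∧ ∀ x : ℝ, 1 ≤ x →
    ∑ g ∈ ball N x, (vM N * vM N : MvPowerSeries P ℝ) g ≤ C * x * (1 + Real.log x) := by
  classical
  obtain ⟨C₁, hC₁, h₁⟩ := psi_le hN
  obtain ⟨C₂, hC₂, h₂⟩ := mert_le hN
  refine ⟨C₁ * C₂, mul_nonneg hC₁ hC₂, fun x hx => ?_⟩
  have hx0 : 0 < x := by linarith
  have hpos : ∀ g : P →₀ ℕ, (0 : ℝ) < nm N g := fun g => by exact_mod_cast nm_pos hN.two_le g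
  have hone : ∀ g : P →₀ ℕ, (1 : ℝ) ≤ nm N g := fun g => by exact_mod_cast nm_pos hN.two_le g
  have key : ∑ g ∈ ball N x, (vM N * vM N : MvPowerSeries P ℝ) g =
      ∑ a ∈ ball N x, ∑ b ∈ ball N (x / nm N a), vM N a * vM N b := by
    simp_rw [mul_app]
    rw [Finset.sum_sigma', Finset.sum_sigma']
    refine Finset.sum_nbij' (fun z => ⟨z.2.1, z.2.2⟩) (fun z => ⟨z.1 + z.2, (z.1, z.2)⟩) ?_ ?_ ?_ ?_ ?_
    · rintro ⟨g, a, b⟩ hz
      simp only [Finset.mem_sigma, mem_ball hN, Finset.HasAntidiagonal.mem_antidiagonal] at hz ⊢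
      obtain ⟨h3, rfl⟩ := hz
      rw [nm_add] at h3
      push_cast at h3
      refine ⟨?_, ?_⟩
      · nlinarith [hpos a, hone b]
      · rw [le_div_iff₀ (hpos a)]
        linarith
    · rintro ⟨a, b⟩ hz
      simp only [Finset.mem_sigma, mem_ball hN, Finset.HasAntidiagonal.mem_antidiagonal] at hz ⊢
      have h4 := (le_div_iff₀ (hpos a)).1 hz.2
      refine ⟨?_, trivial⟩
      rw [nm_add]
      push_cast
      linarith
    · rintro ⟨g, a, b⟩ hz
      simp only [Finset.mem_sigma, mem_ball hN, Finset.HasAntidiagonal.mem_antidiagonal] at hz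
      obtain ⟨h3, rfl⟩ := hz
      rfl
    · rintro ⟨a, b⟩ hz
      rfl
    · rintro ⟨g, a, b⟩ hz
      rfl
  rw [key]
  calc ∑ a ∈ ball N x, ∑ b ∈ ball N (x / nm N a), vM N a * vM N b
      ≤ ∑ a ∈ ball N x, vM N a * (C₁ * (x / nm N a)) := by
        refine Finset.sum_le_sum fun a ha => ?_
        rw [← Finset.mul_sum]
        apply mul_le_mul_of_nonneg_left _ (bsum_nonneg hN.two_le _)
        refine h₁ _ ?_
        rw [le_div_iff₀ (hpos a), one_mul]
        exact (mem_ball hN).1 ha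
    _ = C₁ * x * ∑ a ∈ ball N x, vM N a / nm N a := by
        rw [Finset.mul_sum]
        refine Finset.sum_congr rfl fun a _ => by ring
    _ ≤ C₁ * x * (C₂ * (1 + Real.log x)) :=
        mul_le_mul_of_nonneg_left (h₂ x hx) (mul_nonneg hC₁ hx0.le)
    _ = C₁ * C₂ * x * (1 + Real.log x) := by ring

open scoped Classical in
theorem bb_sum_pr {N : P → ℕ} (hN : Good N) : ∃ C : ℝ, 0 ≤ C ∧ ∀ L x : ℝ, 1 ≤ L → 1 ≤ x →
    Real.log x ≤ L → ∑ g ∈ (ball N x).filter (fun g => g ≠ 0), bb N L g ^ 2 ≤ C * x / L := by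
  obtain ⟨C₁, hC₁, h₁⟩ := psi_le hN
  obtain ⟨C₂, hC₂, h₂⟩ := bsum_conv hN
  refine ⟨5 / 4 * (C₁ + C₂ / 2), by positivity, fun L x hL hx hxL => ?_⟩
  have hL0 : 0 < L := by linarith
  have hx0 : 0 < x := by linarith
  have hpos : ∀ g : P →₀ ℕ, (0 : ℝ) < nm N g := fun g => by exact_mod_cast nm_pos hN.two_le g
  have hone : ∀ g : P →₀ ℕ, (1 : ℝ) ≤ nm N g := fun g => by exact_mod_cast nm_pos hN.two_le g
  have h6 : ∀ g : P →₀ ℕ, 0 ≤ vM N g / L := fun g => div_nonneg (bsum_nonneg hN.two_le g) hL0.le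
  have h7 : ∀ g : P →₀ ℕ, 0 ≤ (vM N * vM N : MvPowerSeries P ℝ) g / (4 * L ^ 2) := fun g =>
    div_nonneg (bsum_conv_nonneg hN.two_le g) (by positivity)
  have hb : ∀ g ∈ (ball N x).filter (fun g => g ≠ 0), bb N L g ^ 2 ≤ 5 / 4 * (vM N g / L +
      (vM N * vM N : MvPowerSeries P ℝ) g / (4 * L ^ 2)) := by
    intro g hg
    obtain ⟨hg1, hg0⟩ := Finset.mem_filter.1 hg
    have hg2 := (mem_ball hN).1 hg1
    have h3 : Real.log (nm N g) ≤ L := (Real.log_le_log (hpos g) hg2).trans hxL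
    have h3' : 0 ≤ Real.log (nm N g) := Real.log_nonneg (hone g)
    rw [bb_eq hN.two_le hL0 hg0 h3]
    have h4 : vM N g / L ≤ 1 := (div_le_one hL0).2 ((bsum_le_log hN.two_le g).trans h3)
    have h5 : (vM N * vM N : MvPowerSeries P ℝ) g / (4 * L ^ 2) ≤ 1 / 4 := by
      rw [div_le_div_iff₀ (by positivity) (by norm_num)]
      have := bsum_conv_le hN.two_le g
      nlinarith
    have h6' := h6 g
    have h7' := h7 g
    nlinarith
  calc ∑ g ∈ (ball N x).filter (fun g => g ≠ 0), bb N L g ^ 2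
      ≤ ∑ g ∈ (ball N x).filter (fun g => g ≠ 0), 5 / 4 * (vM N g / L +
        (vM N * vM N : MvPowerSeries P ℝ) g / (4 * L ^ 2)) := Finset.sum_le_sum hb
    _ ≤ ∑ g ∈ ball N x, 5 / 4 * (vM N g / L +
        (vM N * vM N : MvPowerSeries P ℝ) g / (4 * L ^ 2)) := by
        refine Finset.sum_le_sum_of_subset_of_nonneg (Finset.filter_subset _ _) fun g _ _ => ?_
        have h6' := h6 g
        have h7' := h7 g
        positivity
    _ = 5 / 4 * ((∑ g ∈ ball N x, vM N g) / L +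
        (∑ g ∈ ball N x, (vM N * vM N : MvPowerSeries P ℝ) g) / (4 * L ^ 2)) := by
        rw [← Finset.mul_sum, Finset.sum_add_distrib, Finset.sum_div, Finset.sum_div]
    _ ≤ 5 / 4 * (C₁ * x / L + C₂ * x * (2 * L) / (4 * L ^ 2)) := by
        have h8 := h₁ x hx
        have h9 := h₂ x hx
        have h10 : C₂ * x * (1 + Real.log x) ≤ C₂ * x * (2 * L) := by
          apply mul_le_mul_of_nonneg_left _ (by positivity)
          linarith
        gcongr
        exact h9.trans h10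
    _ = 5 / 4 * (C₁ + C₂ / 2) * x / L := by
        field_simp
        ring

end Pool.Agent.AS

namespace Pool.Agent.AS

theorem bb_sum : type_of% @bb_sum_pr := @bb_sum_pr

end Pool.Agent.AS
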