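import Pool.Agent.Lib_helper24.AS.Defs
import Pool.Agent.Lib_helper92.ASA.BAS

/-!
# Block DIAGN: the diagonal is nonnegative
-/

namespace Pool.Agent.AS

open Complex MeasureTheory Filter Topology

variable {P : Type}

theorem DIAGN_kern_summable {N : P → ℕ} (hN : Good N) {k : ℝ → ℝ} {ρ : ℝ} (hk : Kern N k ρ)
    (w : ℝ) : Summable (fun g : P →₀ ℕ => k (w + Real.log (nm N g))) := by
  obtain ⟨C, hC⟩ := hk.decay 2 two_pos
  have hs := (hN.summable 1 one_pos).mul_left (C * Real.exp (-(2 * w)))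
  refine Summable.of_nonneg_of_le (fun g => hk.nonneg _) (fun g => ?_) hs
  refine (hC _).trans (le_of_eq ?_)
  have hpos : (0 : ℝ) < nm N g := by exact_mod_cast nm_pos hN.two_le g
  rw [Real.rpow_def_of_pos hpos, mul_assoc, ← Real.exp_add]
  congr 2
  ring

theorem DIAGN_WW_summable {N : P → ℕ} (hN : Good N) {k : ℝ → ℝ} {ρ : ℝ} (hk : Kern N k ρ)
    (Q : Finset P) (w : ℝ) [∀ g : P →₀ ℕ, Decidable (Cop Q g)] :
    Summable (fun g : P →₀ ℕ => if Cop Q g then k (w + Real.log (nm N g)) else 0) := by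
  refine Summable.of_nonneg_of_le (fun g => ?_) (fun g => ?_) (DIAGN_kern_summable hN hk w)
  · split_ifs
    · exact hk.nonneg _
    · exact le_rfl
  · split_ifs
    · exact le_rfl
    · exact hk.nonneg _

/-- The inclusion of the semigroup in its group. -/
noncomputable def DIAGN_io (g : P →₀ ℕ) : P →₀ ℤ := g.mapRange (fun n : ℕ => (n : ℤ)) rfl

theorem DIAGN_io_apply (g : P →₀ ℕ) (p : P) : DIAGN_io g p = (g p : ℤ) := by
  unfold DIAGN_io
  exact Finsupp.mapRange_apply (hf := rfl)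

/-- The logarithm of the norm on the group. -/
noncomputable def DIAGN_ell (N : P → ℕ) : (P →₀ ℤ) →ₗ[ℤ] ℝ :=
  Finsupp.linearCombination ℤ fun p => Real.log (N p)

theorem DIAGN_ell_io {N : P → ℕ} (hN : ∀ p, 2 ≤ N p) (g : P →₀ ℕ) :
    DIAGN_ell N (DIAGN_io g) = Real.log (nm N g) := by
  unfold DIAGN_ell DIAGN_io nm
  rw [Finsupp.linearCombination_apply,
    Finsupp.sum_mapRange_index (h := fun i (a : ℤ) => a • Real.log (N i))
      (fun p => zero_smul _ _),
    Finsupp.prod, Nat.cast_prod, Real.log_prod, Finsupp.sum]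
  · refine Finset.sum_congr rfl fun p _ => ?_
    rw [Nat.cast_pow, Real.log_pow]
    simp
  · intro p _
    have := hN p
    positivity

/-- `A j.2 / j.1` is an element of the semigroup coprime to `Q`. -/
def DIAGN_P (Q : Finset P) (j : (P →₀ ℕ) × (P →₀ ℕ)) (A : P →₀ ℤ) : Prop :=
  ∃ n : P →₀ ℕ, Cop Q n ∧ ∀ p, A p + (j.2 p : ℤ) = n p + j.1 p

theorem DIAGN_gg_apply (j j' : (P →₀ ℕ) × (P →₀ ℕ)) (p : P) :
    gg j j' p = min (j.1 p + j'.2 p) (j'.1 p + j.2 p) := by
  unfold gg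
  rw [Finsupp.inf_apply, Finsupp.add_apply, Finsupp.add_apply]

/-- The key bijection. -/
theorem DIAGN_iff {Q : Finset P} {j j' : (P →₀ ℕ) × (P →₀ ℕ)} (hq : Cop Q j.1 ∧ Cop Q j.2)
    (hq' : Cop Q j'.1 ∧ Cop Q j'.2) (A : P →₀ ℤ) :
    (DIAGN_P Q j A ∧ DIAGN_P Q j' A) ↔
      ∃ m : P →₀ ℕ, Cop Q m ∧
        A = DIAGN_io m + DIAGN_io j.1 + DIAGN_io j'.1 - DIAGN_io (gg j j') := by
  constructor
  · rintro ⟨⟨n, hn, hnr⟩, ⟨n', hn', hnr'⟩⟩
    have hle : ∀ p, (j'.1 + j.2) p - gg j j' p ≤ n p := by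
      intro p
      have h1 := hnr p
      have h2 := hnr' p
      have h3 := DIAGN_gg_apply j j' p
      rw [Finsupp.add_apply]
      omega
    refine ⟨n - (j'.1 + j.2 - gg j j'), fun p hp => ?_, ?_⟩
    · rw [Finsupp.tsub_apply, hn p hp, Nat.zero_sub]
    · ext p
      have h1 := hnr p
      have h2 := hnr' p
      have h3 := DIAGN_gg_apply j j' p
      have h4 := hle p
      rw [Finsupp.sub_apply, Finsupp.add_apply, Finsupp.add_apply, DIAGN_io_apply, DIAGN_io_apply,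
        DIAGN_io_apply, DIAGN_io_apply, Finsupp.tsub_apply, Finsupp.tsub_apply]
      rw [Finsupp.add_apply] at h4 ⊢
      omega
  · rintro ⟨m, hm, rfl⟩
    refine ⟨⟨m + (j'.1 + j.2 - gg j j'), fun p hp => ?_, fun p => ?_⟩,
      ⟨m + (j.1 + j'.2 - gg j j'), fun p hp => ?_, fun p => ?_⟩⟩
    · have h1 := hm p hp
      have h2 := hq.2 p hp
      have h3 := hq'.1 p hp
      rw [Finsupp.add_apply, Finsupp.tsub_apply, Finsupp.add_apply]
      omega
    · have h3 := DIAGN_gg_apply j j' p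
      rw [Finsupp.sub_apply, Finsupp.add_apply, Finsupp.add_apply, DIAGN_io_apply, DIAGN_io_apply,
        DIAGN_io_apply, DIAGN_io_apply, Finsupp.add_apply, Finsupp.tsub_apply, Finsupp.add_apply]
      omega
    · have h1 := hm p hp
      have h2 := hq.1 p hp
      have h3 := hq'.2 p hp
      rw [Finsupp.add_apply, Finsupp.tsub_apply, Finsupp.add_apply]
      omega
    · have h3 := DIAGN_gg_apply j j' p
      rw [Finsupp.sub_apply, Finsupp.add_apply, Finsupp.add_apply, DIAGN_io_apply, DIAGN_io_apply,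
        DIAGN_io_apply, DIAGN_io_apply, Finsupp.add_apply, Finsupp.tsub_apply, Finsupp.add_apply]
      omega

open Classical in
/-- The diagonal term as a sum over the group. -/
theorem DIAGN_term {N : P → ℕ} (hN : Good N) {k : ℝ → ℝ} {ρ : ℝ} (hk : Kern N k ρ)
    {Q : Finset P} (u : ℝ) {j j' : (P →₀ ℕ) × (P →₀ ℕ)} (hq : Cop Q j.1 ∧ Cop Q j.2)
    (hq' : Cop Q j'.1 ∧ Cop Q j'.2) :
    HasSum (fun A : P →₀ ℤ => if DIAGN_P Q j A ∧ DIAGN_P Q j' A then
        k (u + DIAGN_ell N A) else 0)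
      (WW N k Q (u + Real.log ((nm N j.1 : ℝ) * nm N j'.1 / nm N (gg j j')))) := by
  have hpos : ∀ g : P →₀ ℕ, (nm N g : ℝ) ≠ 0 := fun g => by
    have := nm_pos hN.two_le g
    positivity
  set g : (P →₀ ℕ) → (P →₀ ℤ) := fun m =>
    DIAGN_io m + DIAGN_io j.1 + DIAGN_io j'.1 - DIAGN_io (gg j j') with hgdef
  have hinj : Function.Injective g := by
    intro m m' h
    ext p
    have h2 := DFunLike.congr_fun h p
    simp only [hgdef, Finsupp.sub_apply, Finsupp.add_apply, DIAGN_io_apply] at h2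
    omega
  have hs := (DIAGN_WW_summable hN hk Q
    (u + Real.log ((nm N j.1 : ℝ) * nm N j'.1 / nm N (gg j j')))).hasSum
  have hcomp : (fun A : P →₀ ℤ => if DIAGN_P Q j A ∧ DIAGN_P Q j' A then
        k (u + DIAGN_ell N A) else 0) ∘ g
      = fun m : P →₀ ℕ => if Cop Q m then
        k (u + Real.log ((nm N j.1 : ℝ) * nm N j'.1 / nm N (gg j j')) +
          Real.log (nm N m)) else 0 := by
    funext m
    simp only [Function.comp]
    have hiff : (DIAGN_P Q j (g m) ∧ DIAGN_P Q j' (g m)) ↔ Cop Q m := by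
      rw [DIAGN_iff hq hq']
      constructor
      · rintro ⟨m', hm', he⟩
        have : g m = g m' := he
        rw [hinj this]; exact hm'
      · intro hm
        exact ⟨m, hm, rfl⟩
    have harg : u + DIAGN_ell N (g m) =
        u + Real.log ((nm N j.1 : ℝ) * nm N j'.1 / nm N (gg j j')) + Real.log (nm N m) := by
      simp only [hgdef, map_add, map_sub, DIAGN_ell_io hN.two_le]
      rw [Real.log_div (mul_ne_zero (hpos _) (hpos _)) (hpos _),
        Real.log_mul (hpos _) (hpos _)]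
      ring
    by_cases hm : Cop Q m
    · rw [if_pos (hiff.mpr hm), if_pos hm, harg]
    · rw [if_neg (fun h => hm (hiff.mp h)), if_neg hm]
  have hout : ∀ x ∉ Set.range g, (fun A : P →₀ ℤ => if DIAGN_P Q j A ∧ DIAGN_P Q j' A then
        k (u + DIAGN_ell N A) else 0) x = 0 := by
    intro x hx
    have : ¬ (DIAGN_P Q j x ∧ DIAGN_P Q j' x) := by
      rw [DIAGN_iff hq hq']
      rintro ⟨m, -, he⟩
      exact hx ⟨m, he.symm⟩
    simp only [if_neg this]
  rw [← Function.Injective.hasSum_iff hinj hout, hcomp]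
  exact hs

theorem diag_nonneg_pr {N : P → ℕ} (hN : Good N) {k : ℝ → ℝ} {ρ : ℝ} (hk : Kern N k ρ) (L : ℝ)
    (Q : Finset P) (u : ℝ) : 0 ≤ Diag N k L Q u := by
  classical
  have hJ : ∀ j ∈ JJ N L Q, Cop Q j.1 ∧ Cop Q j.2 := by
    intro j hj
    unfold JJ at hj
    exact (Finset.mem_filter.mp hj).2
  unfold Diag
  refine mul_nonneg (Real.exp_pos _).le ?_
  have hsum : HasSum (fun A : P →₀ ℤ => ∑ j ∈ JJ N L Q, ∑ j' ∈ JJ N L Q, cc N L j * cc N L j' *
      (if DIAGN_P Q j A ∧ DIAGN_P Q j' A then k (u + DIAGN_ell N A) else 0))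
      (∑ j ∈ JJ N L Q, ∑ j' ∈ JJ N L Q, cc N L j * cc N L j' *
        WW N k Q (u + Real.log ((nm N j.1 : ℝ) * nm N j'.1 / nm N (gg j j')))) := by
    refine hasSum_sum fun j hj => hasSum_sum fun j' hj' => ?_
    exact (DIAGN_term hN hk u (hJ j hj) (hJ j' hj')).mul_left _
  rw [← hsum.tsum_eq]
  refine tsum_nonneg fun A => ?_
  have hsq : ∑ j ∈ JJ N L Q, ∑ j' ∈ JJ N L Q, cc N L j * cc N L j' *
      (if DIAGN_P Q j A ∧ DIAGN_P Q j' A then k (u + DIAGN_ell N A) else 0) =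
      k (u + DIAGN_ell N A) *
        (∑ j ∈ JJ N L Q, (if DIAGN_P Q j A then cc N L j else 0)) ^ 2 := by
    rw [sq (∑ j ∈ JJ N L Q, (if DIAGN_P Q j A then cc N L j else 0)),
      Finset.sum_mul_sum, Finset.mul_sum]
    refine Finset.sum_congr rfl fun j _ => ?_
    rw [Finset.mul_sum]
    refine Finset.sum_congr rfl fun j' _ => ?_
    by_cases ha : DIAGN_P Q j A <;> by_cases hb : DIAGN_P Q j' A <;> simp [ha, hb]
    ring
  rw [hsq]
  exact mul_nonneg (hk.nonneg _) (sq_nonneg _)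

end Pool.Agent.AS

namespace Pool.Agent.AS

theorem diag_nonneg : type_of% @diag_nonneg_pr := @diag_nonneg_pr

end Pool.Agent.AS
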