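import Pool.Agent.Lib_helper24.AS.Defs
import Pool.Agent.Lib_helper92.ASA.BAS

set_option autoImplicit false

namespace Pool.Agent.AS

open Finset

variable {P : Type}

theorem rsum1_summable {N : P → ℕ} (hN : Good N) {σ : ℝ} (hσ : 0 < σ) :
    Summable (fun g : P →₀ ℕ => (nm N g : ℝ) ^ (-1 - σ)) := by
  have h := hN.summable σ hσ
  have h1 : (-(1 + σ)) = -1 - σ := by ring
  rwa [h1] at h

theorem rsum1_summable_ite {N : P → ℕ} (hN : Good N) {σ : ℝ} (hσ : 0 < σ)
    (p : (P →₀ ℕ) → Prop) [DecidablePred p] :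
    Summable (fun g : P →₀ ℕ => if p g then (nm N g : ℝ) ^ (-1 - σ) else 0) := by
  refine Summable.of_nonneg_of_le (fun m => ?_) (fun m => ?_) (rsum1_summable hN hσ)
  · split_ifs
    · exact Real.rpow_nonneg (Nat.cast_nonneg _) _
    · exact le_refl _
  · split_ifs
    · exact le_refl _
    · exact Real.rpow_nonneg (Nat.cast_nonneg _) _

open scoped Classical in
theorem rsum1_sieve {N : P → ℕ} (hN : Good N) {σ : ℝ} (hσ : 0 < σ) (Q : Finset P) :
    ∑' g : P →₀ ℕ, (if Cop Q g then (nm N g : ℝ) ^ (-1 - σ) else 0) =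
      (∏ p ∈ Q, (1 - (N p : ℝ) ^ (-1 - σ))) * ∑' g : P →₀ ℕ, (nm N g : ℝ) ^ (-1 - σ) := by
  induction Q using Finset.induction_on with
  | empty => simp [Cop]
  | insert a Q ha ih =>
    set F : (P →₀ ℕ) → ℝ := fun g => if Cop Q g then (nm N g : ℝ) ^ (-1 - σ) else 0 with hF
    have hFs : Summable F := rsum1_summable_ite hN hσ _
    have hGs : Summable (fun g : P →₀ ℕ => if g a ≠ 0 then F g else 0) := by
      refine Summable.of_nonneg_of_le (fun m => ?_) (fun m => ?_) hFs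
      · simp only [hF]
        split_ifs
        · exact Real.rpow_nonneg (Nat.cast_nonneg _) _
        · exact le_refl _
        · exact le_refl _
      · simp only [hF]
        split_ifs
        · exact le_refl _
        · exact le_refl _
        · exact Real.rpow_nonneg (Nat.cast_nonneg _) _
        · exact le_refl _
    have h1 : (fun g : P →₀ ℕ => if Cop (insert a Q) g then (nm N g : ℝ) ^ (-1 - σ) else 0) =
        fun g => F g - (if g a ≠ 0 then F g else 0) := by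
      funext g
      simp only [hF, Cop, Finset.forall_mem_insert]
      by_cases h : g a = 0
      · simp [h]
      · simp [h]
    have h2 : ∑' g : P →₀ ℕ, (if g a ≠ 0 then F g else 0) =
        (N a : ℝ) ^ (-1 - σ) * ∑' g : P →₀ ℕ, F g := by
      have hinj : Function.Injective (fun k : P →₀ ℕ => Finsupp.single a 1 + k) :=
        add_right_injective _
      have h3 : Function.support (fun g : P →₀ ℕ => if g a ≠ 0 then F g else 0) ⊆
          Set.range (fun k : P →₀ ℕ => Finsupp.single a 1 + k) := by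
        intro g hg
        have hga : g a ≠ 0 := by
          by_contra h4
          apply hg
          simp [h4]
        refine ⟨g - Finsupp.single a 1, ?_⟩
        show Finsupp.single a 1 + (g - Finsupp.single a 1) = g
        refine add_tsub_cancel_of_le ?_
        rw [Finsupp.single_le_iff]
        omega
      rw [← hinj.tsum_eq h3, ← tsum_mul_left]
      congr 1
      funext k
      have h5 : (Finsupp.single a 1 + k : P →₀ ℕ) a ≠ 0 := by
        rw [Finsupp.add_apply, Finsupp.single_eq_same]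
        omega
      rw [if_pos h5]
      simp only [hF]
      have h6 : Cop Q (Finsupp.single a 1 + k) ↔ Cop Q k := by
        refine forall₂_congr (fun p hp => ?_)
        have hne : a ≠ p := fun h => ha (h ▸ hp)
        rw [Finsupp.add_apply, Finsupp.single_eq_of_ne' hne, zero_add]
      by_cases h7 : Cop Q k
      · rw [if_pos (h6.mpr h7), if_pos h7, nm_add, nm_single, pow_one]
        push_cast
        rw [Real.mul_rpow (Nat.cast_nonneg _) (Nat.cast_nonneg _)]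
      · rw [if_neg (fun h => h7 (h6.mp h)), if_neg h7, mul_zero]
    rw [h1, hFs.tsum_sub hGs, h2, Finset.prod_insert ha, ih]
    ring

theorem rsum1_factor {σ : ℝ} (hσ : 0 < σ) {p : ℕ} (hp : 2 ≤ p) :
    1 - (p : ℝ) ^ (-1 - σ) ≤ (1 - (p : ℝ)⁻¹) * (p : ℝ) ^ σ := by
  have hp2 : (2 : ℝ) ≤ p := by exact_mod_cast hp
  have hp0 : (0 : ℝ) < p := by linarith
  set a : ℝ := (p : ℝ) ^ σ with ha
  have ha1 : 1 ≤ a := Real.one_le_rpow (by linarith) hσ.le
  have ha0 : 0 < a := by linarith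
  have h1 : (p : ℝ) ^ (-1 - σ) = (p : ℝ)⁻¹ * a⁻¹ := by
    rw [show (-1 - σ : ℝ) = -1 + -σ by ring, Real.rpow_add hp0, Real.rpow_neg_one,
      Real.rpow_neg hp0.le]
  rw [h1]
  have h2 : (1 - (p : ℝ)⁻¹) * a - (1 - (p : ℝ)⁻¹ * a⁻¹) =
      (a - 1) * (p * a - (a + 1)) * ((p : ℝ)⁻¹ * a⁻¹) := by
    field_simp
    ring
  have h3 : 0 ≤ (a - 1) * (p * a - (a + 1)) * ((p : ℝ)⁻¹ * a⁻¹) := by
    refine mul_nonneg (mul_nonneg (by linarith) ?_) (by positivity)
    nlinarith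
  linarith

theorem rsum1_ph_nonneg {N : P → ℕ} (hN : ∀ p, 2 ≤ N p) (Q : Finset P) : 0 < ph N Q := by
  refine Finset.prod_pos fun p _ => ?_
  have h2 : (2 : ℝ) ≤ N p := by exact_mod_cast hN p
  have h3 : ((N p : ℝ))⁻¹ ≤ 2⁻¹ := inv_anti₀ (by norm_num) h2
  norm_num at h3 ⊢
  linarith

theorem rsum1_prod_le {N : P → ℕ} (hN : ∀ p, 2 ≤ N p) (Q : Finset P) {σ : ℝ} (hσ : 0 < σ) :
    ∏ p ∈ Q, (1 - (N p : ℝ) ^ (-1 - σ)) ≤
      ph N Q * Real.exp (σ * ∑ p ∈ Q, Real.log (N p)) := by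
  have h1 : ∏ p ∈ Q, (1 - (N p : ℝ) ^ (-1 - σ)) ≤
      ∏ p ∈ Q, ((1 - (N p : ℝ)⁻¹) * (N p : ℝ) ^ σ) := by
    refine Finset.prod_le_prod (fun p hp => ?_) (fun p hp => ?_)
    · have hp1 : (1 : ℝ) ≤ N p := by exact_mod_cast (by linarith [hN p] : 1 ≤ N p)
      have := Real.rpow_le_one_of_one_le_of_nonpos hp1 (by linarith : -1 - σ ≤ 0)
      linarith
    · exact rsum1_factor hσ (hN p)
  refine h1.trans (le_of_eq ?_)
  rw [Finset.prod_mul_distrib]
  unfold ph
  congr 1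
  rw [Finset.mul_sum, Real.exp_sum]
  refine Finset.prod_congr rfl fun p _ => ?_
  have hp0 : (0 : ℝ) < N p := by exact_mod_cast (by linarith [hN p] : 0 < N p)
  rw [Real.rpow_def_of_pos hp0, mul_comm]

open scoped Classical in
theorem rsum1_pr {N : P → ℕ} (hN : Good N) : ∃ C : ℝ, 0 ≤ C ∧ ∀ (Q : Finset P) (σ : ℝ), 0 < σ →
    σ ≤ 3 → Summable (fun g : P →₀ ℕ => if Cop Q g then (nm N g : ℝ) ^ (-1 - σ) else 0) ∧
      ∑' g : P →₀ ℕ, (if Cop Q g then (nm N g : ℝ) ^ (-1 - σ) else 0) ≤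
        C / σ * ph N Q * Real.exp (σ * ∑ p ∈ Q, Real.log (N p)) := by
  obtain ⟨C, hC⟩ := hN.upper
  have hC0 : 0 ≤ C := by
    have h1 := hC 1 one_pos (by norm_num)
    rw [div_one] at h1
    exact le_trans (tsum_nonneg fun g => Real.rpow_nonneg (Nat.cast_nonneg _) _) h1
  refine ⟨C, hC0, fun Q σ hσ hσ3 => ⟨rsum1_summable_ite hN hσ _, ?_⟩⟩
  rw [rsum1_sieve hN hσ]
  have h2 : 0 ≤ ∑' g : P →₀ ℕ, (nm N g : ℝ) ^ (-1 - σ) :=
    tsum_nonneg (fun m => Real.rpow_nonneg (Nat.cast_nonneg _) _)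
  have h3 : ∑' g : P →₀ ℕ, (nm N g : ℝ) ^ (-1 - σ) ≤ C / σ := by
    have h4 := hC σ hσ hσ3
    have h1 : (-(1 + σ)) = -1 - σ := by ring
    rwa [h1] at h4
  have h5 : 0 ≤ ph N Q * Real.exp (σ * ∑ p ∈ Q, Real.log (N p)) :=
    mul_nonneg (rsum1_ph_nonneg hN.two_le Q).le (Real.exp_pos _).le
  calc (∏ p ∈ Q, (1 - (N p : ℝ) ^ (-1 - σ))) * ∑' g : P →₀ ℕ, (nm N g : ℝ) ^ (-1 - σ)
      ≤ (ph N Q * Real.exp (σ * ∑ p ∈ Q, Real.log (N p))) *
        ∑' g : P →₀ ℕ, (nm N g : ℝ) ^ (-1 - σ) :=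
        mul_le_mul_of_nonneg_right (rsum1_prod_le hN.two_le Q hσ) h2
    _ ≤ (ph N Q * Real.exp (σ * ∑ p ∈ Q, Real.log (N p))) * (C / σ) :=
        mul_le_mul_of_nonneg_left h3 h5
    _ = _ := by ring

end Pool.Agent.AS

namespace Pool.Agent.AS

theorem rsum1 : type_of% @rsum1_pr := @rsum1_pr

end Pool.Agent.AS
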