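import Pool.Agent.Lib_helper24.AS.Defs
import Pool.Agent.Lib_helper92.ASA.BAS

/-! Block JT (helper55). -/

namespace Pool.Agent.AS

open Complex MeasureTheory Filter Topology

variable {P : Type}

theorem Jt_nonneg_pr {N : P → ℕ} (hN : ∀ p, 2 ≤ N p) {s : ℝ} (hs : 0 ≤ s) (r : P →₀ ℕ) :
    0 ≤ Jt N s r := by
  unfold Jt
  refine Finset.prod_nonneg fun p _ => ?_
  have h1 : (1 : ℝ) ≤ N p := by
    have := hN p
    exact_mod_cast (by omega : 1 ≤ N p)
  rw [sub_nonneg]
  refine Real.rpow_le_rpow_of_exponent_le h1 ?_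
  have : (r p : ℝ) - 1 ≤ r p := by linarith
  exact mul_le_mul_of_nonneg_right this (by linarith)

/-- The factor of `Jt` at a prime. -/
noncomputable def jt_f (N : P → ℕ) (s : ℝ) (p : P) (k : ℕ) : ℝ :=
  if k = 0 then 1 else (N p : ℝ) ^ ((k : ℝ) * (1 + s)) - (N p : ℝ) ^ (((k : ℝ) - 1) * (1 + s))

theorem jt_prod (N : P → ℕ) (s : ℝ) (r : P →₀ ℕ) : Jt N s r = r.prod (jt_f N s) := by
  unfold Jt Finsupp.prod
  refine Finset.prod_congr rfl fun p hp => ?_
  rw [Finsupp.mem_support_iff] at hp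
  unfold jt_f
  rw [if_neg hp]

theorem jt_add (N : P → ℕ) (s : ℝ) (p : P) (k : ℕ) (c : P →₀ ℕ) (hc : c p = 0) :
    Jt N s (Finsupp.single p k + c) = jt_f N s p k * Jt N s c := by
  classical
  have hpc : p ∉ c.support := by simp [hc]
  rw [jt_prod, jt_prod, Finsupp.prod_add_index_of_disjoint, Finsupp.prod_single_index]
  · simp [jt_f]
  · rw [Finset.disjoint_left]
    intro q hq
    have hq' := Finsupp.support_single_subset hq
    rw [Finset.mem_singleton] at hq'
    rw [hq']
    exact hpc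

theorem jt_tele {N : P → ℕ} (hN : ∀ p, 2 ≤ N p) (s : ℝ) (p : P) (b : ℕ) :
    ∑ k ∈ Finset.range (b + 1), jt_f N s p k = ((N p ^ b : ℕ) : ℝ) ^ (1 + s) := by
  have hp : (0 : ℝ) ≤ N p := Nat.cast_nonneg _
  induction b with
  | zero => simp [jt_f]
  | succ b ih =>
    rw [Finset.sum_range_succ, ih]
    unfold jt_f
    rw [if_neg (Nat.succ_ne_zero b)]
    have h1 : ((N p ^ b : ℕ) : ℝ) ^ (1 + s) = (N p : ℝ) ^ ((((b + 1 : ℕ) : ℝ) - 1) * (1 + s)) := by
      push_cast
      rw [add_sub_cancel_right, Real.rpow_mul hp, Real.rpow_natCast]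
    have h2 : ((N p ^ (b + 1) : ℕ) : ℝ) ^ (1 + s) = (N p : ℝ) ^ (((b + 1 : ℕ) : ℝ) * (1 + s)) := by
      rw [Real.rpow_mul hp, Real.rpow_natCast, Nat.cast_pow]
    rw [h1, h2]
    ring

theorem jt_split [DecidableEq P] (p : P) (b : ℕ) (f : P →₀ ℕ) (hf : f p = 0)
    (F : (P →₀ ℕ) → ℝ) :
    ∑ r ∈ Finset.Iic (Finsupp.single p b + f), F r =
      ∑ k ∈ Finset.range (b + 1), ∑ c ∈ Finset.Iic f, F (Finsupp.single p k + c) := by
  rw [← Finset.sum_product']
  symm
  refine Finset.sum_nbij' (fun x => Finsupp.single p x.1 + x.2) (fun r => (r p, r.erase p))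
    ?_ ?_ ?_ ?_ ?_
  · intro x hx
    rw [Finset.mem_product, Finset.mem_range, Finset.mem_Iic] at hx
    rw [Finset.mem_Iic]
    refine add_le_add ?_ hx.2
    exact Finsupp.single_le_single.mpr (by omega)
  · intro r hr
    rw [Finset.mem_Iic] at hr
    rw [Finset.mem_product, Finset.mem_range, Finset.mem_Iic]
    refine ⟨?_, ?_⟩
    · have := hr p
      rw [Finsupp.add_apply, Finsupp.single_eq_same, hf] at this
      show r p < b + 1
      omega
    · intro q
      show (r.erase p) q ≤ f q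
      rcases eq_or_ne q p with rfl | hq
      · rw [Finsupp.erase_same]; exact Nat.zero_le _
      · rw [Finsupp.erase_ne hq]
        have := hr q
        rw [Finsupp.add_apply, Finsupp.single_eq_of_ne hq, zero_add] at this
        exact this
  · intro x hx
    rw [Finset.mem_product, Finset.mem_range, Finset.mem_Iic] at hx
    have h0 : x.2 p = 0 := by
      have := hx.2 p
      rw [hf] at this
      omega
    refine Prod.ext ?_ ?_
    · show (Finsupp.single p x.1 + x.2) p = x.1
      rw [Finsupp.add_apply, Finsupp.single_eq_same, h0, add_zero]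
    · show (Finsupp.single p x.1 + x.2).erase p = x.2
      ext q
      rcases eq_or_ne q p with rfl | hq
      · rw [Finsupp.erase_same, h0]
      · rw [Finsupp.erase_ne hq, Finsupp.add_apply, Finsupp.single_eq_of_ne hq, zero_add]
  · intro r _
    show Finsupp.single p (r p) + r.erase p = r
    exact Finsupp.single_add_erase p r
  · intro x _
    rfl

theorem Jt_sum_pr [DecidableEq P] {N : P → ℕ} (hN : ∀ p, 2 ≤ N p) {s : ℝ} (g : P →₀ ℕ) :
    ∑ r ∈ Finset.Iic g, Jt N s r = (nm N g : ℝ) ^ (1 + s) := by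
  induction g using Finsupp.induction with
  | zero =>
    have : Finset.Iic (0 : P →₀ ℕ) = {0} := by
      ext r
      simp
    rw [this, Finset.sum_singleton, nm_zero]
    simp [Jt]
  | single_add p b f hp hb ih =>
    have hf : f p = 0 := by simpa using hp
    rw [jt_split p b f hf]
    have h1 : ∀ k ∈ Finset.range (b + 1), ∑ c ∈ Finset.Iic f, Jt N s (Finsupp.single p k + c) =
        jt_f N s p k * (nm N f : ℝ) ^ (1 + s) := by
      intro k _
      rw [← ih, Finset.mul_sum]
      refine Finset.sum_congr rfl fun c hc => ?_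
      rw [Finset.mem_Iic] at hc
      refine jt_add N s p k c ?_
      have := hc p
      rw [hf] at this
      omega
    rw [Finset.sum_congr rfl h1, ← Finset.sum_mul, jt_tele hN, nm_add, nm_single, Nat.cast_mul,
      Real.mul_rpow (Nat.cast_nonneg _) (Nat.cast_nonneg _)]

theorem Jt_le_pr {N : P → ℕ} (hN : ∀ p, 2 ≤ N p) {s : ℝ} (hs : 0 ≤ s) (r : P →₀ ℕ) :
    Jt N s r ≤ (nm N r : ℝ) ^ (1 + s) := by
  classical
  rw [← Jt_sum_pr hN r]
  exact Finset.single_le_sum (f := fun r => Jt N s r) (fun i _ => Jt_nonneg_pr hN hs i)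
    (Finset.mem_Iic.mpr le_rfl)

end Pool.Agent.AS

namespace Pool.Agent.AS

theorem Jt_nonneg : type_of% @Jt_nonneg_pr := @Jt_nonneg_pr

theorem Jt_le : type_of% @Jt_le_pr := @Jt_le_pr

theorem Jt_sum : type_of% @Jt_sum_pr := @Jt_sum_pr

end Pool.Agent.AS
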