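import Pool.Agent.Lib_helper24.AS.Defs
import Pool.Agent.Lib_helper92.ASA.BAS

set_option autoImplicit false

namespace Pool.Agent.AS

open Finset

variable {P : Type}

/-- the squarefree element with the primes of `S` -/
noncomputable def rsum2_ind (S : Finset P) : P →₀ ℕ := ∑ p ∈ S, Finsupp.single p 1

theorem rsum2_ind_apply [DecidableEq P] (S : Finset P) (p : P) :
    rsum2_ind S p = if p ∈ S then 1 else 0 := by
  unfold rsum2_ind
  rw [Finsupp.finsetSum_apply]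
  simp [Finsupp.single_apply]

theorem rsum2_nm_ind (N : P → ℕ) (S : Finset P) : nm N (rsum2_ind S) = ∏ p ∈ S, N p := by
  classical
  induction S using Finset.induction_on with
  | empty => simp [rsum2_ind, nm_zero]
  | insert a S ha ih =>
    have h : rsum2_ind (insert a S) = Finsupp.single a 1 + rsum2_ind S := by
      unfold rsum2_ind
      rw [Finset.sum_insert ha]
    rw [h, nm_add, nm_single, pow_one, ih, Finset.prod_insert ha]

theorem rsum2_divs [DecidableEq P] (N : P → ℕ) (r : P →₀ ℕ) :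
    ∏ p ∈ r.support, (1 + (N p : ℝ) ^ (-(1 / 2) : ℝ)) ≤
      ∑ d ∈ Finset.Iic r, (nm N d : ℝ) ^ (-(1 / 2) : ℝ) := by
  have hinj : Set.InjOn (fun S : Finset P => rsum2_ind S) (r.support.powerset : Set (Finset P)) := by
    intro S _ T _ h
    ext p
    have h1 := DFunLike.congr_fun (h : rsum2_ind S = rsum2_ind T) p
    rw [rsum2_ind_apply, rsum2_ind_apply] at h1
    by_cases h2 : p ∈ S <;> by_cases h3 : p ∈ T <;> simp_all
  have h1 : ∏ p ∈ r.support, (1 + (N p : ℝ) ^ (-(1 / 2) : ℝ)) =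
      ∑ S ∈ r.support.powerset, (nm N (rsum2_ind S) : ℝ) ^ (-(1 / 2) : ℝ) := by
    rw [Finset.prod_one_add]
    refine Finset.sum_congr rfl (fun S _ => ?_)
    rw [rsum2_nm_ind, Nat.cast_prod, Real.finsetProd_rpow _ _ (fun p _ => Nat.cast_nonneg _)]
  rw [h1, ← Finset.sum_image (f := fun d : P →₀ ℕ => (nm N d : ℝ) ^ (-(1 / 2) : ℝ))
    (g := fun S : Finset P => rsum2_ind S) hinj]
  refine Finset.sum_le_sum_of_subset_of_nonneg ?_ (fun d _ _ => by positivity)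
  intro d hd
  obtain ⟨S, hS, rfl⟩ := Finset.mem_image.mp hd
  rw [Finset.mem_Iic]
  intro p
  rw [rsum2_ind_apply]
  split_ifs with h
  · have h2 := Finset.mem_powerset.mp hS h
    rw [Finsupp.mem_support_iff] at h2
    omega
  · exact Nat.zero_le _

theorem rsum2_factor {p : ℕ} (hp : 2 ≤ p) :
    ((1 - (p : ℝ)⁻¹)⁻¹) ^ 4 ≤ (if p < 25 then 16 else 1) * (1 + (p : ℝ) ^ (-(1 / 2) : ℝ)) := by
  have hp2 : (2 : ℝ) ≤ p := by exact_mod_cast hp
  have hp0 : (0 : ℝ) < p := by linarith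
  have hsq : 0 < √(p : ℝ) := Real.sqrt_pos.mpr hp0
  have hrw : (p : ℝ) ^ (-(1 / 2) : ℝ) = (√(p : ℝ))⁻¹ := by
    rw [Real.rpow_neg hp0.le, ← Real.sqrt_eq_rpow]
  rw [hrw]
  split_ifs with h
  · have h1 : (1 - (p : ℝ)⁻¹)⁻¹ ≤ 2 := by
      have h2 : (p : ℝ)⁻¹ ≤ 2⁻¹ := inv_anti₀ (by norm_num) hp2
      rw [inv_le_comm₀ (by linarith) (by norm_num)]
      linarith
    have h0 : 0 ≤ (1 - (p : ℝ)⁻¹)⁻¹ := by
      have h2 : (p : ℝ)⁻¹ ≤ 2⁻¹ := inv_anti₀ (by norm_num) hp2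
      exact inv_nonneg.mpr (by linarith)
    have h3 : ((1 - (p : ℝ)⁻¹)⁻¹) ^ 4 ≤ 2 ^ 4 := pow_le_pow_left₀ h0 h1 4
    have h4 : 0 < (√(p : ℝ))⁻¹ := inv_pos.mpr hsq
    linarith
  · push Not at h
    have hp25 : (25 : ℝ) ≤ p := by exact_mod_cast h
    set y : ℝ := (√(p : ℝ))⁻¹ with hy
    have hy0 : 0 < y := inv_pos.mpr hsq
    have hy1 : y ≤ 1 / 5 := by
      rw [hy, one_div]
      refine inv_anti₀ (by norm_num) ?_
      exact Real.le_sqrt_of_sq_le (by linarith)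
    have hpy : (p : ℝ)⁻¹ = y ^ 2 := by
      rw [hy, inv_pow, Real.sq_sqrt hp0.le]
    rw [hpy, one_mul, inv_pow]
    have h1 : 0 < 1 - y ^ 2 := by nlinarith
    rw [inv_le_iff_one_le_mul₀ (by positivity)]
    have h2 : 1 - 4 * y ^ 2 ≤ (1 - y ^ 2) ^ 4 := by
      nlinarith [sq_nonneg (y ^ 2), sq_nonneg (y ^ 2 - 1), mul_nonneg (sq_nonneg (y ^ 2)) h1.le,
        mul_nonneg (sq_nonneg (y ^ 2)) (sq_nonneg (y ^ 2 - 1))]
    have h3 : (1 - 4 * y ^ 2) * (1 + y) ≤ (1 - y ^ 2) ^ 4 * (1 + y) :=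
      mul_le_mul_of_nonneg_right h2 (by linarith)
    have h4 : 1 ≤ (1 - 4 * y ^ 2) * (1 + y) := by
      have h5 : 0 ≤ 1 - 4 * y - 4 * y ^ 2 := by nlinarith
      nlinarith
    linarith

/-- few primes have small norm -/
theorem rsum2_small [DecidableEq P] {N : P → ℕ} (hN : Good N) (S : Finset P) :
    (S.filter (fun p => N p < 25)).card ≤ (ball N 25).card := by
  refine Finset.card_le_card_of_injOn (fun p => Finsupp.single p 1) ?_ ?_
  · intro p hp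
    have h := (Finset.mem_filter.mp (Finset.mem_coe.mp hp)).2
    rw [Finset.mem_coe, mem_ball hN, nm_single, pow_one]
    exact_mod_cast h.le
  · intro p _ p' _ h
    exact Finsupp.single_left_injective one_ne_zero h

theorem rsum2_pr [DecidableEq P] {N : P → ℕ} (hN : Good N) : ∃ C : ℝ, 0 ≤ C ∧ ∀ r : P →₀ ℕ,
    ((ph N r.support)⁻¹) ^ 4 ≤ C * ∑ d ∈ Finset.Iic r, (nm N d : ℝ) ^ (-(1 / 2) : ℝ) := by
  refine ⟨16 ^ (ball N 25).card, by positivity, fun r => ?_⟩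
  unfold ph
  rw [← Finset.prod_inv_distrib, ← Finset.prod_pow]
  have h1 : ∏ p ∈ r.support, ((1 - (N p : ℝ)⁻¹)⁻¹) ^ 4 ≤
      ∏ p ∈ r.support, ((if N p < 25 then 16 else 1) * (1 + (N p : ℝ) ^ (-(1 / 2) : ℝ))) := by
    refine Finset.prod_le_prod (fun p _ => ?_) (fun p hp => rsum2_factor (hN.two_le p))
    exact Even.pow_nonneg (by decide) _
  have h2 : ∏ p ∈ r.support, (if N p < 25 then (16 : ℝ) else 1) ≤ 16 ^ (ball N 25).card := by
    rw [Finset.prod_ite, Finset.prod_const, Finset.prod_const_one, mul_one]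
    exact pow_le_pow_right₀ (by norm_num) (rsum2_small hN _)
  rw [Finset.prod_mul_distrib] at h1
  have h5 : 0 ≤ ∏ p ∈ r.support, (1 + (N p : ℝ) ^ (-(1 / 2) : ℝ)) :=
    Finset.prod_nonneg (fun p _ => by positivity)
  calc ∏ p ∈ r.support, ((1 - (N p : ℝ)⁻¹)⁻¹) ^ 4
      ≤ (∏ p ∈ r.support, (if N p < 25 then (16 : ℝ) else 1)) *
        ∏ p ∈ r.support, (1 + (N p : ℝ) ^ (-(1 / 2) : ℝ)) := h1
    _ ≤ 16 ^ (ball N 25).card * ∏ p ∈ r.support, (1 + (N p : ℝ) ^ (-(1 / 2) : ℝ)) :=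
        mul_le_mul_of_nonneg_right h2 h5
    _ ≤ _ := mul_le_mul_of_nonneg_left (rsum2_divs N r) (by positivity)

end Pool.Agent.AS

namespace Pool.Agent.AS

theorem rsum2 : type_of% @rsum2_pr := @rsum2_pr

end Pool.Agent.AS
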