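import Pool.Agent.Lib_helper24.AS.Defs
import Pool.Agent.Lib_helper92.ASA.BAS
import Pool.Agent.Lib_helper92.ASA.RSUM1
import Pool.Agent.Lib_helper92.ASA.RSUM2

set_option autoImplicit false

namespace Pool.Agent.AS

open Finset

variable {P : Type}

theorem rsum3_cop_le {Q : Finset P} {g h : P →₀ ℕ} (hgh : g ≤ h) (hc : Cop Q h) : Cop Q g := by
  intro p hp
  have h1 := hgh p
  rw [hc p hp] at h1
  exact Nat.le_zero.mp h1

open scoped Classical in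
theorem rsum3_swap {N : P → ℕ} (hN : Good N) (x : ℝ) (Q : Finset P) :
    ∑ r ∈ (ball N x).filter (fun r => Cop Q r),
      1 / (nm N r : ℝ) * ∑ d ∈ Finset.Iic r, (nm N d : ℝ) ^ (-(1 / 2) : ℝ) ≤
    (∑ d ∈ ball N x, (nm N d : ℝ) ^ (-1 - (1 / 2 : ℝ))) *
      ∑ e ∈ (ball N x).filter (fun r => Cop Q r), 1 / (nm N e : ℝ) := by
  set F := (ball N x).filter (fun r => Cop Q r) with hF
  have h1 : ∀ r ∈ F, 1 / (nm N r : ℝ) * ∑ d ∈ Finset.Iic r, (nm N d : ℝ) ^ (-(1 / 2) : ℝ) =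
      ∑ d ∈ Finset.Iic r, (nm N d : ℝ) ^ (-1 - (1 / 2 : ℝ)) * (1 / (nm N (r - d) : ℝ)) := by
    intro r hr
    rw [Finset.mul_sum]
    refine Finset.sum_congr rfl (fun d hd => ?_)
    have hdr := Finset.mem_Iic.mp hd
    have hd0' : (0 : ℝ) < nm N d := by exact_mod_cast nm_pos hN.two_le d
    have hr0' : (0 : ℝ) < nm N (r - d) := by exact_mod_cast nm_pos hN.two_le (r - d)
    have h2 : (nm N r : ℝ) = nm N d * nm N (r - d) := by
      have h3 : nm N (d + (r - d)) = nm N d * nm N (r - d) := nm_add N _ _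
      rw [add_tsub_cancel_of_le hdr] at h3
      rw [h3]
      push_cast
      ring
    have h3 : (nm N d : ℝ) ^ (-1 - (1 / 2 : ℝ)) =
        (nm N d : ℝ)⁻¹ * (nm N d : ℝ) ^ (-(1 / 2) : ℝ) := by
      rw [show (-1 - (1 / 2 : ℝ)) = -1 + -(1 / 2 : ℝ) by ring, Real.rpow_add hd0',
        Real.rpow_neg_one]
    rw [h2, h3]
    field_simp
  rw [Finset.sum_congr rfl h1, Finset.sum_sigma', Finset.sum_mul_sum, ← Finset.sum_product']
  have hinj : Set.InjOn (fun s : (_ : P →₀ ℕ) × (P →₀ ℕ) => (s.2, s.1 - s.2))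
      (F.sigma fun r => Finset.Iic r : Set ((_ : P →₀ ℕ) × (P →₀ ℕ))) := by
    rintro ⟨r, d⟩ hs ⟨r', d'⟩ hs' h
    have h2 := Finset.mem_sigma.mp (Finset.mem_coe.mp hs)
    have h3 := Finset.mem_sigma.mp (Finset.mem_coe.mp hs')
    simp only [Prod.mk.injEq] at h
    obtain ⟨h4, h5⟩ := h
    subst h4
    have h6 : r = r' := by
      have h7 := add_tsub_cancel_of_le (Finset.mem_Iic.mp h2.2)
      have h8 := add_tsub_cancel_of_le (Finset.mem_Iic.mp h3.2)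
      simp only at h7 h8
      rw [← h7, h5, h8]
    subst h6
    rfl
  rw [← Finset.sum_image (f := fun p : (P →₀ ℕ) × (P →₀ ℕ) =>
    (nm N p.1 : ℝ) ^ (-1 - (1 / 2 : ℝ)) * (1 / (nm N p.2 : ℝ)))
    (g := fun s : (_ : P →₀ ℕ) × (P →₀ ℕ) => (s.2, s.1 - s.2)) hinj]
  refine Finset.sum_le_sum_of_subset_of_nonneg ?_ (fun p _ _ => by positivity)
  intro p hp
  obtain ⟨⟨r, d⟩, hrd, rfl⟩ := Finset.mem_image.mp hp
  obtain ⟨hr, hd⟩ := Finset.mem_sigma.mp hrd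
  obtain ⟨h4, h5⟩ := Finset.mem_filter.mp hr
  have hdr : d ≤ r := Finset.mem_Iic.mp hd
  have hrd' : r - d ≤ r := tsub_le_self
  rw [mem_ball hN] at h4
  simp only at h4 h5
  rw [Finset.mem_product, hF, Finset.mem_filter, mem_ball hN, mem_ball hN]
  refine ⟨le_trans (by exact_mod_cast nm_le hN.two_le hdr) h4,
    le_trans (by exact_mod_cast nm_le hN.two_le hrd') h4, rsum3_cop_le hrd' h5⟩

open scoped Classical in
theorem rsum3_harm {N : P → ℕ} (hN : Good N) : ∃ C : ℝ, 0 ≤ C ∧ ∀ (L : ℝ) (Q : Finset P), 1 ≤ L →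
    ∑ p ∈ Q, Real.log (N p) ≤ 32 * L →
    ∑ e ∈ (ball N (Real.exp (2 * L))).filter (fun r => Cop Q r), 1 / (nm N e : ℝ) ≤
      C * L * ph N Q := by
  obtain ⟨C, hC, h⟩ := rsum1 hN
  refine ⟨C * Real.exp 34, by positivity, fun L Q hL hQ => ?_⟩
  have hL0 : (0 : ℝ) < L := by linarith
  set σ : ℝ := 1 / L with hσ
  have hσ0 : 0 < σ := by positivity
  have hσ3 : σ ≤ 3 := by
    rw [hσ, div_le_iff₀ hL0]
    linarith
  obtain ⟨hs, hle⟩ := h Q σ hσ0 hσ3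
  have h1 : ∀ e ∈ (ball N (Real.exp (2 * L))).filter (fun r => Cop Q r), 1 / (nm N e : ℝ) ≤
      Real.exp 2 * (if Cop Q e then (nm N e : ℝ) ^ (-1 - σ) else 0) := by
    intro e he
    obtain ⟨he1, he2⟩ := Finset.mem_filter.mp he
    rw [mem_ball hN] at he1
    have he0 : (0 : ℝ) < nm N e := by exact_mod_cast nm_pos hN.two_le e
    rw [if_pos he2]
    have h2 : (1 : ℝ) / nm N e = (nm N e : ℝ) ^ σ * (nm N e : ℝ) ^ (-1 - σ) := by
      rw [← Real.rpow_add he0, show σ + (-1 - σ) = -1 by ring, Real.rpow_neg_one, one_div]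
    rw [h2]
    refine mul_le_mul_of_nonneg_right ?_ (Real.rpow_nonneg he0.le _)
    calc (nm N e : ℝ) ^ σ ≤ (Real.exp (2 * L)) ^ σ := Real.rpow_le_rpow he0.le he1 hσ0.le
      _ = Real.exp ((2 * L) * σ) := by rw [← Real.exp_mul]
      _ = Real.exp 2 := by
        congr 1
        rw [hσ]
        field_simp
  have h2 : ∑ e ∈ (ball N (Real.exp (2 * L))).filter (fun r => Cop Q r),
      (if Cop Q e then (nm N e : ℝ) ^ (-1 - σ) else 0) ≤
      ∑' g : P →₀ ℕ, (if Cop Q g then (nm N g : ℝ) ^ (-1 - σ) else 0) := by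
    refine hs.sum_le_tsum _ (fun m _ => ?_)
    split_ifs
    · exact Real.rpow_nonneg (Nat.cast_nonneg _) _
    · exact le_refl _
  have h3 : Real.exp (σ * ∑ p ∈ Q, Real.log (N p)) ≤ Real.exp 32 := by
    apply Real.exp_le_exp.mpr
    calc σ * ∑ p ∈ Q, Real.log (N p) ≤ σ * (32 * L) := mul_le_mul_of_nonneg_left hQ hσ0.le
      _ = 32 := by
        rw [hσ]
        field_simp
  have hph : 0 ≤ ph N Q := by
    refine Finset.prod_nonneg fun p _ => ?_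
    have h2 : (1 : ℝ) ≤ N p := by exact_mod_cast (by linarith [hN.two_le p] : 1 ≤ N p)
    have h3 : ((N p : ℝ))⁻¹ ≤ 1 := inv_le_one_of_one_le₀ h2
    linarith
  calc ∑ e ∈ (ball N (Real.exp (2 * L))).filter (fun r => Cop Q r), 1 / (nm N e : ℝ)
      ≤ ∑ e ∈ (ball N (Real.exp (2 * L))).filter (fun r => Cop Q r),
        Real.exp 2 * (if Cop Q e then (nm N e : ℝ) ^ (-1 - σ) else 0) := Finset.sum_le_sum h1
    _ = Real.exp 2 * ∑ e ∈ (ball N (Real.exp (2 * L))).filter (fun r => Cop Q r),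
        (if Cop Q e then (nm N e : ℝ) ^ (-1 - σ) else 0) := by rw [Finset.mul_sum]
    _ ≤ Real.exp 2 * (C / σ * ph N Q * Real.exp (σ * ∑ p ∈ Q, Real.log (N p))) :=
        mul_le_mul_of_nonneg_left (h2.trans hle) (Real.exp_pos _).le
    _ ≤ Real.exp 2 * (C / σ * ph N Q * Real.exp 32) := by
        refine mul_le_mul_of_nonneg_left ?_ (Real.exp_pos _).le
        exact mul_le_mul_of_nonneg_left h3 (by positivity)
    _ = C * Real.exp 34 * L * ph N Q := by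
        have h5 : Real.exp 34 = Real.exp 2 * Real.exp 32 := by
          rw [← Real.exp_add]
          norm_num
        rw [h5, hσ, div_div_eq_mul_div, div_one]
        ring

open scoped Classical in
theorem rsum3_pr {N : P → ℕ} (hN : Good N) : ∃ C : ℝ, 0 ≤ C ∧ ∀ (L : ℝ) (Q : Finset P), 1 ≤ L →
    ∑ p ∈ Q, Real.log (N p) ≤ 32 * L →
    ∑ r ∈ (ball N (Real.exp (2 * L))).filter (fun r => Cop Q r),
      1 / (nm N r : ℝ) * ((ph N r.support)⁻¹) ^ 4 ≤ C * L * ph N Q := by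
  obtain ⟨C₂, hC₂, h2⟩ := rsum2 hN
  obtain ⟨C₁, hC₁, h1⟩ := rsum3_harm hN
  set B : ℝ := ∑' d : P →₀ ℕ, (nm N d : ℝ) ^ (-1 - (1 / 2 : ℝ)) with hB
  have hBs : Summable (fun d : P →₀ ℕ => (nm N d : ℝ) ^ (-1 - (1 / 2 : ℝ))) := by
    have h := hN.summable (1 / 2) (by norm_num)
    have h1 : (-(1 + (1 / 2 : ℝ))) = -1 - 1 / 2 := by ring
    rwa [h1] at h
  have hB0 : 0 ≤ B := tsum_nonneg (fun d => Real.rpow_nonneg (Nat.cast_nonneg _) _)
  refine ⟨C₂ * (B * C₁), by positivity, fun L Q hL hQ => ?_⟩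
  have h3 : ∀ r ∈ (ball N (Real.exp (2 * L))).filter (fun r => Cop Q r),
      1 / (nm N r : ℝ) * ((ph N r.support)⁻¹) ^ 4 ≤
        C₂ * (1 / (nm N r : ℝ) * ∑ d ∈ Finset.Iic r, (nm N d : ℝ) ^ (-(1 / 2) : ℝ)) := by
    intro r hr
    calc 1 / (nm N r : ℝ) * ((ph N r.support)⁻¹) ^ 4
        ≤ 1 / (nm N r : ℝ) * (C₂ * ∑ d ∈ Finset.Iic r, (nm N d : ℝ) ^ (-(1 / 2) : ℝ)) :=
          mul_le_mul_of_nonneg_left (h2 r) (by positivity)
      _ = _ := by ring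
  have h5 : ∑ d ∈ ball N (Real.exp (2 * L)), (nm N d : ℝ) ^ (-1 - (1 / 2 : ℝ)) ≤ B :=
    hBs.sum_le_tsum _ (fun d _ => Real.rpow_nonneg (Nat.cast_nonneg _) _)
  have h6 : 0 ≤ ∑ e ∈ (ball N (Real.exp (2 * L))).filter (fun r => Cop Q r), 1 / (nm N e : ℝ) :=
    Finset.sum_nonneg (fun e _ => by positivity)
  calc ∑ r ∈ (ball N (Real.exp (2 * L))).filter (fun r => Cop Q r),
      1 / (nm N r : ℝ) * ((ph N r.support)⁻¹) ^ 4
      ≤ ∑ r ∈ (ball N (Real.exp (2 * L))).filter (fun r => Cop Q r),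
        C₂ * (1 / (nm N r : ℝ) * ∑ d ∈ Finset.Iic r, (nm N d : ℝ) ^ (-(1 / 2) : ℝ)) :=
        Finset.sum_le_sum h3
    _ = C₂ * ∑ r ∈ (ball N (Real.exp (2 * L))).filter (fun r => Cop Q r),
        (1 / (nm N r : ℝ) * ∑ d ∈ Finset.Iic r, (nm N d : ℝ) ^ (-(1 / 2) : ℝ)) := by
        rw [Finset.mul_sum]
    _ ≤ C₂ * (B * (C₁ * L * ph N Q)) := by
        refine mul_le_mul_of_nonneg_left ?_ hC₂
        refine (rsum3_swap hN _ Q).trans ?_
        exact mul_le_mul h5 (h1 L Q hL hQ) h6 hB0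
    _ = C₂ * (B * C₁) * L * ph N Q := by ring

end Pool.Agent.AS

namespace Pool.Agent.AS

theorem rsum3 : type_of% @rsum3_pr := @rsum3_pr

end Pool.Agent.AS
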