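import Pool.Agent.Lib_helper24.AS.Defs
import Pool.Agent.Lib_helper92.ASA.BAS
import Pool.Agent.Lib_helper92.ASA.JT

/-! Block SQEQ of K-SELBERG (helper93). -/

namespace Pool.Agent.AS

open Complex MeasureTheory Filter Topology

variable {P : Type}

/-- The elements of norm `≤ e^L` coprime to `Q`. -/
noncomputable def sqeq_U (N : P → ℕ) (L : ℝ) (Q : Finset P) : Finset (P →₀ ℕ) :=
  open scoped Classical in
  (ball N (Real.exp L)).filter fun a => Cop Q a

theorem sqeq_JJ (N : P → ℕ) (L : ℝ) (Q : Finset P) :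
    JJ N L Q = sqeq_U N L Q ×ˢ sqeq_U N L Q := by
  classical
  ext ⟨a, b⟩
  simp only [JJ, sqeq_U, Finset.mem_filter, Finset.mem_product]
  tauto

open scoped Classical in
/-- the expansion of `gg^(1+s)` -/
theorem sqeq_expand {N : P → ℕ} (hN : Good N) (L : ℝ) (Q : Finset P) (s : ℝ)
    {a b c d : P →₀ ℕ} (ha : a ∈ sqeq_U N L Q) (hd : d ∈ sqeq_U N L Q) :
    (nm N ((a + d) ⊓ (c + b)) : ℝ) ^ (1 + s) =
      ∑ r ∈ (ball N (Real.exp (2 * L))).filter (fun r => Cop Q r),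
        if (r ≤ a + d ∧ r ≤ c + b) then Jt N s r else 0 := by
  rw [← Jt_sum hN.two_le, ← Finset.sum_filter]
  refine Finset.sum_congr ?_ fun _ _ => rfl
  simp only [sqeq_U, Finset.mem_filter, mem_ball hN] at ha hd
  ext r
  simp only [Finset.mem_Iic, Finset.mem_filter, le_inf_iff, mem_ball hN]
  constructor
  · rintro ⟨h1, h2⟩
    refine ⟨⟨?_, ?_⟩, h1, h2⟩
    · have h3 : (nm N r : ℝ) ≤ nm N (a + d) := by exact_mod_cast nm_le hN.two_le h1
      rw [nm_add] at h3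
      push_cast at h3
      calc (nm N r : ℝ) ≤ nm N a * nm N d := h3
        _ ≤ Real.exp L * Real.exp L := by
            apply mul_le_mul ha.1 hd.1 (Nat.cast_nonneg _) (Real.exp_pos _).le
        _ = Real.exp (2 * L) := by rw [← Real.exp_add]; congr 1; ring
    · intro p hp
      have h4 : (a + d) p = 0 := (cop_add.2 ⟨ha.2, hd.2⟩) p hp
      have h5 := h1 p
      omega
  · rintro ⟨-, h1, h2⟩
    exact ⟨h1, h2⟩

/-- The summand of the square of `YY`. -/
noncomputable def sqeq_T (N : P → ℕ) (L s : ℝ) (a b c d : P →₀ ℕ) : ℝ :=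
  (be N L a * be N L d * (nm N a : ℝ) ^ (-1 - s) * (nm N d : ℝ)⁻¹) *
    (be N L c * be N L b * (nm N c : ℝ) ^ (-1 - s) * (nm N b : ℝ)⁻¹)

open scoped Classical in
theorem sqeq_summand {N : P → ℕ} (hN : Good N) (L : ℝ) (Q : Finset P) (s : ℝ)
    {a b c d : P →₀ ℕ} (ha : a ∈ sqeq_U N L Q) (hd : d ∈ sqeq_U N L Q) :
    cc N L (a, b) * cc N L (c, d) * ((nm N (gg (a, b) (c, d)) : ℝ) / (nm N a * nm N c)) ^ (1 + s) =
      ∑ r ∈ (ball N (Real.exp (2 * L))).filter (fun r => Cop Q r),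
        Jt N s r * (if (r ≤ a + d ∧ r ≤ c + b) then sqeq_T N L s a b c d else 0) := by
  have h1 := sqeq_expand hN L Q s (b := b) (c := c) ha hd
  have h2 : gg (a, b) (c, d) = (a + d) ⊓ (c + b) := rfl
  rw [h2, Real.div_rpow (Nat.cast_nonneg _) (by positivity), h1, Finset.sum_div,
    Finset.mul_sum]
  refine Finset.sum_congr rfl fun r _ => ?_
  by_cases hr : r ≤ a + d ∧ r ≤ c + b
  · rw [if_pos hr, if_pos hr]
    have e1 : ((nm N a : ℝ) * nm N c) ^ (1 + s) = (nm N a : ℝ) ^ (1 + s) * (nm N c : ℝ) ^ (1 + s) :=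
      Real.mul_rpow (Nat.cast_nonneg _) (Nat.cast_nonneg _)
    have e2 : (nm N a : ℝ) ^ (-1 - s) = ((nm N a : ℝ) ^ (1 + s))⁻¹ := by
      rw [← Real.rpow_neg (Nat.cast_nonneg _)]; congr 1; ring
    have e3 : (nm N c : ℝ) ^ (-1 - s) = ((nm N c : ℝ) ^ (1 + s))⁻¹ := by
      rw [← Real.rpow_neg (Nat.cast_nonneg _)]; congr 1; ring
    simp only [sqeq_T, cc, e1, e2, e3, div_eq_mul_inv, mul_inv]
    ring
  · rw [if_neg hr, if_neg hr]; simp

open scoped Classical in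
theorem Sq_eq_pr {N : P → ℕ} (hN : Good N) (L : ℝ) (Q : Finset P) (s : ℝ) : Sq N L Q s =
    ∑ r ∈ (ball N (Real.exp (2 * L))).filter (fun r => Cop Q r), Jt N s r * YY N L Q s r ^ 2 := by
  -- the left hand side
  have h1 : Sq N L Q s = ∑ a ∈ sqeq_U N L Q, ∑ b ∈ sqeq_U N L Q, ∑ c ∈ sqeq_U N L Q,
      ∑ d ∈ sqeq_U N L Q, ∑ r ∈ (ball N (Real.exp (2 * L))).filter (fun r => Cop Q r),
        Jt N s r * (if (r ≤ a + d ∧ r ≤ c + b) then sqeq_T N L s a b c d else 0) := by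
    unfold Sq
    rw [sqeq_JJ, Finset.sum_product]
    refine Finset.sum_congr rfl fun a ha => Finset.sum_congr rfl fun b hb => ?_
    rw [Finset.sum_product]
    exact Finset.sum_congr rfl fun c hc => Finset.sum_congr rfl fun d hd =>
      sqeq_summand hN L Q s ha hd
  -- the square of YY
  have h2 : ∀ r, YY N L Q s r ^ 2 = ∑ a ∈ sqeq_U N L Q, ∑ b ∈ sqeq_U N L Q, ∑ c ∈ sqeq_U N L Q,
      ∑ d ∈ sqeq_U N L Q, (if (r ≤ a + d ∧ r ≤ c + b) then sqeq_T N L s a b c d else 0) := by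
    intro r
    have e1 : YY N L Q s r = ∑ a ∈ sqeq_U N L Q, ∑ d ∈ sqeq_U N L Q,
        (if r ≤ a + d then be N L a * be N L d * (nm N a : ℝ) ^ (-1 - s) * (nm N d : ℝ)⁻¹
          else 0) := by
      unfold YY
      rw [sqeq_JJ, Finset.sum_filter, Finset.sum_product]
    have e2 : YY N L Q s r = ∑ b ∈ sqeq_U N L Q, ∑ c ∈ sqeq_U N L Q,
        (if r ≤ c + b then be N L c * be N L b * (nm N c : ℝ) ^ (-1 - s) * (nm N b : ℝ)⁻¹
          else 0) := by
      rw [e1, Finset.sum_comm]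
    have e3 : YY N L Q s r ^ 2 = YY N L Q s r * YY N L Q s r := sq _
    rw [e3]
    nth_rewrite 1 [e1]
    rw [e2, Finset.sum_mul]
    refine Finset.sum_congr rfl fun a _ => ?_
    rw [Finset.sum_mul_sum, Finset.sum_comm]
    refine Finset.sum_congr rfl fun b _ => ?_
    simp only [Finset.mul_sum]
    rw [Finset.sum_comm]
    refine Finset.sum_congr rfl fun c _ => Finset.sum_congr rfl fun d _ => ?_
    by_cases hr1 : r ≤ a + d
    · by_cases hr2 : r ≤ c + b
      · rw [if_pos hr1, if_pos hr2, if_pos ⟨hr1, hr2⟩]; rfl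
      · have hr3 : ¬ (r ≤ a + d ∧ r ≤ c + b) := fun h => hr2 h.2
        rw [if_neg hr2, if_neg hr3, mul_zero]
    · have hr3 : ¬ (r ≤ a + d ∧ r ≤ c + b) := fun h => hr1 h.1
      rw [if_neg hr1, if_neg hr3, zero_mul]
  rw [h1]
  simp only [h2, Finset.mul_sum]
  -- move the sum over `r` to the inside
  symm
  rw [Finset.sum_comm]
  refine Finset.sum_congr rfl fun a _ => ?_
  rw [Finset.sum_comm]
  refine Finset.sum_congr rfl fun b _ => ?_
  rw [Finset.sum_comm]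
  refine Finset.sum_congr rfl fun c _ => ?_
  rw [Finset.sum_comm]

end Pool.Agent.AS

namespace Pool.Agent.AS

theorem Sq_eq : type_of% @Sq_eq_pr := @Sq_eq_pr

end Pool.Agent.AS
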