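import Pool.Agent.Lib_helper24.AS.Defs
import Pool.Agent.Lib_helper92.ASA.ALPHA
import Pool.Agent.Lib_helper92.ASA.BAS

/-! Block SMOOTH of K-SELBERG (abstract arithmetic semigroup). -/

namespace Pool.Agent.AS

open Complex MeasureTheory Filter Topology

variable {P : Type}

theorem smooth_nm_erase (N : P → ℕ) (g : P →₀ ℕ) (p : P) :
    nm N g = N p ^ g p * nm N (g.erase p) := by
  conv_lhs => rw [← Finsupp.single_add_erase p g]
  rw [nm_add, nm_single]

theorem smooth_geom {N : P → ℕ} (hN : ∀ p, 2 ≤ N p) (p : P) (K : Finset ℕ) :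
    ∑ k ∈ K, ((N p : ℝ) ^ k)⁻¹ ≤ (1 - ((N p : ℝ))⁻¹)⁻¹ := by
  have h2 : (2 : ℝ) ≤ N p := by exact_mod_cast hN p
  have h3 : ((N p : ℝ))⁻¹ < 1 := inv_lt_one_of_one_lt₀ (by linarith)
  have h4 : 0 ≤ ((N p : ℝ))⁻¹ := by positivity
  have h5 := sum_le_hasSum K (fun k _ => pow_nonneg h4 k) (hasSum_geometric_of_lt_one h4 h3)
  simpa [inv_pow] using h5

theorem smooth_ph_pos {N : P → ℕ} (hN : ∀ p, 2 ≤ N p) (S : Finset P) : 0 < ph N S := by
  unfold ph
  apply Finset.prod_pos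
  intro p _
  have h2 : (2 : ℝ) ≤ N p := by exact_mod_cast hN p
  have h3 : ((N p : ℝ))⁻¹ < 1 := inv_lt_one_of_one_lt₀ (by linarith)
  linarith

theorem smooth_fin {N : P → ℕ} (hN : ∀ p, 2 ≤ N p) (S : Finset P) :
    ∀ B : Finset (P →₀ ℕ), (∀ m ∈ B, m.support ⊆ S) →
      ∑ m ∈ B, ((nm N m : ℝ))⁻¹ ≤ (ph N S)⁻¹ := by
  classical
  induction S using Finset.induction_on with
  | empty =>
    intro B hB
    have h1 : B ⊆ {0} := by
      intro m hm
      have := hB m hm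
      rw [Finset.subset_empty, Finsupp.support_eq_empty] at this
      simp [this]
    calc ∑ m ∈ B, ((nm N m : ℝ))⁻¹ ≤ ∑ m ∈ {(0 : P →₀ ℕ)}, ((nm N m : ℝ))⁻¹ :=
          Finset.sum_le_sum_of_subset_of_nonneg h1 fun m _ _ => by positivity
      _ = (ph N ∅)⁻¹ := by simp [nm_zero, ph]
  | insert p S hp ih =>
    intro B hB
    have hph : ph N (insert p S) = (1 - ((N p : ℝ))⁻¹) * ph N S := by
      unfold ph
      rw [Finset.prod_insert hp]
    have hS := smooth_ph_pos hN S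
    rw [hph, mul_inv]
    have hmap : ∀ m ∈ B, m p ∈ B.image (fun m => m p) := fun m hm =>
      Finset.mem_image_of_mem _ hm
    rw [← Finset.sum_fiberwise_of_maps_to hmap]
    have hfib : ∀ k ∈ B.image (fun m => m p), ∑ m ∈ B with m p = k, ((nm N m : ℝ))⁻¹ ≤
        ((N p : ℝ) ^ k)⁻¹ * (ph N S)⁻¹ := by
      intro k _
      have h1 : ∑ m ∈ B with m p = k, ((nm N m : ℝ))⁻¹ =
          ((N p : ℝ) ^ k)⁻¹ * ∑ m ∈ B with m p = k, ((nm N (m.erase p) : ℝ))⁻¹ := by
        rw [Finset.mul_sum]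
        refine Finset.sum_congr rfl fun m hm => ?_
        rw [smooth_nm_erase N m p, (Finset.mem_filter.1 hm).2]
        push_cast
        rw [mul_inv]
      rw [h1]
      apply mul_le_mul_of_nonneg_left _ (by positivity)
      have h2 : ∑ m ∈ B with m p = k, ((nm N (m.erase p) : ℝ))⁻¹ =
          ∑ m ∈ (B.filter (fun m => m p = k)).image (fun m => m.erase p), ((nm N m : ℝ))⁻¹ := by
        rw [Finset.sum_image]
        intro a ha b hb hab
        have ha2 := (Finset.mem_filter.1 (Finset.mem_coe.1 ha)).2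
        have hb2 := (Finset.mem_filter.1 (Finset.mem_coe.1 hb)).2
        rw [← Finsupp.single_add_erase p a, ← Finsupp.single_add_erase p b, ha2, hb2]
        simp only at hab
        rw [hab]
      rw [h2]
      apply ih
      intro m hm
      obtain ⟨a, ha, rfl⟩ := Finset.mem_image.1 hm
      rw [Finsupp.support_erase]
      intro t ht
      obtain ⟨ht1, ht2⟩ := Finset.mem_erase.1 ht
      have h3 := hB a (Finset.mem_filter.1 ha).1 ht2
      exact (Finset.mem_insert.1 h3).resolve_left ht1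
    calc ∑ k ∈ B.image (fun m => m p), ∑ m ∈ B with m p = k, ((nm N m : ℝ))⁻¹
        ≤ ∑ k ∈ B.image (fun m => m p), ((N p : ℝ) ^ k)⁻¹ * (ph N S)⁻¹ := Finset.sum_le_sum hfib
      _ = (∑ k ∈ B.image (fun m => m p), ((N p : ℝ) ^ k)⁻¹) * (ph N S)⁻¹ := by
          rw [Finset.sum_mul]
      _ ≤ (1 - ((N p : ℝ))⁻¹)⁻¹ * (ph N S)⁻¹ :=
          mul_le_mul_of_nonneg_right (smooth_geom hN p _) (by positivity)

theorem smooth_sum_pr {N : P → ℕ} (hN : ∀ p, 2 ≤ N p) (r : P →₀ ℕ)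
    (A : Finset ((P →₀ ℕ) × (P →₀ ℕ)))
    (hA : ∀ j ∈ A, r ≤ j.1 + j.2 ∧ (j.1 + j.2).support ⊆ r.support) :
    ∑ j ∈ A, |(al : MvPowerSeries P ℝ) j.1| * |(al : MvPowerSeries P ℝ) j.2| /
      ((nm N j.1 : ℝ) * nm N j.2) ≤ 1 / nm N r * (ph N r.support)⁻¹ := by
  classical
  set B : Finset (P →₀ ℕ) := A.image (fun p => p.1 + p.2 - r) with hB
  have hmap : ∀ p ∈ A, p.1 + p.2 - r ∈ B := fun p hp => Finset.mem_image_of_mem _ hp
  rw [← Finset.sum_fiberwise_of_maps_to hmap]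
  have hBf : ∀ m ∈ B, m.support ⊆ r.support := by
    intro m hm
    obtain ⟨p, hp, rfl⟩ := Finset.mem_image.1 hm
    obtain ⟨h3, h4⟩ := hA p hp
    intro t ht
    apply h4
    rw [Finsupp.mem_support_iff] at ht ⊢
    intro h5
    apply ht
    rw [Finsupp.tsub_apply, h5, Nat.zero_sub]
  have hfib : ∀ m ∈ B, ∑ p ∈ A with p.1 + p.2 - r = m,
      |(al : MvPowerSeries P ℝ) p.1| * |(al : MvPowerSeries P ℝ) p.2| /
        ((nm N p.1 : ℝ) * nm N p.2) ≤ 1 / nm N r * ((nm N m : ℝ))⁻¹ := by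
    intro m _
    have h1 : ∀ p ∈ A.filter (fun p => p.1 + p.2 - r = m), p.1 + p.2 = r + m := by
      intro p hp
      obtain ⟨hp1, hp2⟩ := Finset.mem_filter.1 hp
      rw [← hp2, add_tsub_cancel_of_le (hA p hp1).1]
    calc ∑ p ∈ A with p.1 + p.2 - r = m, |(al : MvPowerSeries P ℝ) p.1| *
          |(al : MvPowerSeries P ℝ) p.2| / ((nm N p.1 : ℝ) * nm N p.2)
        = ∑ p ∈ A with p.1 + p.2 - r = m, |(al : MvPowerSeries P ℝ) p.1| *
          |(al : MvPowerSeries P ℝ) p.2| / (nm N (r + m) : ℝ) := by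
          refine Finset.sum_congr rfl fun p hp => ?_
          rw [← h1 p hp, nm_add]
          push_cast
          rfl
      _ = (∑ p ∈ A with p.1 + p.2 - r = m, |(al : MvPowerSeries P ℝ) p.1| *
          |(al : MvPowerSeries P ℝ) p.2|) / (nm N (r + m) : ℝ) := by
          rw [Finset.sum_div]
      _ ≤ (∑ p ∈ Finset.HasAntidiagonal.antidiagonal (r + m), |(al : MvPowerSeries P ℝ) p.1| *
          |(al : MvPowerSeries P ℝ) p.2|) / (nm N (r + m) : ℝ) := by
          apply div_le_div_of_nonneg_right _ (Nat.cast_nonneg _)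
          refine Finset.sum_le_sum_of_subset_of_nonneg (fun p hp => ?_) fun p _ _ => by positivity
          exact Finset.HasAntidiagonal.mem_antidiagonal.2 (h1 p hp)
      _ ≤ 1 / (nm N (r + m) : ℝ) :=
          div_le_div_of_nonneg_right (al_conv_abs _) (Nat.cast_nonneg _)
      _ = 1 / nm N r * ((nm N m : ℝ))⁻¹ := by
          rw [nm_add]
          push_cast
          rw [one_div, mul_inv, one_div]
  calc ∑ m ∈ B, ∑ p ∈ A with p.1 + p.2 - r = m, |(al : MvPowerSeries P ℝ) p.1| *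
        |(al : MvPowerSeries P ℝ) p.2| / ((nm N p.1 : ℝ) * nm N p.2)
      ≤ ∑ m ∈ B, 1 / nm N r * ((nm N m : ℝ))⁻¹ := Finset.sum_le_sum hfib
    _ = 1 / nm N r * ∑ m ∈ B, ((nm N m : ℝ))⁻¹ := by rw [Finset.mul_sum]
    _ ≤ 1 / nm N r * (ph N r.support)⁻¹ := by
        apply mul_le_mul_of_nonneg_left (smooth_fin hN r.support B hBf) (by positivity)

end Pool.Agent.AS

namespace Pool.Agent.AS

theorem smooth_sum : type_of% @smooth_sum_pr := @smooth_sum_pr

end Pool.Agent.AS
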