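import Pool.Agent.Lib_helper24.AS.Defs
import Pool.Agent.Lib_helper92.ASA.ABOUND
import Pool.Agent.Lib_helper92.ASA.ALPHA
import Pool.Agent.Lib_helper92.ASA.BAS
import Pool.Agent.Lib_helper92.ASA.SMOOTH

/-! Block YB of K-SELBERG (abstract arithmetic semigroup): bound for the `Y_r`. -/

namespace Pool.Agent.AS

open Complex MeasureTheory Filter Topology

variable {P : Type}

open scoped Classical in
/-- the `r`-part of `k` -/
noncomputable def yb_p (r k : P →₀ ℕ) : P →₀ ℕ := k.filter (fun p => r p ≠ 0)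

open scoped Classical in
/-- the part of `k` prime to `r` -/
noncomputable def yb_q (r k : P →₀ ℕ) : P →₀ ℕ := k.filter (fun p => ¬ r p ≠ 0)

theorem yb_add (r k : P →₀ ℕ) : yb_p r k + yb_q r k = k := by
  classical
  unfold yb_p yb_q
  exact Finsupp.filter_add_filter_not k _

theorem yb_p_supp (r k : P →₀ ℕ) : (yb_p r k).support ⊆ r.support := by
  classical
  intro t ht
  unfold yb_p at ht
  rw [Finsupp.support_filter, Finset.mem_filter] at ht
  exact Finsupp.mem_support_iff.2 ht.2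

theorem yb_q_cop (r k : P →₀ ℕ) : Cop r.support (yb_q r k) := by
  classical
  intro t ht
  unfold yb_q
  exact Finsupp.filter_apply_neg _ _ (not_not.2 (Finsupp.mem_support_iff.1 ht))

theorem yb_p_apply_pos {r k : P →₀ ℕ} {t : P} (ht : r t ≠ 0) : yb_p r k t = k t := by
  classical
  unfold yb_p
  exact Finsupp.filter_apply_pos _ _ ht

theorem yb_p_apply_neg {r k : P →₀ ℕ} {t : P} (ht : r t = 0) : yb_p r k t = 0 := by
  classical
  unfold yb_p
  exact Finsupp.filter_apply_neg _ _ (not_not.2 ht)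

theorem yb_mul {r d n : P →₀ ℕ} (hd : d.support ⊆ r.support) (hn : Cop r.support n) :
    yb_p r (d + n) = d := by
  classical
  ext t
  by_cases ht : r t = 0
  · rw [yb_p_apply_neg ht]
    by_contra h
    have := hd (Finsupp.mem_support_iff.2 (Ne.symm h))
    exact (Finsupp.mem_support_iff.1 this) ht
  · rw [yb_p_apply_pos ht, Finsupp.add_apply, hn t (Finsupp.mem_support_iff.2 ht), add_zero]

theorem yb_disj {r d n : P →₀ ℕ} (hd : d.support ⊆ r.support) (hn : Cop r.support n) :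
    Disjoint d.support n.support := by
  rw [Finset.disjoint_left]
  intro t ht ht2
  exact (Finsupp.mem_support_iff.1 ht2) (hn t (hd ht))

open scoped Classical in
/-- elements of the sum with `r`-part `d` -/
noncomputable def yb_K (N : P → ℕ) (L : ℝ) (Q : Finset P) (r d : P →₀ ℕ) : Finset (P →₀ ℕ) :=
  (ball N (Real.exp L)).filter fun k => Cop Q k ∧ yb_p r k = d

open scoped Classical in
/-- the fibre sums -/
theorem yb_fiber {N : P → ℕ} (hN : Good N) {L : ℝ} (hL : 1 ≤ L) {Q : Finset P} {r d : P →₀ ℕ}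
    (hrq : Cop Q r) (hd : d.support ⊆ r.support) (s : ℝ) :
    ∑ k ∈ yb_K N L Q r d, be N L k * (nm N k : ℝ) ^ (-1 - s) =
      al d * (nm N d : ℝ) ^ (-1 - s) / L *
        AA N (Q ∪ r.support) s (Real.exp L / nm N d) := by
  have hL0 : 0 < L := by linarith
  have hdR : (0 : ℝ) < nm N d := by exact_mod_cast nm_pos hN.two_le d
  have hdq : Cop Q d := by
    intro p hp
    by_contra h
    exact (Finsupp.mem_support_iff.1 (hd (Finsupp.mem_support_iff.2 h))) (hrq p hp)
  unfold AA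
  rw [Finset.mul_sum]
  symm
  refine Finset.sum_bij' (fun n _ => d + n) (fun k _ => yb_q r k) ?_ ?_ ?_ ?_ ?_
  · intro n hn
    obtain ⟨hn1, hn2⟩ := Finset.mem_filter.1 hn
    have hnr : Cop r.support n := fun t ht => hn2 t (Finset.mem_union_right _ ht)
    have hnq : Cop Q n := fun t ht => hn2 t (Finset.mem_union_left _ ht)
    refine Finset.mem_filter.2 ⟨?_, cop_add.2 ⟨hdq, hnq⟩, yb_mul hd hnr⟩
    rw [mem_ball hN] at hn1 ⊢
    rw [nm_add]
    push_cast
    rw [le_div_iff₀ hdR] at hn1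
    linarith
  · intro k hk
    obtain ⟨hk1, hkq, hkd⟩ := Finset.mem_filter.1 hk
    have h3 : d + yb_q r k = k := by rw [← hkd, yb_add]
    refine Finset.mem_filter.2 ⟨?_, ?_⟩
    · rw [mem_ball hN] at hk1 ⊢
      rw [← h3, nm_add] at hk1
      push_cast at hk1
      rw [le_div_iff₀ hdR]
      linarith
    · intro t ht
      rcases Finset.mem_union.1 ht with h | h
      · rw [← h3] at hkq
        exact (cop_add.1 hkq).2 t h
      · exact yb_q_cop r k t h
  · intro n hn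
    obtain ⟨hn1, hn2⟩ := Finset.mem_filter.1 hn
    have hnr : Cop r.support n := fun t ht => hn2 t (Finset.mem_union_right _ ht)
    have h1 : yb_p r (d + n) + yb_q r (d + n) = d + n := yb_add r (d + n)
    rw [yb_mul hd hnr] at h1
    exact add_left_cancel h1
  · intro k hk
    obtain ⟨hk1, hkq, hkd⟩ := Finset.mem_filter.1 hk
    rw [← hkd]
    exact yb_add r k
  · intro n hn
    obtain ⟨hn1, hn2⟩ := Finset.mem_filter.1 hn
    have hnr : Cop r.support n := fun t ht => hn2 t (Finset.mem_union_right _ ht)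
    have hnR : (0 : ℝ) < nm N n := by exact_mod_cast nm_pos hN.two_le n
    have h1 : (al : MvPowerSeries P ℝ) (d + n) = al d * al n := al_add (yb_disj hd hnr)
    have h2 : Real.log (Real.exp L / nm N d / nm N n) = L - Real.log (nm N (d + n) : ℝ) := by
      rw [Real.log_div (by positivity) hnR.ne', Real.log_div (Real.exp_pos L).ne' hdR.ne',
        Real.log_exp, nm_add]
      push_cast
      rw [Real.log_mul hdR.ne' hnR.ne']
      ring
    have h3 : (nm N (d + n) : ℝ) ≤ Real.exp L := by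
      rw [mem_ball hN, le_div_iff₀ hdR] at hn1
      rw [nm_add]
      push_cast
      linarith
    have h4 : Real.log (nm N (d + n) : ℝ) ≤ L := by
      rw [← Real.log_exp L]
      exact Real.log_le_log (by rw [nm_add]; push_cast; positivity) h3
    have h5 : max 0 (1 - Real.log (nm N (d + n) : ℝ) / L) =
        (L - Real.log (nm N (d + n) : ℝ)) / L := by
      rw [max_eq_right]
      · field_simp
      · have : Real.log (nm N (d + n) : ℝ) / L ≤ 1 := (div_le_one hL0).2 h4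
        linarith
    have h6 : (nm N (d + n) : ℝ) ^ (-1 - s) =
        (nm N d : ℝ) ^ (-1 - s) * (nm N n : ℝ) ^ (-1 - s) := by
      rw [nm_add]
      push_cast
      exact Real.mul_rpow hdR.le hnR.le
    have h7 : be N L (d + n) = al (d + n) * max 0 (1 - Real.log (nm N (d + n) : ℝ) / L) := rfl
    rw [h7, h1, h5, h6, h2]
    ring

theorem yb_AA_small {N : P → ℕ} (hN : Good N) (R : Finset P) (s x : ℝ) (hx : x < 1) :
    AA N R s x = 0 := by
  classical
  unfold AA
  apply Finset.sum_eq_zero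
  intro n hn
  exfalso
  have h1 := (mem_ball hN).1 (Finset.mem_filter.1 hn).1
  have h2 : (1 : ℝ) ≤ nm N n := by exact_mod_cast nm_pos hN.two_le n
  linarith

theorem yb_ph_pos {N : P → ℕ} (hN : ∀ p, 2 ≤ N p) (S : Finset P) : 0 < ph N S := by
  unfold ph
  apply Finset.prod_pos
  intro p _
  have h2 : (2 : ℝ) ≤ N p := by exact_mod_cast hN p
  have h3 : ((N p : ℝ))⁻¹ < 1 := inv_lt_one_of_one_lt₀ (by linarith)
  linarith

open scoped Classical in
theorem yb_fiber_le {N : P → ℕ} (hN : Good N) {C : ℝ} (hC : 0 ≤ C)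
    (hAA : ∀ R : Finset P, ∀ s x : ℝ, 1 ≤ x → 0 ≤ s → s ≤ 2 / (1 + Real.log x) →
      |AA N R s x| ≤ C * √(1 + Real.log x) * √((ph N R)⁻¹))
    {L : ℝ} (hL : 1 ≤ L) {Q : Finset P} {r d : P →₀ ℕ} (hrq : Cop Q r)
    (hd : d.support ⊆ r.support) {s : ℝ} (hs : 0 ≤ s) (hs' : s ≤ 1 / L) :
    |∑ k ∈ yb_K N L Q r d, be N L k * (nm N k : ℝ) ^ (-1 - s)| ≤
      |(al : MvPowerSeries P ℝ) d| / nm N d *
        (C / L * √(1 + L) * √((ph N (Q ∪ r.support))⁻¹)) := by
  have hL0 : 0 < L := by linarith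
  have hdR : (1 : ℝ) ≤ nm N d := by exact_mod_cast nm_pos hN.two_le d
  rw [yb_fiber hN hL hrq hd s, abs_mul, abs_div, abs_mul, abs_of_pos hL0]
  have h1 : |(nm N d : ℝ) ^ (-1 - s)| ≤ 1 / nm N d := by
    rw [abs_of_nonneg (by positivity), one_div, ← Real.rpow_neg_one]
    exact Real.rpow_le_rpow_of_exponent_le hdR (by linarith)
  have h2 : |AA N (Q ∪ r.support) s (Real.exp L / nm N d)| ≤
      C * √(1 + L) * √((ph N (Q ∪ r.support))⁻¹) := by
    by_cases hx : 1 ≤ Real.exp L / nm N d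
    · have h3 : Real.log (Real.exp L / nm N d) ≤ L := by
        rw [Real.log_div (Real.exp_pos L).ne' (by positivity), Real.log_exp]
        have := Real.log_nonneg hdR
        linarith
      have h4 : 0 ≤ Real.log (Real.exp L / nm N d) := Real.log_nonneg hx
      refine (hAA (Q ∪ r.support) s _ hx hs ?_).trans ?_
      · refine hs'.trans ?_
        rw [div_le_div_iff₀ hL0 (by linarith)]
        linarith
      · gcongr
    · rw [yb_AA_small hN _ _ _ (not_le.1 hx), abs_zero]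
      positivity
  calc |(al : MvPowerSeries P ℝ) d| * |(nm N d : ℝ) ^ (-1 - s)| / L *
        |AA N (Q ∪ r.support) s (Real.exp L / nm N d)|
      ≤ |(al : MvPowerSeries P ℝ) d| * (1 / nm N d) / L *
        (C * √(1 + L) * √((ph N (Q ∪ r.support))⁻¹)) := by
        gcongr
    _ = _ := by ring

theorem YY_le_pr {N : P → ℕ} (hN : Good N) : ∃ C : ℝ, 0 ≤ C ∧
    ∀ (L : ℝ) (Q : Finset P) (r : P →₀ ℕ) (s : ℝ), 1 ≤ L → Cop Q r → 0 ≤ s → s ≤ 1 / L →
      |YY N L Q s r| ≤ C / L * (ph N Q)⁻¹ * ((ph N r.support)⁻¹) ^ 2 / nm N r := by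
  classical
  obtain ⟨C, hC, hAA⟩ := AA_le hN
  refine ⟨2 * C ^ 2, by positivity, fun L Q r s hL hrq hs hs' => ?_⟩
  have hL0 : 0 < L := by linarith
  set F : (P →₀ ℕ) → ℝ := fun k => be N L k * (nm N k : ℝ) ^ (-1 - s) with hF
  set G' : (P →₀ ℕ) → ℝ := fun l => be N L l * (nm N l : ℝ) ^ (-1 - (0 : ℝ)) with hG
  set S : Finset ((P →₀ ℕ) × (P →₀ ℕ)) :=
    (JJ N L Q).filter (fun j => r ≤ j.1 + j.2) with hS
  have hY : YY N L Q s r = ∑ j ∈ S, F j.1 * G' j.2 := by
    unfold YY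
    refine Finset.sum_congr rfl fun j _ => ?_
    simp only [hF, hG]
    rw [show (-1 - (0 : ℝ)) = -1 by ring, Real.rpow_neg_one]
    ring
  set g : (P →₀ ℕ) × (P →₀ ℕ) → (P →₀ ℕ) × (P →₀ ℕ) :=
    fun j => (yb_p r j.1, yb_p r j.2) with hg
  set A : Finset ((P →₀ ℕ) × (P →₀ ℕ)) := S.image g with hA
  have hmemS : ∀ j ∈ S, j.1 ∈ ball N (Real.exp L) ∧ j.2 ∈ ball N (Real.exp L) ∧
      Cop Q j.1 ∧ Cop Q j.2 ∧ r ≤ j.1 + j.2 := by
    intro j hj
    obtain ⟨hj1, hj2⟩ := Finset.mem_filter.1 hj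
    unfold JJ at hj1
    obtain ⟨hj4, hj5⟩ := Finset.mem_filter.1 hj1
    obtain ⟨hj6, hj7⟩ := Finset.mem_product.1 hj4
    exact ⟨hj6, hj7, hj5.1, hj5.2, hj2⟩
  have hle : ∀ j : (P →₀ ℕ) × (P →₀ ℕ), r ≤ j.1 + j.2 ↔ r ≤ yb_p r j.1 + yb_p r j.2 := by
    intro j
    constructor
    · intro h t
      by_cases ht : r t = 0
      · rw [ht]; exact Nat.zero_le _
      · have := h t
        rw [Finsupp.add_apply] at this ⊢
        rw [yb_p_apply_pos ht, yb_p_apply_pos ht]
        exact this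
    · intro h t
      by_cases ht : r t = 0
      · rw [ht]; exact Nat.zero_le _
      · have := h t
        rw [Finsupp.add_apply, yb_p_apply_pos ht, yb_p_apply_pos ht] at this
        rw [Finsupp.add_apply]
        exact this
  have hAprop : ∀ p ∈ A, p.1.support ⊆ r.support ∧ p.2.support ⊆ r.support ∧
      r ≤ p.1 + p.2 := by
    intro p hp
    obtain ⟨j, hj, rfl⟩ := Finset.mem_image.1 hp
    obtain ⟨h1, h2, h3, h4, h5⟩ := hmemS j hj
    exact ⟨yb_p_supp r _, yb_p_supp r _, (hle j).1 h5⟩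
  have hfib : ∀ p ∈ A, S.filter (fun j => g j = p) =
      yb_K N L Q r p.1 ×ˢ yb_K N L Q r p.2 := by
    intro p hp
    obtain ⟨hp1, hp2, hp3⟩ := hAprop p hp
    ext j
    simp only [Finset.mem_filter, Finset.mem_product]
    constructor
    · rintro ⟨hj, hgj⟩
      obtain ⟨h1, h2, h3, h4, h5⟩ := hmemS j hj
      have h7 : yb_p r j.1 = p.1 := congrArg Prod.fst hgj
      have h8 : yb_p r j.2 = p.2 := congrArg Prod.snd hgj
      exact ⟨Finset.mem_filter.2 ⟨h1, h3, h7⟩, Finset.mem_filter.2 ⟨h2, h4, h8⟩⟩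
    · rintro ⟨hj1, hj2⟩
      obtain ⟨h1, h3, h7⟩ := Finset.mem_filter.1 hj1
      obtain ⟨h2, h4, h8⟩ := Finset.mem_filter.1 hj2
      refine ⟨Finset.mem_filter.2 ⟨?_, ?_⟩, Prod.ext h7 h8⟩
      · unfold JJ
        exact Finset.mem_filter.2 ⟨Finset.mem_product.2 ⟨h1, h2⟩, h3, h4⟩
      · rw [hle j, h7, h8]
        exact hp3
  have hsum : YY N L Q s r = ∑ p ∈ A, (∑ k ∈ yb_K N L Q r p.1, F k) *
      ∑ l ∈ yb_K N L Q r p.2, G' l := by
    rw [hY, ← Finset.sum_fiberwise_of_maps_to (g := g) (t := A)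
      (fun j hj => Finset.mem_image_of_mem _ hj)]
    refine Finset.sum_congr rfl fun p hp => ?_
    rw [hfib p hp, Finset.sum_mul_sum, Finset.sum_product]
  set B : ℝ := C / L * √(1 + L) * √((ph N (Q ∪ r.support))⁻¹) with hB
  have hB0 : 0 ≤ B := by rw [hB]; positivity
  have hnmR : ∀ k : P →₀ ℕ, (0 : ℝ) < nm N k := fun k => by exact_mod_cast nm_pos hN.two_le k
  have hterm : ∀ p ∈ A, |(∑ k ∈ yb_K N L Q r p.1, F k) * ∑ l ∈ yb_K N L Q r p.2, G' l| ≤
      (|(al : MvPowerSeries P ℝ) p.1| * |(al : MvPowerSeries P ℝ) p.2| /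
        ((nm N p.1 : ℝ) * nm N p.2)) * B ^ 2 := by
    intro p hp
    obtain ⟨hp1, hp2, hp3⟩ := hAprop p hp
    rw [abs_mul]
    have e1 := yb_fiber_le hN hC hAA hL hrq hp1 hs hs'
    have e2 := yb_fiber_le hN hC hAA hL hrq hp2 (le_refl (0 : ℝ)) (by positivity)
    calc _ ≤ (|(al : MvPowerSeries P ℝ) p.1| / nm N p.1 * B) *
          (|(al : MvPowerSeries P ℝ) p.2| / nm N p.2 * B) :=
          mul_le_mul e1 e2 (abs_nonneg _) (by positivity)
      _ = _ := by
          have h1 : (nm N p.1 : ℝ) ≠ 0 := (hnmR _).ne'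
          have h2 : (nm N p.2 : ℝ) ≠ 0 := (hnmR _).ne'
          field_simp
  have hsm := smooth_sum hN.two_le r A (fun p hp => by
    obtain ⟨hp1, hp2, hp3⟩ := hAprop p hp
    refine ⟨hp3, ?_⟩
    exact (Finsupp.support_add).trans (Finset.union_subset hp1 hp2))
  have hph : ph N (Q ∪ r.support) = ph N Q * ph N r.support := by
    unfold ph
    rw [Finset.prod_union]
    rw [Finset.disjoint_left]
    intro t ht ht2
    exact (Finsupp.mem_support_iff.1 ht2) (hrq t ht)
  have hQ := yb_ph_pos hN.two_le Q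
  have hr := yb_ph_pos hN.two_le r.support
  have hB2 : B ^ 2 ≤ 2 * C ^ 2 / L * ((ph N r.support)⁻¹ * (ph N Q)⁻¹) := by
    have h1 : (0 : ℝ) ≤ (ph N (Q ∪ r.support))⁻¹ := by rw [hph]; positivity
    have h2 : B ^ 2 = C ^ 2 / L ^ 2 * (1 + L) * (ph N (Q ∪ r.support))⁻¹ := by
      rw [hB, mul_pow, mul_pow, div_pow, Real.sq_sqrt (by linarith), Real.sq_sqrt h1]
    have h3 : (ph N (Q ∪ r.support))⁻¹ = (ph N r.support)⁻¹ * (ph N Q)⁻¹ := by
      rw [hph, mul_inv, mul_comm]
    rw [h2, h3]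
    apply mul_le_mul_of_nonneg_right _ (by positivity)
    rw [div_mul_eq_mul_div, div_le_div_iff₀ (by positivity) hL0]
    have : 1 + L ≤ 2 * L := by linarith
    calc C ^ 2 * (1 + L) * L ≤ C ^ 2 * (2 * L) * L := by gcongr
      _ = 2 * C ^ 2 * L ^ 2 := by ring
  have hrR := hnmR r
  calc |YY N L Q s r| ≤ ∑ p ∈ A, (|(al : MvPowerSeries P ℝ) p.1| *
        |(al : MvPowerSeries P ℝ) p.2| / ((nm N p.1 : ℝ) * nm N p.2)) * B ^ 2 := by
        rw [hsum]
        exact (Finset.abs_sum_le_sum_abs _ _).trans (Finset.sum_le_sum hterm)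
    _ = (∑ p ∈ A, (|(al : MvPowerSeries P ℝ) p.1| *
        |(al : MvPowerSeries P ℝ) p.2| / ((nm N p.1 : ℝ) * nm N p.2))) * B ^ 2 := by
        rw [Finset.sum_mul]
    _ ≤ (1 / nm N r * (ph N r.support)⁻¹) *
        (2 * C ^ 2 / L * ((ph N r.support)⁻¹ * (ph N Q)⁻¹)) := by
        apply mul_le_mul hsm hB2 (by positivity) (by positivity)
    _ = _ := by ring

end Pool.Agent.AS

namespace Pool.Agent.AS

theorem YY_le : type_of% @YY_le_pr := @YY_le_pr

end Pool.Agent.AS
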