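import Pool.Agent.Lib_helper24.AS.Defs
import Pool.Agent.Lib_helper92.ASA.BAS
import Pool.Agent.Lib_helper92.ASA.JT
import Pool.Agent.Lib_helper92.ASA.RSUM3
import Pool.Agent.Lib_helper92.ASA.SQEQ
import Pool.Agent.Lib_helper92.ASA.YB

/-!
# Block SB of MP_77948b_nt: the bound for Selberg's quadratic form.
-/

namespace Pool.Agent.AS

open Complex MeasureTheory Filter Topology

variable {P : Type}

theorem sb_term {N : P → ℕ} (hN : Good N) {L s C : ℝ} (hL : 1 ≤ L) (hs : 0 ≤ s) (hs1 : s ≤ 1 / L)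
    {Q : Finset P} {r : P →₀ ℕ} (hr : r ∈ ball N (Real.exp (2 * L)))
    (hY : |YY N L Q s r| ≤ C / L * (ph N Q)⁻¹ * ((ph N r.support)⁻¹) ^ 2 / nm N r) :
    Jt N s r * YY N L Q s r ^ 2 ≤ (C / L * (ph N Q)⁻¹) ^ 2 * Real.exp 2 *
      (1 / (nm N r : ℝ) * ((ph N r.support)⁻¹) ^ 4) := by
  have hr' := (mem_ball hN).1 hr
  have hr0 : (0 : ℝ) < nm N r := by exact_mod_cast nm_pos hN.two_le r
  have hL0 : 0 < L := by linarith
  have h1 : Jt N s r ≤ (nm N r : ℝ) ^ (1 + s) := Jt_le hN.two_le hs r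
  have h2 : YY N L Q s r ^ 2 ≤
      (C / L * (ph N Q)⁻¹ * ((ph N r.support)⁻¹) ^ 2 / nm N r) ^ 2 := by
    rw [← sq_abs]
    exact pow_le_pow_left₀ (abs_nonneg _) hY 2
  have h3 : (nm N r : ℝ) ^ s ≤ Real.exp 2 := by
    have h6 : (1 : ℝ) ≤ nm N r := by exact_mod_cast nm_pos hN.two_le r
    calc (nm N r : ℝ) ^ s ≤ (nm N r : ℝ) ^ (1 / L) := Real.rpow_le_rpow_of_exponent_le h6 hs1
      _ ≤ (Real.exp (2 * L)) ^ (1 / L) := Real.rpow_le_rpow hr0.le hr' (by positivity)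
      _ = Real.exp 2 := by
          rw [← Real.exp_mul]
          congr 1
          field_simp
  have h7 : (nm N r : ℝ) ^ (1 + s) = nm N r * (nm N r : ℝ) ^ s := by
    rw [Real.rpow_add hr0, Real.rpow_one]
  generalize YY N L Q s r = Y at *
  generalize Jt N s r = J at *
  generalize (ph N Q)⁻¹ = a at *
  generalize (ph N r.support)⁻¹ = b at *
  calc J * Y ^ 2
      ≤ (nm N r : ℝ) ^ (1 + s) * (C / L * a * b ^ 2 / nm N r) ^ 2 :=
        mul_le_mul h1 h2 (sq_nonneg _) (by positivity)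
    _ = (nm N r : ℝ) ^ s * (nm N r * (C / L * a * b ^ 2 / nm N r) ^ 2) := by
        rw [h7]; ring
    _ ≤ Real.exp 2 * (nm N r * (C / L * a * b ^ 2 / nm N r) ^ 2) :=
        mul_le_mul_of_nonneg_right h3 (by positivity)
    _ = _ := by
        field_simp

theorem sb_ph_pos {N : P → ℕ} (hN : ∀ p, 2 ≤ N p) (Q : Finset P) : 0 < ph N Q := by
  unfold ph
  refine Finset.prod_pos fun p _ => ?_
  have h2 : (2 : ℝ) ≤ N p := by exact_mod_cast hN p
  have h3 : ((N p : ℝ))⁻¹ ≤ 2⁻¹ := inv_anti₀ (by norm_num) h2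
  norm_num at h3 ⊢
  linarith

theorem Sq_le_pr {N : P → ℕ} (hN : Good N) : ∃ C : ℝ, 0 ≤ C ∧ ∀ (L : ℝ) (Q : Finset P) (s : ℝ),
    1 ≤ L → ∑ p ∈ Q, Real.log (N p) ≤ 32 * L → 0 ≤ s → s ≤ 1 / L →
      Sq N L Q s ≤ C * (ph N Q)⁻¹ / L := by
  classical
  obtain ⟨C₁, hC₁, hY⟩ := YY_le hN
  obtain ⟨C₂, hC₂, hR⟩ := rsum3 hN
  refine ⟨Real.exp 2 * C₁ ^ 2 * C₂, by positivity, fun L Q s hL hQ hs hs1 => ?_⟩
  have hL0 : 0 < L := by linarith
  have hph : 0 < ph N Q := sb_ph_pos hN.two_le Q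
  rw [Sq_eq hN L Q s]
  calc ∑ r ∈ (ball N (Real.exp (2 * L))).filter (fun r => Cop Q r), Jt N s r * YY N L Q s r ^ 2
      ≤ ∑ r ∈ (ball N (Real.exp (2 * L))).filter (fun r => Cop Q r),
          (C₁ / L * (ph N Q)⁻¹) ^ 2 * Real.exp 2 *
            (1 / (nm N r : ℝ) * ((ph N r.support)⁻¹) ^ 4) := by
        apply Finset.sum_le_sum
        intro r hr
        obtain ⟨hr1, hr2⟩ := Finset.mem_filter.1 hr
        exact sb_term hN hL hs hs1 hr1 (hY L Q r s hL hr2 hs hs1)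
    _ = (C₁ / L * (ph N Q)⁻¹) ^ 2 * Real.exp 2 *
          ∑ r ∈ (ball N (Real.exp (2 * L))).filter (fun r => Cop Q r),
            1 / (nm N r : ℝ) * ((ph N r.support)⁻¹) ^ 4 := by rw [Finset.mul_sum]
    _ ≤ (C₁ / L * (ph N Q)⁻¹) ^ 2 * Real.exp 2 * (C₂ * L * ph N Q) := by
        apply mul_le_mul_of_nonneg_left _ (by positivity)
        convert hR L Q hL hQ
    _ = Real.exp 2 * C₁ ^ 2 * C₂ * (ph N Q)⁻¹ / L := by
        field_simp

end Pool.Agent.AS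

namespace Pool.Agent.AS

theorem Sq_le : type_of% @Sq_le_pr := @Sq_le_pr

end Pool.Agent.AS
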