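import Pool.Agent.Lib_helper24.AS.Defs
import Pool.Agent.Lib_helper92.ASA.BAS
import Pool.Agent.Lib_helper92.ASA.DIAGN
import Pool.Agent.Lib_helper92.ASA.RSUM1
import Pool.Agent.Lib_helper92.ASA.SB

/-!
# Block DIAGI: the integral of the diagonal
-/

namespace Pool.Agent.AS

open Complex MeasureTheory Filter Topology Set

variable {P : Type}

/-- monotone convergence for series of non-negative functions -/
theorem DIAGI_tsum {ι : Type} [Countable ι] {F : ι → ℝ → ℝ} (h0 : ∀ i v, 0 ≤ F i v)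
    (hi : ∀ i, Integrable (F i)) (hs : Summable fun i => ∫ v, F i v) :
    Integrable (fun v => ∑' i, F i v) ∧ ∫ v, ∑' i, F i v = ∑' i, ∫ v, F i v := by
  have hnorm : ∀ i v, ‖F i v‖ = F i v := fun i v => Real.norm_of_nonneg (h0 i v)
  constructor
  · have h1 : (fun v => ∑' i, F i v) = fun v => (∑' i, ENNReal.ofReal (F i v)).toReal := by
      funext v
      rw [ENNReal.tsum_toReal_eq (fun i => ENNReal.ofReal_ne_top)]
      congr 1
      funext i
      rw [ENNReal.toReal_ofReal (h0 i v)]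
    rw [h1]
    refine integrable_toReal_of_lintegral_ne_top ?_ ?_
    · exact AEMeasurable.tsum (fun i => (hi i).aemeasurable.ennreal_ofReal)
    · rw [lintegral_tsum (fun i => (hi i).aemeasurable.ennreal_ofReal)]
      have h2 : ∀ i, ∫⁻ v, ENNReal.ofReal (F i v) = ENNReal.ofReal (∫ v, F i v) := fun i =>
        (ofReal_integral_eq_lintegral_ofReal (hi i) (ae_of_all _ (h0 i))).symm
      rw [funext h2]
      exact hs.tsum_ofReal_ne_top
  · refine (integral_tsum_of_summable_integral_norm hi ?_).symm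
    have h2 : (fun i => ∫ v, ‖F i v‖) = fun i => ∫ v, F i v := by
      funext i
      congr 1
      funext v
      exact hnorm i v
    rw [h2]
    exact hs

theorem DIAGI_countable {N : P → ℕ} (hN : Good N) : Countable (P →₀ ℕ) := by
  rw [← Set.countable_univ_iff]
  have : (univ : Set (P →₀ ℕ)) ⊆ ⋃ n : ℕ, (ball N (n : ℝ) : Set (P →₀ ℕ)) := by
    intro g _
    rw [mem_iUnion]
    exact ⟨nm N g, (mem_ball hN).2 le_rfl⟩
  exact (countable_iUnion fun n : ℕ => (ball N (n : ℝ)).countable_toSet).mono this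

theorem DIAGI_ker {N : P → ℕ} {k : ℝ → ℝ} {ρ : ℝ} (hk : Kern N k ρ) :
    ∃ K : ℝ, 0 ≤ K ∧ ∀ s : ℝ, 0 ≤ s → s ≤ 1 →
      Integrable (fun w : ℝ => Real.exp ((1 + s) * w) * k w) ∧
        ∫ w : ℝ, Real.exp ((1 + s) * w) * k w ≤ K := by
  obtain ⟨C₁, hC₁⟩ := hk.decay (1 / 2) (by norm_num)
  obtain ⟨C₃, hC₃⟩ := hk.decay 3 (by norm_num)
  have hC₁0 : 0 ≤ C₁ := by
    have h1 := hC₁ 0
    have h2 := hk.nonneg 0
    simp only [mul_zero, neg_zero, Real.exp_zero, mul_one] at h1
    linarith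
  have hC₃0 : 0 ≤ C₃ := by
    have h1 := hC₃ 0
    have h2 := hk.nonneg 0
    simp only [mul_zero, neg_zero, Real.exp_zero, mul_one] at h1
    linarith
  set M : ℝ → ℝ := fun w => (Iic (0 : ℝ)).indicator (fun w => C₁ * Real.exp (1 / 2 * w)) w +
    (Ioi (0 : ℝ)).indicator (fun w => C₃ * Real.exp (-1 * w)) w with hM
  have hMi : Integrable M := by
    refine Integrable.add ?_ ?_
    · rw [integrable_indicator_iff measurableSet_Iic]
      exact (integrableOn_exp_mul_Iic (a := 1 / 2) (by norm_num) 0).const_mul _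
    · rw [integrable_indicator_iff measurableSet_Ioi]
      exact (integrableOn_exp_mul_Ioi (a := -1) (by norm_num) 0).const_mul _
  have hM0 : ∀ w, 0 ≤ M w := by
    intro w
    refine add_nonneg ?_ ?_
    · exact indicator_nonneg (fun w _ => by positivity) w
    · exact indicator_nonneg (fun w _ => by positivity) w
  refine ⟨∫ w, M w, integral_nonneg hM0, fun s hs0 hs1 => ?_⟩
  have hle : ∀ w : ℝ, Real.exp ((1 + s) * w) * k w ≤ M w := by
    intro w
    rcases le_or_gt w 0 with hw | hw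
    · have e : M w = C₁ * Real.exp (1 / 2 * w) := by
        simp only [hM]
        rw [indicator_of_mem (show w ∈ Iic (0 : ℝ) from hw),
          indicator_of_notMem (show w ∉ Ioi (0 : ℝ) from not_lt.2 hw), add_zero]
      rw [e]
      calc Real.exp ((1 + s) * w) * k w ≤
            Real.exp ((1 + s) * w) * (C₁ * Real.exp (-(1 / 2 * w))) :=
            mul_le_mul_of_nonneg_left (hC₁ w) (Real.exp_pos _).le
        _ = C₁ * Real.exp ((1 + s) * w + -(1 / 2 * w)) := by
            rw [Real.exp_add]; ring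
        _ ≤ C₁ * Real.exp (1 / 2 * w) := by
            refine mul_le_mul_of_nonneg_left ?_ hC₁0
            rw [Real.exp_le_exp]
            nlinarith
    · have e : M w = C₃ * Real.exp (-1 * w) := by
        simp only [hM]
        rw [indicator_of_notMem (show w ∉ Iic (0 : ℝ) from not_le.2 hw),
          indicator_of_mem (show w ∈ Ioi (0 : ℝ) from hw), zero_add]
      rw [e]
      calc Real.exp ((1 + s) * w) * k w ≤
            Real.exp ((1 + s) * w) * (C₃ * Real.exp (-(3 * w))) :=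
            mul_le_mul_of_nonneg_left (hC₃ w) (Real.exp_pos _).le
        _ = C₃ * Real.exp ((1 + s) * w + -(3 * w)) := by
            rw [Real.exp_add]; ring
        _ ≤ C₃ * Real.exp (-1 * w) := by
            refine mul_le_mul_of_nonneg_left ?_ hC₃0
            rw [Real.exp_le_exp]
            nlinarith
  have hint : Integrable (fun w : ℝ => Real.exp ((1 + s) * w) * k w) := by
    refine Integrable.mono' hMi ?_ (ae_of_all _ fun w => ?_)
    · have hc := hk.cont
      exact (Continuous.aestronglyMeasurable (by fun_prop))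
    · rw [Real.norm_of_nonneg (mul_nonneg (Real.exp_pos _).le (hk.nonneg w))]
      exact hle w
  exact ⟨hint, integral_mono hint hMi hle⟩

open Classical in
theorem DIAGI_WW {N : P → ℕ} (hN : Good N) {k : ℝ → ℝ} {ρ : ℝ} (hk : Kern N k ρ) (Q : Finset P)
    {s : ℝ} (hs : 0 < s) (hs1 : s ≤ 1) :
    Integrable (fun w : ℝ => Real.exp ((1 + s) * w) * WW N k Q w) ∧
    ∫ w : ℝ, Real.exp ((1 + s) * w) * WW N k Q w =
      (∫ w : ℝ, Real.exp ((1 + s) * w) * k w) *
        ∑' g : P →₀ ℕ, (if Cop Q g then (nm N g : ℝ) ^ (-1 - s) else 0) := by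
  haveI := DIAGI_countable hN
  obtain ⟨K, hK, hker⟩ := DIAGI_ker hk
  obtain ⟨hki, -⟩ := hker s hs.le hs1
  set h : ℝ → ℝ := fun w => Real.exp ((1 + s) * w) * k w with hh
  set F : (P →₀ ℕ) → ℝ → ℝ := fun g w => if Cop Q g then
    Real.exp ((1 + s) * w) * k (w + Real.log (nm N g)) else 0 with hF
  have hF0 : ∀ g v, 0 ≤ F g v := by
    intro g v
    simp only [hF]
    split_ifs
    · exact mul_nonneg (Real.exp_pos _).le (hk.nonneg _)
    · exact le_refl _
  have hFh : ∀ g, Cop Q g → F g = fun w =>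
      (nm N g : ℝ) ^ (-1 - s) * h (w + Real.log (nm N g)) := by
    intro g hg
    funext w
    have hpos : (0 : ℝ) < nm N g := by exact_mod_cast nm_pos hN.two_le g
    simp only [hF, if_pos hg, hh]
    rw [Real.rpow_def_of_pos hpos, ← mul_assoc, ← Real.exp_add]
    congr 2
    ring
  have hFi : ∀ g, Integrable (F g) := by
    intro g
    by_cases hg : Cop Q g
    · rw [hFh g hg]
      exact (hki.comp_add_right _).const_mul _
    · simp only [hF, if_neg hg]
      exact integrable_zero _ _ _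
  have hFint : ∀ g, ∫ v, F g v = (∫ w, h w) *
      (if Cop Q g then (nm N g : ℝ) ^ (-1 - s) else 0) := by
    intro g
    by_cases hg : Cop Q g
    · rw [hFh g hg, integral_const_mul, integral_add_right_eq_self h, if_pos hg, mul_comm]
    · simp only [hF, if_neg hg]
      simp
  obtain ⟨C, hC, hr⟩ := rsum1 hN
  obtain ⟨hsum, -⟩ := hr Q s hs (by linarith)
  have hsF : Summable fun g => ∫ v, F g v := by
    rw [funext hFint]
    exact hsum.mul_left _
  obtain ⟨h1, h2⟩ := DIAGI_tsum hF0 hFi hsF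
  have hfun : (fun w : ℝ => Real.exp ((1 + s) * w) * WW N k Q w) = fun v => ∑' g, F g v := by
    funext v
    unfold WW
    rw [← tsum_mul_left]
    congr 1
    funext g
    simp only [hF]
    split_ifs
    · rfl
    · rw [mul_zero]
  rw [hfun, h2, funext hFint, tsum_mul_left]
  exact ⟨h1, rfl⟩

open Classical in
theorem DIAGI_full {N : P → ℕ} (hN : Good N) {k : ℝ → ℝ} {ρ : ℝ} (hk : Kern N k ρ) (L : ℝ)
    (Q : Finset P) {s : ℝ} (hs : 0 < s) (hs1 : s ≤ 1) :
    Integrable (fun v : ℝ => Real.exp (s * v) * Diag N k L Q (v - 16 * L)) ∧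
    ∫ v : ℝ, Real.exp (s * v) * Diag N k L Q (v - 16 * L) =
      Real.exp (s * (16 * L)) * ((∫ w : ℝ, Real.exp ((1 + s) * w) * k w) *
        ∑' g : P →₀ ℕ, (if Cop Q g then (nm N g : ℝ) ^ (-1 - s) else 0)) * Sq N L Q s := by
  obtain ⟨hWi, hWv⟩ := DIAGI_WW hN hk Q hs hs1
  rw [← hWv]
  set H : ℝ → ℝ := fun w => Real.exp ((1 + s) * w) * WW N k Q w with hH
  have hpos : ∀ g : P →₀ ℕ, (0 : ℝ) < nm N g := fun g => by
    exact_mod_cast nm_pos hN.two_le g
  set aa : (P →₀ ℕ) × (P →₀ ℕ) → (P →₀ ℕ) × (P →₀ ℕ) → ℝ := fun j j' =>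
    ((nm N (gg j j') : ℝ) / (nm N j.1 * nm N j'.1)) with haa
  have haa0 : ∀ j j', 0 < aa j j' := by
    intro j j'
    have h1 := hpos j.1
    have h2 := hpos j'.1
    have h3 := hpos (gg j j')
    simp only [haa]
    positivity
  have hlog : ∀ j j', Real.log ((nm N j.1 : ℝ) * nm N j'.1 / nm N (gg j j')) =
      -Real.log (aa j j') := by
    intro j j'
    simp only [haa]
    rw [← Real.log_inv, inv_div]
  have hterm : ∀ j j' (v : ℝ), Real.exp (s * v) * (Real.exp (v - 16 * L) *
      WW N k Q (v - 16 * L + Real.log ((nm N j.1 : ℝ) * nm N j'.1 / nm N (gg j j')))) =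
      (Real.exp (s * (16 * L)) * (aa j j') ^ (1 + s)) *
        H (v + (-(16 * L) - Real.log (aa j j'))) := by
    intro j j' v
    simp only [hH]
    rw [hlog, Real.rpow_def_of_pos (haa0 j j')]
    have e1 : v - 16 * L + -Real.log (aa j j') = v + (-(16 * L) - Real.log (aa j j')) := by ring
    rw [e1]
    set W := WW N k Q (v + (-(16 * L) - Real.log (aa j j'))) with hW
    rw [← mul_assoc, ← mul_assoc, ← Real.exp_add, ← Real.exp_add, ← Real.exp_add]
    congr 2
    ring
  have hfun : (fun v : ℝ => Real.exp (s * v) * Diag N k L Q (v - 16 * L)) = fun v : ℝ =>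
      ∑ j ∈ JJ N L Q, ∑ j' ∈ JJ N L Q, (cc N L j * cc N L j') *
        ((Real.exp (s * (16 * L)) * (aa j j') ^ (1 + s)) *
          H (v + (-(16 * L) - Real.log (aa j j')))) := by
    funext v
    unfold Diag
    rw [Finset.mul_sum, Finset.mul_sum]
    refine Finset.sum_congr rfl (fun j _ => ?_)
    rw [Finset.mul_sum, Finset.mul_sum]
    refine Finset.sum_congr rfl (fun j' _ => ?_)
    rw [← hterm]
    ring
  have hint : ∀ j ∈ JJ N L Q, ∀ j' ∈ JJ N L Q, Integrable (fun v : ℝ =>
      (cc N L j * cc N L j') * ((Real.exp (s * (16 * L)) * (aa j j') ^ (1 + s)) *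
          H (v + (-(16 * L) - Real.log (aa j j'))))) := by
    intro j hj j' hj'
    exact ((hWi.comp_add_right _).const_mul _).const_mul _
  rw [hfun]
  refine ⟨integrable_finsetSum _ (fun j hj => integrable_finsetSum _ (fun j' hj' =>
    hint j hj j' hj')), ?_⟩
  rw [integral_finsetSum _ (fun j hj => integrable_finsetSum _ (fun j' hj' => hint j hj j' hj'))]
  unfold Sq
  rw [Finset.mul_sum]
  refine Finset.sum_congr rfl (fun j hj => ?_)
  rw [integral_finsetSum _ (fun j' hj' => hint j hj j' hj'), Finset.mul_sum]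
  refine Finset.sum_congr rfl (fun j' hj' => ?_)
  rw [integral_const_mul, integral_const_mul, integral_add_right_eq_self H]
  simp only [haa]
  ring

theorem diag_int_pr {N : P → ℕ} (hN : Good N) {k : ℝ → ℝ} {ρ : ℝ} (hk : Kern N k ρ) :
    ∃ C : ℝ, 0 ≤ C ∧ ∀ (L : ℝ) (Q : Finset P), 1 ≤ L →
      ∑ p ∈ Q, Real.log (N p) ≤ 32 * L →
        IntegrableOn (fun v => Diag N k L Q (v - 16 * L)) (Set.Ioi 0) ∧
          ∫ v in Set.Ioi (0 : ℝ), Diag N k L Q (v - 16 * L) ≤ C := by
  classical
  obtain ⟨C₁, hC₁, hS⟩ := Sq_le hN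
  obtain ⟨K, hK, hker⟩ := DIAGI_ker hk
  obtain ⟨C₂, hC₂, hr⟩ := rsum1 hN
  refine ⟨Real.exp 16 * (K * (C₂ * Real.exp 32)) * C₁, by positivity, fun L Q hL hQL => ?_⟩
  have hL0 : (0 : ℝ) < L := by linarith
  set s : ℝ := 1 / L with hs
  have hs0 : 0 < s := by positivity
  have hs2 : s ≤ 1 := by
    rw [hs, div_le_one hL0]
    exact hL
  obtain ⟨hint, hval⟩ := DIAGI_full hN hk L Q hs0 hs2
  have hnn : ∀ v : ℝ, 0 ≤ Diag N k L Q (v - 16 * L) := fun v => diag_nonneg hN hk L Q _
  have hexp : ∀ v ∈ Ioi (0 : ℝ), Diag N k L Q (v - 16 * L) ≤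
      Real.exp (s * v) * Diag N k L Q (v - 16 * L) := by
    intro v hv
    have hv0 : (0 : ℝ) < v := hv
    have h1 : 1 ≤ Real.exp (s * v) := Real.one_le_exp (by positivity)
    have := mul_le_mul_of_nonneg_right h1 (hnn v)
    linarith
  have hint2 : IntegrableOn (fun v => Diag N k L Q (v - 16 * L)) (Set.Ioi 0) := by
    have hmeas : AEStronglyMeasurable (fun v : ℝ => Diag N k L Q (v - 16 * L)) := by
      have h1 : (fun v : ℝ => Diag N k L Q (v - 16 * L)) = fun v : ℝ =>
          Real.exp (-(s * v)) * (Real.exp (s * v) * Diag N k L Q (v - 16 * L)) := by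
        funext v
        rw [← mul_assoc, ← Real.exp_add]
        simp
      rw [h1]
      refine AEStronglyMeasurable.mul ?_ hint.aestronglyMeasurable
      exact (Continuous.aestronglyMeasurable (by fun_prop))
    refine Integrable.mono' (hint.integrableOn (s := Ioi 0)) hmeas.restrict ?_
    refine (ae_restrict_iff' measurableSet_Ioi).mpr (ae_of_all _ (fun v hv => ?_))
    rw [Real.norm_of_nonneg (hnn v)]
    exact hexp v hv
  refine ⟨hint2, ?_⟩
  have hle1 : ∫ v in Ioi (0 : ℝ), Diag N k L Q (v - 16 * L) ≤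
      ∫ v : ℝ, Real.exp (s * v) * Diag N k L Q (v - 16 * L) := by
    refine (setIntegral_mono_on hint2 hint.integrableOn measurableSet_Ioi hexp).trans ?_
    exact setIntegral_le_integral hint (ae_of_all _ (fun v => mul_nonneg (Real.exp_pos _).le (hnn v)))
  refine hle1.trans ?_
  rw [hval]
  set Z : ℝ := ∑' g : P →₀ ℕ, (if Cop Q g then (nm N g : ℝ) ^ (-1 - s) else 0) with hZ
  have hZ0 : 0 ≤ Z := by
    refine tsum_nonneg (fun m => ?_)
    split_ifs
    · positivity
    · exact le_refl _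
  have hph : 0 < ph N Q := by
    unfold ph
    refine Finset.prod_pos fun p _ => ?_
    have h : (2 : ℝ) ≤ N p := by exact_mod_cast hN.two_le p
    have h2 : ((N p : ℝ))⁻¹ ≤ 2⁻¹ := inv_anti₀ (by norm_num) h
    linarith
  have hsL : s * L = 1 := by
    rw [hs]
    field_simp
  have hZ1 : Z ≤ C₂ * L * ph N Q * Real.exp 32 := by
    refine (hr Q s hs0 (by linarith)).2.trans ?_
    have e1 : C₂ / s = C₂ * L := by
      rw [hs]
      field_simp
    rw [e1]
    refine mul_le_mul_of_nonneg_left ?_ (by positivity)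
    rw [Real.exp_le_exp]
    calc s * ∑ p ∈ Q, Real.log (N p) ≤ s * (32 * L) := mul_le_mul_of_nonneg_left hQL hs0.le
      _ = 32 * (s * L) := by ring
      _ = 32 := by rw [hsL, mul_one]
  obtain ⟨-, hk1⟩ := hker s hs0.le hs2
  have hk0 : 0 ≤ ∫ w : ℝ, Real.exp ((1 + s) * w) * k w :=
    integral_nonneg fun w => mul_nonneg (Real.exp_pos _).le (hk.nonneg w)
  have hSq := hS L Q s hL hQL hs0.le le_rfl
  have h16 : Real.exp (s * (16 * L)) = Real.exp 16 := by
    congr 1
    calc s * (16 * L) = 16 * (s * L) := by ring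
      _ = 16 := by rw [hsL, mul_one]
  rw [h16]
  calc Real.exp 16 * ((∫ w : ℝ, Real.exp ((1 + s) * w) * k w) * Z) * Sq N L Q s
      ≤ Real.exp 16 * ((∫ w : ℝ, Real.exp ((1 + s) * w) * k w) * Z) *
          (C₁ * (ph N Q)⁻¹ / L) :=
        mul_le_mul_of_nonneg_left hSq (by positivity)
    _ ≤ Real.exp 16 * (K * (C₂ * L * ph N Q * Real.exp 32)) * (C₁ * (ph N Q)⁻¹ / L) := by
        refine mul_le_mul_of_nonneg_right ?_ (by positivity)
        refine mul_le_mul_of_nonneg_left ?_ (Real.exp_pos _).le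
        exact mul_le_mul hk1 hZ1 hZ0 hK
    _ = Real.exp 16 * (K * (C₂ * Real.exp 32)) * C₁ := by
        field_simp

end Pool.Agent.AS

namespace Pool.Agent.AS

theorem diag_int : type_of% @diag_int_pr := @diag_int_pr

end Pool.Agent.AS
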