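import Pool.Agent.Lib_helper24.AS.Defs
import Pool.Agent.Lib_helper92.ASA.BAS

/-! Block GSUM of K-SELBERG (helper93). -/

namespace Pool.Agent.AS

open Complex MeasureTheory Filter Topology

variable {P : Type}

theorem gsum_summable {N : P → ℕ} (hN : Good N) {k : ℝ → ℝ} {ρ : ℝ} (hk : Kern N k ρ) (w : ℝ) :
    Summable (fun g : P →₀ ℕ => k (w + Real.log (nm N g))) := by
  obtain ⟨C, hC⟩ := hk.decay 2 (by norm_num)
  have h1 := (hN.summable 1 (by norm_num)).mul_left (C * Real.exp (-(2 * w)))
  refine Summable.of_nonneg_of_le (fun g => hk.nonneg _) (fun g => ?_) h1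
  refine (hC _).trans (le_of_eq ?_)
  have hpos : (0 : ℝ) < nm N g := by exact_mod_cast nm_pos hN.two_le g
  have e : -(2 * (w + Real.log (nm N g))) = -(2 * w) + Real.log (nm N g) * (-(1 + 1)) := by ring
  rw [e, Real.exp_add, ← Real.rpow_def_of_pos hpos, mul_assoc]

theorem gsum_summable' {N : P → ℕ} (hN : Good N) {k : ℝ → ℝ} {ρ : ℝ} (hk : Kern N k ρ) (w : ℝ)
    (A : (P →₀ ℕ) → Prop) [DecidablePred A] :
    Summable (fun g : P →₀ ℕ => if A g then k (w + Real.log (nm N g)) else 0) := by
  refine Summable.of_nonneg_of_le (fun g => ?_) (fun g => ?_) (gsum_summable hN hk w)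
  · split_ifs
    · exact hk.nonneg _
    · exact le_rfl
  · split_ifs
    · exact le_rfl
    · exact hk.nonneg _

theorem gsum_step {N : P → ℕ} (hN : Good N) {k : ℝ → ℝ} {ρ : ℝ} (hk : Kern N k ρ) (w : ℝ)
    (Q : Finset P) (p : P) (hp : p ∉ Q) (hd : DecidableEq P) :
    WW N k (insert p Q) w = WW N k Q w - WW N k Q (w + Real.log (N p)) := by
  classical
  have h1 : WW N k Q w = WW N k (insert p Q) w +
      ∑' g : P →₀ ℕ, (if Cop Q g ∧ g p ≠ 0 then k (w + Real.log (nm N g)) else 0) := by
    unfold WW
    rw [← Summable.tsum_add (gsum_summable' hN hk w (fun g => Cop (insert p Q) g))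
      (gsum_summable' hN hk w (fun g => Cop Q g ∧ g p ≠ 0))]
    refine tsum_congr fun g => ?_
    by_cases hQ : Cop Q g
    · by_cases hg : g p = 0
      · have h2 : Cop (insert p Q) g := by
          intro q hq
          rcases Finset.mem_insert.1 hq with rfl | hq
          · exact hg
          · exact hQ q hq
        rw [if_pos hQ, if_pos h2, if_neg (by tauto), add_zero]
      · have h2 : ¬ Cop (insert p Q) g := fun h => hg (h p (Finset.mem_insert_self _ _))
        rw [if_pos hQ, if_neg h2, if_pos ⟨hQ, hg⟩, zero_add]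
    · have h2 : ¬ Cop (insert p Q) g := fun h => hQ fun q hq => h q (Finset.mem_insert_of_mem hq)
      rw [if_neg hQ, if_neg h2, if_neg (by tauto), add_zero]
  have h2 : ∑' g : P →₀ ℕ, (if Cop Q g ∧ g p ≠ 0 then k (w + Real.log (nm N g)) else 0) =
      WW N k Q (w + Real.log (N p)) := by
    unfold WW
    have hinj : Function.Injective (fun g : P →₀ ℕ => g + Finsupp.single p 1) :=
      fun a b h => add_right_cancel h
    have hsupp : Function.support
        (fun g : P →₀ ℕ => if Cop Q g ∧ g p ≠ 0 then k (w + Real.log (nm N g)) else 0) ⊆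
        Set.range (fun g : P →₀ ℕ => g + Finsupp.single p 1) := by
      intro g hg
      rw [Function.mem_support] at hg
      have h3 : g p ≠ 0 := by
        by_contra h
        exact hg (if_neg (by tauto))
      refine ⟨g - Finsupp.single p 1, ?_⟩
      refine tsub_add_cancel_of_le ?_
      intro q
      by_cases hq : p = q
      · subst hq
        simpa using Nat.one_le_iff_ne_zero.2 h3
      · rw [Finsupp.single_eq_of_ne' hq]
        exact Nat.zero_le _
    rw [← Function.Injective.tsum_eq hinj hsupp]
    refine tsum_congr fun g => ?_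
    have h3 : Cop Q (g + Finsupp.single p 1) ↔ Cop Q g := by
      rw [cop_add]
      constructor
      · exact fun h => h.1
      · refine fun h => ⟨h, fun q hq => ?_⟩
        have : p ≠ q := fun h => hp (h ▸ hq)
        exact Finsupp.single_eq_of_ne' this
    have h4 : (g + Finsupp.single p 1 : P →₀ ℕ) p ≠ 0 := by simp
    by_cases hQ : Cop Q g
    · rw [if_pos ⟨h3.2 hQ, h4⟩, if_pos hQ]
      have h5 : (nm N g : ℝ) ≠ 0 := by exact_mod_cast (nm_pos hN.two_le g).ne'
      have h6 : (N p : ℝ) ≠ 0 := by
        have := hN.two_le p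
        have : N p ≠ 0 := by omega
        exact_mod_cast this
      rw [nm_add, nm_single, pow_one]
      push_cast
      rw [Real.log_mul h5 h6]
      congr 1
      ring
    · rw [if_neg hQ, if_neg]
      intro h
      exact hQ (h3.1 h.1)
  rw [h1, h2]
  ring

theorem gsum_pr {N : P → ℕ} (hN : Good N) {k : ℝ → ℝ} {ρ : ℝ} (hk : Kern N k ρ) :
    ∃ C : ℝ, 0 ≤ C ∧ ∀ (Q : Finset P) (w : ℝ),
      |WW N k Q w - ρ * ph N Q * Real.exp (-w)| ≤ C * 2 ^ Q.card := by
  classical
  obtain ⟨C, hC⟩ := hk.poisson
  have hC0 : 0 ≤ C := (abs_nonneg _).trans (hC 0)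
  refine ⟨C, hC0, fun Q => ?_⟩
  induction Q using Finset.induction_on with
  | empty =>
    intro w
    have h1 : WW N k ∅ w = ∑' g : P →₀ ℕ, k (w + Real.log (nm N g)) := by
      unfold WW
      refine tsum_congr fun g => ?_
      rw [if_pos]
      intro q hq
      simp at hq
    rw [h1]
    simp only [ph, Finset.prod_empty, Finset.card_empty, pow_zero, mul_one]
    exact hC w
  | insert p Q hp ih =>
    intro w
    rw [gsum_step hN hk w Q p hp inferInstance, Finset.card_insert_of_notMem hp, pow_succ]
    have h1 := ih w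
    have h2 := ih (w + Real.log (N p))
    have h6 : (0 : ℝ) < (N p : ℝ) := by
      have := hN.two_le p
      have : 0 < N p := by omega
      exact_mod_cast this
    have h3 : ρ * ph N (insert p Q) * Real.exp (-w) = ρ * ph N Q * Real.exp (-w) -
        ρ * ph N Q * Real.exp (-(w + Real.log (N p))) := by
      have h4 : Real.exp (-(w + Real.log (N p))) = Real.exp (-w) * ((N p : ℝ))⁻¹ := by
        rw [neg_add, Real.exp_add, Real.exp_neg (Real.log _), Real.exp_log h6]
      rw [h4]
      unfold ph
      rw [Finset.prod_insert hp]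
      ring
    rw [h3]
    have h5 : WW N k Q w - WW N k Q (w + Real.log (N p)) - (ρ * ph N Q * Real.exp (-w) -
        ρ * ph N Q * Real.exp (-(w + Real.log (N p)))) =
        (WW N k Q w - ρ * ph N Q * Real.exp (-w)) -
        (WW N k Q (w + Real.log (N p)) - ρ * ph N Q * Real.exp (-(w + Real.log (N p)))) := by ring
    rw [h5]
    have h7 := abs_sub (WW N k Q w - ρ * ph N Q * Real.exp (-w))
        (WW N k Q (w + Real.log (N p)) - ρ * ph N Q * Real.exp (-(w + Real.log (N p))))
    linarith

end Pool.Agent.AS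

namespace Pool.Agent.AS

theorem gsum : type_of% @gsum_pr := @gsum_pr

end Pool.Agent.AS
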