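import Pool.Agent.Lib_helper24.AS.Defs
import Pool.Agent.Lib_helper92.ASA.BAS

/-!
# Block OMEGA of MP_77948b_nt: `2 ^ card Q` against the norm.
-/

namespace Pool.Agent.AS

open Complex MeasureTheory Filter Topology

variable {P : Type}

theorem omega_aux {n : ℕ} (hn : 0 < n) :
    (2 : ℝ) ≤ Real.exp (1 / 8 * Real.log n) * (if n < 256 then 2 else 1) := by
  have h1 : (1 : ℝ) ≤ n := by exact_mod_cast hn
  have h0 : (0 : ℝ) < n := by linarith
  have he : Real.exp (1 / 8 * Real.log n) = (n : ℝ) ^ (1 / 8 : ℝ) := by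
    rw [Real.rpow_def_of_pos h0, mul_comm]
  rw [he]
  split_ifs with h
  · have : (1 : ℝ) ≤ (n : ℝ) ^ (1 / 8 : ℝ) := Real.one_le_rpow h1 (by norm_num)
    linarith
  · have h2 : (256 : ℝ) ≤ n := by exact_mod_cast (not_lt.mp h)
    have h3 : (256 : ℝ) ^ (1 / 8 : ℝ) ≤ (n : ℝ) ^ (1 / 8 : ℝ) :=
      Real.rpow_le_rpow (by norm_num) h2 (by norm_num)
    have h4 : (256 : ℝ) ^ (1 / 8 : ℝ) = 2 := by
      have : (256 : ℝ) = 2 ^ (8 : ℝ) := by norm_num
      rw [this, ← Real.rpow_mul (by norm_num)]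
      norm_num
    rw [h4] at h3
    linarith

theorem omega_le_pr {N : P → ℕ} (hN : Good N) : ∃ C : ℝ, 0 ≤ C ∧ ∀ Q : Finset P,
    (2 : ℝ) ^ Q.card ≤ C * Real.exp (1 / 8 * ∑ p ∈ Q, Real.log (N p)) := by
  classical
  refine ⟨2 ^ (ball N 256).card, by positivity, fun Q => ?_⟩
  have h1 : (2 : ℝ) ^ Q.card ≤
      ∏ p ∈ Q, (Real.exp (1 / 8 * Real.log (N p)) * (if N p < 256 then 2 else 1)) := by
    rw [← Finset.prod_const]
    apply Finset.prod_le_prod (fun _ _ => by norm_num)
    intro p hp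
    exact omega_aux (by have := hN.two_le p; omega)
  refine h1.trans ?_
  rw [Finset.prod_mul_distrib, mul_comm, ← Real.exp_sum, ← Finset.mul_sum]
  apply mul_le_mul_of_nonneg_right _ (Real.exp_pos _).le
  rw [Finset.prod_ite, Finset.prod_const, Finset.prod_const, one_pow, mul_one]
  apply pow_le_pow_right₀ (by norm_num)
  refine Finset.card_le_card_of_injOn (fun p => Finsupp.single p 1) ?_ ?_
  · intro p hp
    have hp' := (Finset.mem_filter.1 hp).2
    refine (mem_ball hN).2 ?_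
    rw [nm_single, pow_one]
    have : N p ≤ 256 := by omega
    exact_mod_cast this
  · intro p _ q _ hpq
    exact (Finsupp.single_left_injective (one_ne_zero)) hpq

end Pool.Agent.AS

namespace Pool.Agent.AS

theorem omega_le : type_of% @omega_le_pr := @omega_le_pr

end Pool.Agent.AS
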