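import Pool.Agent.Lib_helper24.AS.Defs
import Pool.Agent.Lib_helper92.ASA.BAS
import Pool.Agent.Lib_helper92.ASA.BBD
import Pool.Agent.Lib_helper92.ASA.GSUM
import Pool.Agent.Lib_helper92.ASA.OMEGA
import Pool.Agent.Lib_helper92.ASA.SB

/-!
# Block DIAGS: the diagonal in the short range
-/

namespace Pool.Agent.AS

open Complex MeasureTheory Filter Topology

variable {P : Type}

theorem DIAGS_one_le {N : P → ℕ} (hN : ∀ p, 2 ≤ N p) (g : P →₀ ℕ) : (1 : ℝ) ≤ nm N g := by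
  exact_mod_cast nm_pos hN g

theorem DIAGS_cc {N : P → ℕ} (hN : ∀ p, 2 ≤ N p) {L : ℝ} (hL : 0 < L)
    (j : (P →₀ ℕ) × (P →₀ ℕ)) : |cc N L j| ≤ 1 := by
  unfold cc
  rw [abs_div, abs_mul]
  have h1 := be_abs hN hL j.1
  have h2 := be_abs hN hL j.2
  have h3 : |be N L j.1| * |be N L j.2| ≤ 1 := by
    calc |be N L j.1| * |be N L j.2| ≤ 1 * 1 := mul_le_mul h1 h2 (abs_nonneg _) zero_le_one
      _ = 1 := one_mul 1
  have h4 : (1 : ℝ) ≤ |(nm N j.2 : ℝ)| := by
    rw [Nat.abs_cast]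
    exact DIAGS_one_le hN j.2
  rw [div_le_one (by linarith)]
  linarith

theorem DIAGS_ph {N : P → ℕ} (hN : ∀ p, 2 ≤ N p) (Q : Finset P) : 0 < ph N Q := by
  unfold ph
  refine Finset.prod_pos fun p _ => ?_
  have h : (2 : ℝ) ≤ N p := by exact_mod_cast hN p
  have h2 : ((N p : ℝ))⁻¹ ≤ 2⁻¹ := inv_anti₀ (by norm_num) h
  linarith

theorem DIAGS_card {N : P → ℕ} (L : ℝ) (Q : Finset P) :
    ((JJ N L Q).card : ℝ) ≤ ((ball N (Real.exp L)).card : ℝ) * (ball N (Real.exp L)).card := by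
  have h1 : (JJ N L Q).card ≤ (ball N (Real.exp L)).card * (ball N (Real.exp L)).card := by
    classical
    unfold JJ
    refine (Finset.card_filter_le _ _).trans ?_
    rw [Finset.card_product]
  exact_mod_cast h1

theorem diag_small_pr {N : P → ℕ} (hN : Good N) {k : ℝ → ℝ} {ρ : ℝ} (hk : Kern N k ρ) :
    ∃ C : ℝ, 0 ≤ C ∧ ∀ (L : ℝ) (Q : Finset P) (u : ℝ), 1 ≤ L →
      ∑ p ∈ Q, Real.log (N p) ≤ 32 * L → u ≤ L / 2 - 16 * L → Diag N k L Q u ≤ C / L := by
  obtain ⟨C₁, hC₁, hS⟩ := Sq_le hN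
  obtain ⟨C₂, hC₂, hG⟩ := gsum hN hk
  obtain ⟨C₃, hC₃, hO⟩ := omega_le hN
  obtain ⟨C₀, hC₀, hB⟩ := ball_card hN
  have hρ := hk.rho
  refine ⟨ρ * C₁ + C₀ ^ 4 * C₂ * C₃, by positivity, fun L Q u hL hQ hu => ?_⟩
  have hL0 : 0 < L := by linarith
  have hph := DIAGS_ph hN.two_le Q
  set W : ℝ := 2 ^ Q.card with hW
  have hW' : W ≤ C₃ * Real.exp (4 * L) := by
    refine (hO Q).trans ?_
    refine mul_le_mul_of_nonneg_left ?_ hC₃
    rw [Real.exp_le_exp]
    linarith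
  have hW0 : 0 ≤ W := by positivity
  have hterm : ∀ j ∈ JJ N L Q, ∀ j' ∈ JJ N L Q,
      cc N L j * cc N L j' *
        WW N k Q (u + Real.log ((nm N j.1 : ℝ) * nm N j'.1 / nm N (gg j j'))) ≤
      (ρ * ph N Q * Real.exp (-u)) *
        (cc N L j * cc N L j' * ((nm N (gg j j') : ℝ) / (nm N j.1 * nm N j'.1)) ^ (1 + (0 : ℝ))) +
          C₂ * W := by
    intro j hj j' hj'
    have hgR : (0 : ℝ) < nm N (gg j j') := by
      have := DIAGS_one_le hN.two_le (gg j j')
      linarith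
    have h1R : (0 : ℝ) < nm N j.1 := by
      have := DIAGS_one_le hN.two_le j.1
      linarith
    have h1R' : (0 : ℝ) < nm N j'.1 := by
      have := DIAGS_one_le hN.two_le j'.1
      linarith
    have h3 := hG Q (u + Real.log ((nm N j.1 : ℝ) * nm N j'.1 / nm N (gg j j')))
    have he : Real.exp (-(u + Real.log ((nm N j.1 : ℝ) * nm N j'.1 / nm N (gg j j')))) =
        Real.exp (-u) * ((nm N (gg j j') : ℝ) / (nm N j.1 * nm N j'.1)) := by
      rw [neg_add, Real.exp_add, Real.exp_neg (Real.log _), Real.exp_log (by positivity), inv_div]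
    rw [he] at h3
    have h4 : |cc N L j * cc N L j'| ≤ 1 := by
      rw [abs_mul]
      calc |cc N L j| * |cc N L j'| ≤ 1 * 1 :=
            mul_le_mul (DIAGS_cc hN.two_le hL0 j) (DIAGS_cc hN.two_le hL0 j') (abs_nonneg _)
              zero_le_one
        _ = 1 := one_mul 1
    set ww := WW N k Q (u + Real.log ((nm N j.1 : ℝ) * nm N j'.1 / nm N (gg j j'))) with hww
    set rr : ℝ := (nm N (gg j j') : ℝ) / (nm N j.1 * nm N j'.1) with hrr
    have h5 : cc N L j * cc N L j' * (ww - ρ * ph N Q * (Real.exp (-u) * rr)) ≤ C₂ * W := by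
      refine (le_abs_self _).trans ?_
      rw [abs_mul]
      calc |cc N L j * cc N L j'| * |ww - ρ * ph N Q * (Real.exp (-u) * rr)| ≤ 1 * (C₂ * W) :=
            mul_le_mul h4 h3 (abs_nonneg _) zero_le_one
        _ = C₂ * W := one_mul _
    rw [add_zero, Real.rpow_one]
    nlinarith [h5]
  have hcard : ((JJ N L Q).card : ℝ) ≤ C₀ ^ 2 * Real.exp (4 * L) := by
    refine (DIAGS_card L Q).trans ?_
    have h1 := hB (Real.exp L) (Real.one_le_exp hL0.le)
    have h2 : (0 : ℝ) ≤ (ball N (Real.exp L)).card := Nat.cast_nonneg _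
    calc ((ball N (Real.exp L)).card : ℝ) * (ball N (Real.exp L)).card
        ≤ (C₀ * Real.exp L ^ 2) * (C₀ * Real.exp L ^ 2) :=
          mul_le_mul h1 h1 h2 (h2.trans h1)
      _ = C₀ ^ 2 * Real.exp (4 * L) := by
          have : Real.exp (4 * L) = Real.exp L ^ 4 := by
            rw [← Real.exp_nat_mul]
            norm_num
          rw [this]
          ring
  have hsum : ∑ j ∈ JJ N L Q, ∑ j' ∈ JJ N L Q,
      cc N L j * cc N L j' *
        WW N k Q (u + Real.log ((nm N j.1 : ℝ) * nm N j'.1 / nm N (gg j j'))) ≤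
      (ρ * ph N Q * Real.exp (-u)) * Sq N L Q 0 +
        (JJ N L Q).card * (JJ N L Q).card * (C₂ * W) := by
    calc ∑ j ∈ JJ N L Q, ∑ j' ∈ JJ N L Q, cc N L j * cc N L j' *
          WW N k Q (u + Real.log ((nm N j.1 : ℝ) * nm N j'.1 / nm N (gg j j')))
        ≤ ∑ j ∈ JJ N L Q, ∑ j' ∈ JJ N L Q, ((ρ * ph N Q * Real.exp (-u)) *
            (cc N L j * cc N L j' *
              ((nm N (gg j j') : ℝ) / (nm N j.1 * nm N j'.1)) ^ (1 + (0 : ℝ))) + C₂ * W) :=
          Finset.sum_le_sum fun j hj => Finset.sum_le_sum fun j' hj' => hterm j hj j' hj'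
      _ = _ := by
          unfold Sq
          simp only [Finset.sum_add_distrib, Finset.sum_const, nsmul_eq_mul, ← Finset.mul_sum]
          ring
  have hmain : ρ * ph N Q * Sq N L Q 0 ≤ ρ * C₁ / L := by
    have h1 := hS L Q 0 hL hQ le_rfl (by positivity)
    calc ρ * ph N Q * Sq N L Q 0
        ≤ ρ * ph N Q * (C₁ * (ph N Q)⁻¹ / L) :=
          mul_le_mul_of_nonneg_left h1 (by positivity)
      _ = ρ * C₁ / L := by field_simp
  have herr : Real.exp u * ((JJ N L Q).card * (JJ N L Q).card * (C₂ * W)) ≤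
      C₀ ^ 4 * C₂ * C₃ / L := by
    have hu2 : Real.exp u ≤ Real.exp (-(31 / 2) * L) := by
      rw [Real.exp_le_exp]
      linarith
    have hc0 : (0 : ℝ) ≤ (JJ N L Q).card := Nat.cast_nonneg _
    have hcc : ((JJ N L Q).card : ℝ) * (JJ N L Q).card ≤
        (C₀ ^ 2 * Real.exp (4 * L)) * (C₀ ^ 2 * Real.exp (4 * L)) :=
      mul_le_mul hcard hcard hc0 (hc0.trans hcard)
    have hww : C₂ * W ≤ C₂ * (C₃ * Real.exp (4 * L)) := mul_le_mul_of_nonneg_left hW' hC₂
    have hcw : ((JJ N L Q).card : ℝ) * (JJ N L Q).card * (C₂ * W) ≤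
        (C₀ ^ 2 * Real.exp (4 * L)) * (C₀ ^ 2 * Real.exp (4 * L)) *
          (C₂ * (C₃ * Real.exp (4 * L))) :=
      mul_le_mul hcc hww (mul_nonneg hC₂ hW0) ((mul_nonneg hc0 hc0).trans hcc)
    calc Real.exp u * ((JJ N L Q).card * (JJ N L Q).card * (C₂ * W))
        ≤ Real.exp (-(31 / 2) * L) * ((C₀ ^ 2 * Real.exp (4 * L)) * (C₀ ^ 2 * Real.exp (4 * L)) *
            (C₂ * (C₃ * Real.exp (4 * L)))) :=
          mul_le_mul hu2 hcw (mul_nonneg (mul_nonneg hc0 hc0) (mul_nonneg hC₂ hW0))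
            (Real.exp_pos _).le
      _ = C₀ ^ 4 * C₂ * C₃ * (Real.exp (-(31 / 2) * L) * Real.exp (4 * L) * Real.exp (4 * L) *
            Real.exp (4 * L)) := by ring
      _ = C₀ ^ 4 * C₂ * C₃ * Real.exp (-(7 / 2) * L) := by
          rw [← Real.exp_add, ← Real.exp_add, ← Real.exp_add]
          congr 2
          ring
      _ ≤ C₀ ^ 4 * C₂ * C₃ * (1 / L) := by
          apply mul_le_mul_of_nonneg_left _ (by positivity)
          rw [neg_mul, Real.exp_neg, ← one_div]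
          apply one_div_le_one_div_of_le hL0
          have := Real.add_one_le_exp (7 / 2 * L)
          linarith
      _ = C₀ ^ 4 * C₂ * C₃ / L := by ring
  unfold Diag
  calc Real.exp u * ∑ j ∈ JJ N L Q, ∑ j' ∈ JJ N L Q,
        cc N L j * cc N L j' *
          WW N k Q (u + Real.log ((nm N j.1 : ℝ) * nm N j'.1 / nm N (gg j j')))
      ≤ Real.exp u * ((ρ * ph N Q * Real.exp (-u)) * Sq N L Q 0 +
          (JJ N L Q).card * (JJ N L Q).card * (C₂ * W)) :=
        mul_le_mul_of_nonneg_left hsum (Real.exp_pos _).le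
    _ = (Real.exp u * Real.exp (-u)) * (ρ * ph N Q * Sq N L Q 0) +
          (Real.exp u * ((JJ N L Q).card * (JJ N L Q).card * (C₂ * W))) := by
        ring
    _ = (ρ * ph N Q * Sq N L Q 0) +
          (Real.exp u * ((JJ N L Q).card * (JJ N L Q).card * (C₂ * W))) := by
        rw [← Real.exp_add, add_neg_cancel, Real.exp_zero, one_mul]
    _ ≤ ρ * C₁ / L + C₀ ^ 4 * C₂ * C₃ / L := add_le_add hmain herr
    _ = (ρ * C₁ + C₀ ^ 4 * C₂ * C₃) / L := by ring

end Pool.Agent.AS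

namespace Pool.Agent.AS

theorem diag_small : type_of% @diag_small_pr := @diag_small_pr

end Pool.Agent.AS
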