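import Pool.Agent.Lib_helper92.ASA.ALPHA
import Pool.Agent.Lib_helper92.ASA.BAS
import Pool.Agent.Lib_helper92.ASA.ZETA
import Pool.Agent.Lib_helper92.ASA.ASQ
import Pool.Agent.Lib_helper92.ASA.PERRON
import Pool.Agent.Lib_helper92.ASA.ABOUND
import Pool.Agent.Lib_helper92.ASA.BBD
import Pool.Agent.Lib_helper92.ASA.LOGA
import Pool.Agent.Lib_helper92.ASA.BFORM
import Pool.Agent.Lib_helper92.ASA.CHEB
import Pool.Agent.Lib_helper92.ASA.BSUM
import Pool.Agent.Lib_helper92.ASA.BMEAN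
import Pool.Agent.Lib_helper92.ASA.JT
import Pool.Agent.Lib_helper92.ASA.SQEQ
import Pool.Agent.Lib_helper92.ASA.SMOOTH
import Pool.Agent.Lib_helper92.ASA.YB
import Pool.Agent.Lib_helper92.ASA.RSUM1
import Pool.Agent.Lib_helper92.ASA.RSUM2
import Pool.Agent.Lib_helper92.ASA.RSUM3
import Pool.Agent.Lib_helper92.ASA.SB
import Pool.Agent.Lib_helper92.ASA.DIAGN
import Pool.Agent.Lib_helper92.ASA.DIAGI
import Pool.Agent.Lib_helper92.ASA.GSUM
import Pool.Agent.Lib_helper92.ASA.OMEGA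
import Pool.Agent.Lib_helper92.ASA.DIAGS
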