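import Pool.Agent.Lib_helper24.AS.Defs
import Pool.Agent.Lib_helper92.ASA.BAS
import Pool.Agent.Lib_helper92.ASA.BBD
import Pool.Agent.Lib_helper92.ASA.BSUM

/-! Block BMEAN (helper55). -/

namespace Pool.Agent.AS

open Complex MeasureTheory Filter Topology

variable {P : Type}

/-- telescoping majorant -/
theorem bmean_step (t : ℝ) : min (Real.exp (-(1 / 2 * t))) (Real.exp (-(3 * t))) * Real.exp t ≤
    12 * (1 / (1 + Real.exp (t / 2)) - 1 / (1 + Real.exp ((t + 1) / 2))) := by
  have hy : 0 < Real.exp (t / 2) := Real.exp_pos _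
  have hs1 : (3 : ℝ) / 2 ≤ Real.exp (1 / 2) := by
    have := Real.add_one_le_exp (1 / 2 : ℝ)
    linarith
  have hs2 : Real.exp (1 / 2) ≤ 2 := by
    have h1 : Real.exp (1 / 2) ^ 2 ≤ 2 ^ 2 := by
      rw [← Real.exp_nat_mul]
      have : ((2 : ℕ) : ℝ) * (1 / 2) = 1 := by norm_num
      rw [this]
      have := Real.exp_one_lt_d9
      linarith
    exact (pow_le_pow_iff_left₀ (Real.exp_pos _).le (by norm_num) (by norm_num)).mp h1
  have e1 : Real.exp t = Real.exp (t / 2) ^ 2 := by
    rw [← Real.exp_nat_mul]; congr 1; push_cast; ring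
  have e2 : Real.exp (-(1 / 2 * t)) = 1 / Real.exp (t / 2) := by
    rw [one_div (Real.exp (t / 2)), ← Real.exp_neg]; congr 1; ring
  have e3 : Real.exp (-(3 * t)) = 1 / Real.exp (t / 2) ^ 6 := by
    rw [one_div (Real.exp (t / 2) ^ 6), ← Real.exp_nat_mul, ← Real.exp_neg]; congr 1; push_cast; ring
  have e4 : Real.exp ((t + 1) / 2) = Real.exp (1 / 2) * Real.exp (t / 2) := by
    rw [← Real.exp_add]; congr 1; ring
  rw [e1, e2, e3, e4]
  generalize Real.exp (t / 2) = y at hy
  generalize Real.exp (1 / 2 : ℝ) = s at hs1 hs2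
  have hR : 12 * (1 / (1 + y) - 1 / (1 + s * y)) = 12 * (s - 1) * y / ((1 + y) * (1 + s * y)) := by
    have h1 : (1 + y) ≠ 0 := by positivity
    have h2 : (1 + s * y) ≠ 0 := by positivity
    field_simp
    ring
  rw [hR]
  have hden : 0 < (1 + y) * (1 + s * y) := by positivity
  rcases le_or_gt y 1 with h | h
  · have h1 : min (1 / y) (1 / y ^ 6) * y ^ 2 ≤ y := by
      calc min (1 / y) (1 / y ^ 6) * y ^ 2 ≤ 1 / y * y ^ 2 :=
            mul_le_mul_of_nonneg_right (min_le_left _ _) (by positivity)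
        _ = y := by field_simp
    refine h1.trans ?_
    rw [le_div_iff₀ hden]
    have h2 : (1 + y) * (1 + s * y) ≤ 6 := by
      have : s * y ≤ 2 := by nlinarith
      nlinarith [mul_nonneg (by linarith : (0:ℝ) ≤ s) hy.le]
    have h3 : 6 ≤ 12 * (s - 1) := by linarith
    nlinarith
  · have h1 : min (1 / y) (1 / y ^ 6) * y ^ 2 ≤ 1 / y := by
      calc min (1 / y) (1 / y ^ 6) * y ^ 2 ≤ 1 / y ^ 6 * y ^ 2 :=
            mul_le_mul_of_nonneg_right (min_le_right _ _) (by positivity)
        _ = 1 / y ^ 4 := by field_simp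
        _ ≤ 1 / y := by
          apply one_div_le_one_div_of_le hy
          calc y = y ^ 1 := (pow_one y).symm
            _ ≤ y ^ 4 := pow_le_pow_right₀ h.le (by norm_num)
    refine h1.trans ?_
    rw [div_le_div_iff₀ hy hden]
    have h2 : (1 + y) * (1 + s * y) ≤ 6 * y ^ 2 := by
      have h3 : 1 + y ≤ 2 * y := by linarith
      have h4 : 1 + s * y ≤ 3 * y := by nlinarith
      calc (1 + y) * (1 + s * y) ≤ (2 * y) * (3 * y) :=
            mul_le_mul h3 h4 (by positivity) (by positivity)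
        _ = 6 * y ^ 2 := by ring
    have h3 : 6 ≤ 12 * (s - 1) := by linarith
    nlinarith [sq_nonneg y, mul_nonneg (by linarith : (0:ℝ) ≤ 12 * (s - 1) - 6) (sq_nonneg y)]

theorem bmean_sum (u : ℝ) (n : ℕ) : ∑ i ∈ Finset.range n,
    min (Real.exp (-(1 / 2 * (u + i)))) (Real.exp (-(3 * (u + i)))) * Real.exp (u + i) ≤ 12 := by
  have h1 : ∑ i ∈ Finset.range n,
      min (Real.exp (-(1 / 2 * (u + i)))) (Real.exp (-(3 * (u + i)))) * Real.exp (u + i) ≤
      12 * (1 / (1 + Real.exp (u / 2)) - 1 / (1 + Real.exp ((u + n) / 2))) := by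
    induction n with
    | zero => simp
    | succ n ih =>
      rw [Finset.sum_range_succ]
      have h2 := bmean_step (u + n)
      have h3 : u + ((n + 1 : ℕ) : ℝ) = u + n + 1 := by push_cast; ring
      rw [h3]
      linarith
  refine h1.trans ?_
  have h2 : 1 / (1 + Real.exp (u / 2)) ≤ 1 := by
    rw [div_le_one (by positivity)]
    linarith [Real.exp_pos (u / 2)]
  have h3 : 0 ≤ 1 / (1 + Real.exp ((u + n) / 2)) := by positivity
  linarith

open scoped Classical in
theorem bmean_head {N : P → ℕ} (hN : Good N) {k : ℝ → ℝ} {ρ : ℝ} (hk : Kern N k ρ) :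
    ∃ C : ℝ, 0 ≤ C ∧ ∀ (L u : ℝ), 1 ≤ L →
      Real.exp u * ∑ g ∈ (ball N (Real.exp L)).filter (fun g => g ≠ 0),
        bb N L g ^ 2 * k (u + Real.log (nm N g)) ≤ C / L := by
  obtain ⟨C₁, hC₁, hb⟩ := bb_sum hN
  obtain ⟨K₁, hK₁⟩ := hk.decay (1 / 2) (by norm_num)
  obtain ⟨K₂, hK₂⟩ := hk.decay 3 (by norm_num)
  have hK₁0 : 0 ≤ K₁ := by
    have h1 := hK₁ 0
    have h2 := hk.nonneg 0
    simp at h1
    linarith
  set K := max K₁ K₂ with hK
  have hK0 : 0 ≤ K := hK₁0.trans (le_max_left _ _)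
  -- the kernel bound at the next integer point
  have hker : ∀ w t : ℝ, w ≤ t → t ≤ w + 1 →
      k w ≤ K * Real.exp 3 * min (Real.exp (-(1 / 2 * t))) (Real.exp (-(3 * t))) := by
    intro w t hwt htw
    rw [mul_min_of_nonneg _ _ (by positivity)]
    refine le_min ?_ ?_
    · calc k w ≤ K₁ * Real.exp (-(1 / 2 * w)) := hK₁ w
        _ ≤ K * Real.exp (-(1 / 2 * w)) := by gcongr; exact le_max_left _ _
        _ ≤ K * Real.exp (3 + -(1 / 2 * t)) := by
          apply mul_le_mul_of_nonneg_left _ hK0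
          apply Real.exp_le_exp.mpr
          linarith
        _ = K * Real.exp 3 * Real.exp (-(1 / 2 * t)) := by rw [Real.exp_add]; ring
    · calc k w ≤ K₂ * Real.exp (-(3 * w)) := hK₂ w
        _ ≤ K * Real.exp (-(3 * w)) := by gcongr; exact le_max_right _ _
        _ ≤ K * Real.exp (3 + -(3 * t)) := by
          apply mul_le_mul_of_nonneg_left _ hK0
          apply Real.exp_le_exp.mpr
          linarith
        _ = K * Real.exp 3 * Real.exp (-(3 * t)) := by rw [Real.exp_add]; ring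
  refine ⟨K * Real.exp 3 * C₁ * 12, by positivity, fun L u hL => ?_⟩
  set F := (ball N (Real.exp L)).filter (fun g => g ≠ 0) with hF
  have hlog : ∀ g : P →₀ ℕ, 0 ≤ Real.log (nm N g) := fun g => Real.log_natCast_nonneg _
  have hposn : ∀ g : P →₀ ℕ, (0 : ℝ) < nm N g := fun g => by exact_mod_cast nm_pos hN.two_le g
  -- fibering
  have hmaps : ∀ g ∈ F, ⌈Real.log (nm N g)⌉₊ ∈ Finset.range (⌈L⌉₊ + 1) := by
    intro g hg
    rw [hF, Finset.mem_filter, mem_ball hN] at hg
    rw [Finset.mem_range, Nat.lt_succ_iff]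
    apply Nat.ceil_le_ceil
    rw [Real.log_le_iff_le_exp (hposn g)]
    exact hg.1
  rw [← Finset.sum_fiberwise_of_maps_to hmaps, Finset.mul_sum]
  have hfib : ∀ i ∈ Finset.range (⌈L⌉₊ + 1),
      Real.exp u * ∑ g ∈ F with ⌈Real.log (nm N g)⌉₊ = i,
        bb N L g ^ 2 * k (u + Real.log (nm N g)) ≤
      K * Real.exp 3 * C₁ / L *
        (min (Real.exp (-(1 / 2 * (u + i)))) (Real.exp (-(3 * (u + i)))) * Real.exp (u + i)) := by
    intro i _
    have hm0 : 0 ≤ min (Real.exp (-(1 / 2 * (u + i)))) (Real.exp (-(3 * (u + i)))) :=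
      le_min (Real.exp_pos _).le (Real.exp_pos _).le
    have h1 : ∑ g ∈ F with ⌈Real.log (nm N g)⌉₊ = i, bb N L g ^ 2 * k (u + Real.log (nm N g)) ≤
        ∑ g ∈ F with ⌈Real.log (nm N g)⌉₊ = i, bb N L g ^ 2 *
          (K * Real.exp 3 * min (Real.exp (-(1 / 2 * (u + i)))) (Real.exp (-(3 * (u + i))))) := by
      refine Finset.sum_le_sum fun g hg => ?_
      rw [Finset.mem_filter] at hg
      refine mul_le_mul_of_nonneg_left ?_ (sq_nonneg _)
      have h2 : Real.log (nm N g) ≤ i := by rw [← hg.2]; exact Nat.le_ceil _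
      have h3 : (i : ℝ) < Real.log (nm N g) + 1 := by
        rw [← hg.2]; exact Nat.ceil_lt_add_one (hlog g)
      exact hker _ _ (by linarith) (by linarith)
    have h2 : ∑ g ∈ F with ⌈Real.log (nm N g)⌉₊ = i, bb N L g ^ 2 ≤
        C₁ * Real.exp i / L := by
      have h3 := hb L (Real.exp (min (i : ℝ) L)) hL
        (Real.one_le_exp (le_min (Nat.cast_nonneg _) (by linarith)))
        (by rw [Real.log_exp]; exact min_le_right _ _)
      refine le_trans ?_ (h3.trans ?_)
      · refine Finset.sum_le_sum_of_subset_of_nonneg ?_ fun _ _ _ => sq_nonneg _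
        intro g hg
        rw [Finset.mem_filter, hF, Finset.mem_filter, mem_ball hN] at hg
        rw [Finset.mem_filter, mem_ball hN]
        refine ⟨?_, hg.1.2⟩
        rw [← Real.log_le_iff_le_exp (hposn g)]
        refine le_min ?_ ?_
        · rw [← hg.2]; exact Nat.le_ceil _
        · rw [Real.log_le_iff_le_exp (hposn g)]
          exact hg.1.1
      · apply div_le_div_of_nonneg_right _ (by linarith)
        apply mul_le_mul_of_nonneg_left _ hC₁
        exact Real.exp_le_exp.mpr (min_le_left _ _)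
    rw [← Finset.sum_mul] at h1
    calc Real.exp u * ∑ g ∈ F with ⌈Real.log (nm N g)⌉₊ = i,
          bb N L g ^ 2 * k (u + Real.log (nm N g))
        ≤ Real.exp u * ((∑ g ∈ F with ⌈Real.log (nm N g)⌉₊ = i, bb N L g ^ 2) *
          (K * Real.exp 3 * min (Real.exp (-(1 / 2 * (u + i)))) (Real.exp (-(3 * (u + i)))))) :=
          mul_le_mul_of_nonneg_left h1 (Real.exp_pos _).le
      _ ≤ Real.exp u * ((C₁ * Real.exp i / L) *
          (K * Real.exp 3 * min (Real.exp (-(1 / 2 * (u + i)))) (Real.exp (-(3 * (u + i)))))) := by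
          apply mul_le_mul_of_nonneg_left _ (Real.exp_pos _).le
          apply mul_le_mul_of_nonneg_right h2 (by positivity)
      _ = _ := by rw [Real.exp_add]; ring
  refine (Finset.sum_le_sum hfib).trans ?_
  rw [← Finset.mul_sum]
  calc K * Real.exp 3 * C₁ / L * ∑ i ∈ Finset.range (⌈L⌉₊ + 1),
        (min (Real.exp (-(1 / 2 * (u + i)))) (Real.exp (-(3 * (u + i)))) * Real.exp (u + i))
      ≤ K * Real.exp 3 * C₁ / L * 12 := by
        apply mul_le_mul_of_nonneg_left (bmean_sum u _)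
        have : 0 ≤ L := by linarith
        positivity
    _ = _ := by ring

open scoped Classical in
theorem bb_mean_pr {N : P → ℕ} (hN : Good N) {k : ℝ → ℝ} {ρ : ℝ} (hk : Kern N k ρ) :
    ∃ C : ℝ, 0 ≤ C ∧ ∀ (L u : ℝ), 1 ≤ L → |u| ≤ L / 2 →
      Summable (fun g : P →₀ ℕ =>
        if g = 0 then 0 else bb N L g ^ 2 * k (u + Real.log (nm N g))) ∧
      Real.exp u * ∑' g : P →₀ ℕ,
        (if g = 0 then 0 else bb N L g ^ 2 * k (u + Real.log (nm N g))) ≤ C / L := by
  obtain ⟨C₀, hC₀, hhead⟩ := bmean_head hN hk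
  obtain ⟨B, hB, hbb⟩ := bb_abs hN
  obtain ⟨K, hK⟩ := hk.decay 40 (by norm_num)
  have hK0 : 0 ≤ K := by
    have h1 := hK 0
    have h2 := hk.nonneg 0
    simp at h1
    linarith
  have hsum2 : Summable (fun g : P →₀ ℕ => (nm N g : ℝ) ^ (-(1 + 1) : ℝ)) :=
    hN.summable 1 one_pos
  set Z := ∑' g : P →₀ ℕ, (nm N g : ℝ) ^ (-(1 + 1) : ℝ) with hZ
  have hZ0 : 0 ≤ Z := tsum_nonneg fun g => Real.rpow_nonneg (Nat.cast_nonneg _) _
  have hposn : ∀ g : P →₀ ℕ, (0 : ℝ) < nm N g := fun g => by exact_mod_cast nm_pos hN.two_le g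
  refine ⟨C₀ + B ^ 2 * K * Z, by positivity, fun L u hL hu => ?_⟩
  have hu' := abs_le.mp hu
  set f : (P →₀ ℕ) → ℝ := fun g =>
    if g = 0 then 0 else bb N L g ^ 2 * k (u + Real.log (nm N g)) with hf
  set M := B ^ 2 * K * Real.exp (8 * L - 40 * u - 38 * L) with hM
  have hM0 : 0 ≤ M := by positivity
  have hf0 : ∀ g, 0 ≤ f g := by
    intro g
    simp only [hf]
    split_ifs
    · exact le_rfl
    · exact mul_nonneg (sq_nonneg _) (hk.nonneg _)
  have hfle : ∀ g, f g ≤ (if g ∈ ball N (Real.exp L) then f g else 0) +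
      M * (nm N g : ℝ) ^ (-(1 + 1) : ℝ) := by
    intro g
    have htail : 0 ≤ M * (nm N g : ℝ) ^ (-(1 + 1) : ℝ) :=
      mul_nonneg hM0 (Real.rpow_nonneg (Nat.cast_nonneg _) _)
    split_ifs with h
    · linarith
    · rw [zero_add]
      simp only [hf]
      split_ifs with h0
      · exact htail
      · rw [mem_ball hN, not_le] at h
        have hlog : L ≤ Real.log (nm N g) := by
          rw [Real.le_log_iff_exp_le (hposn g)]
          exact h.le
        have h1 : bb N L g ^ 2 ≤ B ^ 2 * Real.exp (8 * L) := by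
          have h2 := hbb L (by linarith) g
          calc bb N L g ^ 2 = |bb N L g| ^ 2 := (sq_abs _).symm
            _ ≤ (B * Real.exp (4 * L)) ^ 2 := by gcongr
            _ = B ^ 2 * Real.exp (8 * L) := by
              rw [mul_pow, ← Real.exp_nat_mul]; congr 2; push_cast; ring
        have h3 : k (u + Real.log (nm N g)) ≤
            K * Real.exp (-(40 * u) - 38 * L) * (nm N g : ℝ) ^ (-(1 + 1) : ℝ) := by
          refine (hK _).trans ?_
          rw [Real.rpow_def_of_pos (hposn g), mul_assoc, ← Real.exp_add]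
          apply mul_le_mul_of_nonneg_left _ hK0
          apply Real.exp_le_exp.mpr
          nlinarith
        calc bb N L g ^ 2 * k (u + Real.log (nm N g))
            ≤ (B ^ 2 * Real.exp (8 * L)) *
              (K * Real.exp (-(40 * u) - 38 * L) * (nm N g : ℝ) ^ (-(1 + 1) : ℝ)) :=
              mul_le_mul h1 h3 (hk.nonneg _) (by positivity)
          _ = M * (nm N g : ℝ) ^ (-(1 + 1) : ℝ) := by
            rw [hM, show 8 * L - 40 * u - 38 * L = 8 * L + (-(40 * u) - 38 * L) by ring,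
              Real.exp_add]
            ring
  have hs1 : Summable (fun g : P →₀ ℕ => if g ∈ ball N (Real.exp L) then f g else 0) :=
    summable_of_ne_finset_zero (s := ball N (Real.exp L)) fun g hg => if_neg hg
  have hs2 : Summable (fun g : P →₀ ℕ => M * (nm N g : ℝ) ^ (-(1 + 1) : ℝ)) := hsum2.mul_left M
  have hsf : Summable f := Summable.of_nonneg_of_le hf0 hfle (hs1.add hs2)
  refine ⟨hsf, ?_⟩
  have h1 : ∑' g, f g ≤ ∑ g ∈ ball N (Real.exp L), f g + M * Z := by
    calc ∑' g, f g ≤ ∑' g, ((if g ∈ ball N (Real.exp L) then f g else 0) +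
          M * (nm N g : ℝ) ^ (-(1 + 1) : ℝ)) := hsf.tsum_le_tsum hfle (hs1.add hs2)
      _ = _ := by
        rw [hs1.tsum_add hs2, tsum_mul_left, tsum_eq_sum (s := ball N (Real.exp L))
          fun g hg => if_neg hg]
        congr 1
        exact Finset.sum_congr rfl fun g hg => if_pos hg
  have h2 : ∑ g ∈ ball N (Real.exp L), f g = ∑ g ∈ (ball N (Real.exp L)).filter (fun g => g ≠ 0),
      bb N L g ^ 2 * k (u + Real.log (nm N g)) := by
    rw [Finset.sum_filter]
    refine Finset.sum_congr rfl fun g _ => ?_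
    simp only [hf]
    by_cases h : g = 0
    · rw [if_pos h, if_neg (not_not.mpr h)]
    · rw [if_neg h, if_pos h]
  have h3 := hhead L u hL
  rw [← h2] at h3
  have h4 : Real.exp u * M ≤ B ^ 2 * K * (1 / L) := by
    have h5 : Real.exp u * M = B ^ 2 * K * Real.exp (u + (8 * L - 40 * u - 38 * L)) := by
      rw [hM, Real.exp_add]; ring
    rw [h5]
    apply mul_le_mul_of_nonneg_left _ (by positivity)
    have h6 : Real.exp (u + (8 * L - 40 * u - 38 * L)) ≤ Real.exp (-L) := by
      apply Real.exp_le_exp.mpr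
      linarith [hu'.1]
    refine h6.trans ?_
    rw [Real.exp_neg, ← one_div]
    apply one_div_le_one_div_of_le (by linarith)
    linarith [Real.add_one_le_exp L]
  calc Real.exp u * ∑' g, f g ≤ Real.exp u * (∑ g ∈ ball N (Real.exp L), f g + M * Z) :=
        mul_le_mul_of_nonneg_left h1 (Real.exp_pos _).le
    _ = Real.exp u * ∑ g ∈ ball N (Real.exp L), f g + Real.exp u * M * Z := by ring
    _ ≤ C₀ / L + B ^ 2 * K * (1 / L) * Z := by
      apply add_le_add h3
      exact mul_le_mul_of_nonneg_right h4 hZ0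
    _ = (C₀ + B ^ 2 * K * Z) / L := by ring

end Pool.Agent.AS

namespace Pool.Agent.AS

theorem bb_mean : type_of% @bb_mean_pr := @bb_mean_pr

end Pool.Agent.AS
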